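import Pool.Agent.H92.KT.ADef

/-!
# KT, II.1: `(EQ)` is equivalent to `gg N = 0`
-/

namespace Pool.Agent.H92.KT

open Finset

/-- `ee (l + 1)` as a fraction. -/
theorem ee_eq {c : ℕ → ℝ} {k v Q : ℝ} (hv : v - c 0 = (k - c 0) * (1 + Q)) (N : ℕ)
    (h2 : ∀ q, q ≤ N → c q - 2 ≠ 0) (hvc : ∀ q, q ≤ N → v - c q ≠ 0) (l : ℕ) (hl : l + 1 ≤ N) :
    ee c k v (l + 1) * ((∏ q ∈ range (l + 1), (v - c q)) * ∏ q ∈ range (l + 2), (c q - 2)) =
      (k - c 0) * gg c k v (1 + Q) l := by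
  induction l with
  | zero =>
    have e0 : c 0 - 2 ≠ 0 := h2 0 (by omega)
    have e1 : c 1 - 2 ≠ 0 := h2 1 (by omega)
    have v0 : v - c 0 ≠ 0 := hvc 0 (by omega)
    simp only [ee, gg, prod_range_succ, prod_range_zero, one_mul, zero_add]
    field_simp
    linear_combination (c 0 - 2) * hv
  | succ l ih =>
    have ih' := ih (by omega)
    have e2 : c (l + 2) - 2 ≠ 0 := h2 (l + 2) (by omega)
    have v1 : v - c (l + 1) ≠ 0 := hvc (l + 1) (by omega)
    have hpv : (∏ q ∈ range (l + 2), (v - c q)) =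
        (∏ q ∈ range (l + 1), (v - c q)) * (v - c (l + 1)) := prod_range_succ _ _
    have hpc : (∏ q ∈ range (l + 3), (c q - 2)) =
        (∏ q ∈ range (l + 2), (c q - 2)) * (c (l + 2) - 2) := prod_range_succ _ _
    have hpv' : (∏ q ∈ range (l + 2), (v - c q)) =
        (∏ q ∈ range (l + 1), (v - c (q + 1))) * (v - c 0) := prod_range_succ' _ _
    have hee : ee c k v (l + 1 + 1) * (c (l + 2) - 2) * (v - c (l + 1)) =
        (v - c (l + 1)) - (k - c (l + 2)) * (k - c (l + 1)) * ee c k v (l + 1) := by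
      rw [ee]
      field_simp
    have hgg : gg c k v (1 + Q) (l + 1) = (1 + Q) * (∏ q ∈ range (l + 1), (v - c (q + 1))) *
      (∏ q ∈ range (l + 2), (c q - 2)) - (k - c (l + 2)) * (k - c (l + 1)) * gg c k v (1 + Q) l :=
      rfl
    rw [hgg]
    calc ee c k v (l + 1 + 1) * ((∏ q ∈ range (l + 1 + 1), (v - c q)) *
          ∏ q ∈ range (l + 1 + 2), (c q - 2))
        = (ee c k v (l + 1 + 1) * (c (l + 2) - 2) * (v - c (l + 1))) *
          ((∏ q ∈ range (l + 1), (v - c q)) * ∏ q ∈ range (l + 2), (c q - 2)) := by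
          rw [hpc, hpv]; ring
      _ = ((v - c (l + 1)) * (∏ q ∈ range (l + 1), (v - c q))) * (∏ q ∈ range (l + 2), (c q - 2))
          - (k - c (l + 2)) * (k - c (l + 1)) * (ee c k v (l + 1) *
            ((∏ q ∈ range (l + 1), (v - c q)) * ∏ q ∈ range (l + 2), (c q - 2))) := by
          rw [hee]; ring
      _ = ((∏ q ∈ range (l + 1), (v - c (q + 1))) * ((k - c 0) * (1 + Q))) *
          (∏ q ∈ range (l + 2), (c q - 2))
          - (k - c (l + 2)) * (k - c (l + 1)) * ((k - c 0) * gg c k v (1 + Q) l) := by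
          rw [ih', ← hv, ← hpv', hpv]; ring
      _ = _ := by ring

/-- `(EQ)` gives `gg N = 0`. -/
theorem gg_of_eq {c : ℕ → ℝ} {k v Q : ℝ} (hv : v - c 0 = (k - c 0) * (1 + Q)) {N : ℕ}
    (hN : 1 ≤ N) (hk : k - c 0 ≠ 0)
    (h2 : ∀ q, q ≤ N → c q - 2 ≠ 0) (hvc : ∀ q, q ≤ N → v - c q ≠ 0) (hc : c (N + 1) = 2)
    (he : (k - 2) * ((k - c N) / (v - c N)) * ee c k v N = 1) :
    gg c k v (1 + Q) N = 0 := by
  obtain ⟨l, rfl⟩ : ∃ l, N = l + 1 := ⟨N - 1, by omega⟩
  have key := ee_eq hv (l + 1) h2 hvc l le_rfl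
  have v1 : v - c (l + 1) ≠ 0 := hvc (l + 1) le_rfl
  have he' : (k - c (l + 1 + 1)) * (k - c (l + 1)) * ee c k v (l + 1) = v - c (l + 1) := by
    rw [hc]
    field_simp at he
    linarith
  have hpv : (∏ q ∈ range (l + 2), (v - c q)) =
      (∏ q ∈ range (l + 1), (v - c q)) * (v - c (l + 1)) := prod_range_succ _ _
  have hpv' : (∏ q ∈ range (l + 2), (v - c q)) =
      (∏ q ∈ range (l + 1), (v - c (q + 1))) * (v - c 0) := prod_range_succ' _ _
  have hgg : gg c k v (1 + Q) (l + 1) = (1 + Q) * (∏ q ∈ range (l + 1), (v - c (q + 1))) *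
    (∏ q ∈ range (l + 2), (c q - 2)) - (k - c (l + 2)) * (k - c (l + 1)) * gg c k v (1 + Q) l :=
    rfl
  have : (k - c 0) * gg c k v (1 + Q) (l + 1) = 0 := by
    rw [hgg]
    calc (k - c 0) * ((1 + Q) * (∏ q ∈ range (l + 1), (v - c (q + 1))) *
          (∏ q ∈ range (l + 2), (c q - 2)) -
          (k - c (l + 2)) * (k - c (l + 1)) * gg c k v (1 + Q) l)
        = ((∏ q ∈ range (l + 1), (v - c (q + 1))) * ((k - c 0) * (1 + Q))) *
            (∏ q ∈ range (l + 2), (c q - 2)) -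
            (k - c (l + 2)) * (k - c (l + 1)) * ((k - c 0) * gg c k v (1 + Q) l) := by ring
      _ = ((∏ q ∈ range (l + 1), (v - c q)) * ∏ q ∈ range (l + 2), (c q - 2)) *
            ((v - c (l + 1)) - (k - c (l + 1 + 1)) * (k - c (l + 1)) * ee c k v (l + 1)) := by
          rw [← key, ← hv, ← hpv', hpv]; ring
      _ = 0 := by rw [he']; ring
  rcases mul_eq_zero.1 this with h | h
  · exact absurd h hk
  · exact h

end Pool.Agent.H92.KT
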