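import Pool.Agent.H92.KT.ADef

/-!
# KT, II.2: `b` divides `Q * D` if `gg N = 0`; II.4: no rational zero of `ps N` in `[w, w + 1)`
-/

namespace Pool.Agent.H92.KT

open Finset

/-- the value of `gg` at `k = v = c 0` -/
theorem gg_diag {R : Type*} [CommRing R] (c : ℕ → R) (Q : R) (l : ℕ) :
    gg c (c 0) (c 0) (1 + Q) l = (∏ q ∈ range l, (c 0 - c (q + 1))) *
      ((1 + Q) * (∏ q ∈ range (l + 1), (c (q + 1) - 2)) +
        (-1) ^ l * Q * ∏ q ∈ range (l + 1), (c 0 - c (q + 1))) := by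
  induction l with
  | zero =>
    simp only [gg, prod_range_succ, prod_range_zero, one_mul, pow_zero, zero_add]
    ring
  | succ l ih =>
    have e1 : (∏ q ∈ range (l + 1), (c 0 - c (q + 1))) =
        (∏ q ∈ range l, (c 0 - c (q + 1))) * (c 0 - c (l + 1)) := prod_range_succ _ _
    have e2 : (∏ q ∈ range (l + 1 + 1), (c 0 - c (q + 1))) =
        (∏ q ∈ range (l + 1), (c 0 - c (q + 1))) * (c 0 - c (l + 2)) := prod_range_succ _ _
    have e3 : (∏ q ∈ range (l + 1 + 1), (c (q + 1) - 2)) =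
        (∏ q ∈ range (l + 1), (c (q + 1) - 2)) * (c (l + 2) - 2) := prod_range_succ _ _
    have e4 : (∏ q ∈ range (l + 2), (c q - 2)) =
        (∏ q ∈ range (l + 1), (c (q + 1) - 2)) * (c 0 - 2) := prod_range_succ' _ _
    have hgg : gg c (c 0) (c 0) (1 + Q) (l + 1) =
        (1 + Q) * (∏ q ∈ range (l + 1), (c 0 - c (q + 1))) *
      (∏ q ∈ range (l + 2), (c q - 2)) - (c 0 - c (l + 2)) * (c 0 - c (l + 1)) *
        gg c (c 0) (c 0) (1 + Q) l := rfl
    rw [hgg, ih, e2, e3, e4, e1, pow_succ]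
    ring

/-- II.2 -/
theorem dvd_of_gg (c : ℕ → ℤ) (N : ℕ) (b Q : ℕ) (hc : c (N + 1) = 2) (k v : ℤ)
    (hk : k = c 0 + (c 0 - c 1) * b) (hv : v = k + (k - c 0) * Q)
    (hg : gg c k v (1 + Q) N = 0) :
    (b : ℤ) ∣ Q * ((c 0 - 2) * ∏ q ∈ range N, (c 0 - c (q + 1)) ^ 2) := by
  have hk' : ((k : ℤ) : ZMod b) = ((c 0 : ℤ) : ZMod b) := by
    rw [hk]; push_cast; simp
  have hv' : ((v : ℤ) : ZMod b) = ((c 0 : ℤ) : ZMod b) := by
    rw [hv]; push_cast; rw [hk']; ring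
  have h1 := map_gg (Int.castRingHom (ZMod b)) c k v (1 + Q) N
  rw [hg, map_zero] at h1
  simp only [Int.coe_castRingHom, map_add, map_one, map_natCast] at h1
  rw [hk', hv', gg_diag (fun i => ((c i : ℤ) : ZMod b)) ((Q : ZMod b)) N] at h1
  have e0 : (∏ q ∈ range (N + 1), (((c (q + 1) : ℤ) : ZMod b) - 2)) = 0 := by
    apply prod_eq_zero (mem_range.2 (Nat.lt_succ_self N))
    rw [hc]; norm_num
  have e1 : (∏ q ∈ range (N + 1), (((c 0 : ℤ) : ZMod b) - ((c (q + 1) : ℤ) : ZMod b))) =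
      (∏ q ∈ range N, (((c 0 : ℤ) : ZMod b) - ((c (q + 1) : ℤ) : ZMod b))) *
        (((c 0 : ℤ) : ZMod b) - 2) := by
    rw [prod_range_succ, hc]; norm_num
  rw [e0, e1] at h1
  rw [← ZMod.intCast_zmod_eq_zero_iff_dvd]
  push_cast
  rw [prod_pow]
  rcases neg_one_pow_eq_or (ZMod b) N with h | h
  · rw [h] at h1
    linear_combination -h1
  · rw [h] at h1
    linear_combination h1

/-! ### II.4 -/

/-- `q ^ (l + 1) * ps (p / q)` is an integer, congruent to `(-p) ^ (l + 1)` modulo `q`. -/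
theorem ps_int (c : ℕ → ℤ) (p q : ℤ) (A : ℝ) (hA : A * q = p) (l : ℕ) :
    ∃ t : ℤ, (q : ℝ) ^ (l + 1) * ps (fun i => (c i : ℝ)) A l = (t : ℝ) ∧
      q ∣ t - (-p) ^ (l + 1) := by
  induction l with
  | zero =>
    refine ⟨q * (c 0 - 2) - p, ?_, ?_⟩
    · simp only [ps]
      push_cast
      linear_combination -hA
    · exact ⟨c 0 - 2, by ring⟩
  | succ l ih =>
    obtain ⟨t, ht, s, hs⟩ := ih
    refine ⟨q ^ (l + 2) * (∏ i ∈ range (l + 2), (c i - 2)) - p * t, ?_, ?_⟩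
    · simp only [ps]
      push_cast
      rw [← ht, ← hA]
      ring
    · refine ⟨q ^ (l + 1) * (∏ i ∈ range (l + 2), (c i - 2)) - p * s, ?_⟩
      have : t = q * s + (-p) ^ (l + 1) := by linarith
      rw [this]
      ring

/-- a rational zero of `ps l` is an integer -/
theorem ps_zero_int (c : ℕ → ℤ) (A : ℚ) (l : ℕ) (h : ps (fun i => (c i : ℝ)) (A : ℝ) l = 0) :
    ∃ z : ℤ, A = z := by
  have hq : (A.den : ℝ) ≠ 0 := by exact_mod_cast A.den_ne_zero
  have hA : (A : ℝ) * ((A.den : ℤ) : ℝ) = ((A.num : ℤ) : ℝ) := by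
    have := A.mul_den_eq_num
    exact_mod_cast this
  obtain ⟨t, ht, hd⟩ := ps_int c A.num A.den (A : ℝ) hA l
  rw [h, mul_zero] at ht
  have ht0 : t = 0 := by exact_mod_cast ht.symm
  rw [ht0, zero_sub, dvd_neg] at hd
  have hcop : IsCoprime ((-A.num) ^ (l + 1)) (A.den : ℤ) := by
    apply IsCoprime.pow_left
    rw [IsCoprime.neg_left_iff]
    rw [Int.isCoprime_iff_gcd_eq_one]
    have := A.reduced
    rw [Int.gcd_eq_natAbs]
    simpa using this
  have hu : IsUnit (A.den : ℤ) := hcop.isUnit_of_dvd' hd dvd_rfl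
  have hd1 : A.den = 1 := by
    have := Int.isUnit_iff_natAbs_eq.1 hu
    simpa using this
  refine ⟨A.num, ?_⟩
  conv_lhs => rw [← Rat.num_div_den A, hd1]
  simp

theorem anti_of {N : ℕ} {c : ℕ → ℤ} (hc : ∀ l, l < N → c (l + 1) < c l) {i j : ℕ} (hij : i < j)
    (hj : j ≤ N) : c j < c i := by
  obtain ⟨d, rfl⟩ : ∃ d, j = i + 1 + d := ⟨j - i - 1, by omega⟩
  clear hij
  induction d with
  | zero => exact hc i (by omega)
  | succ d ih => exact (hc (i + 1 + d) (by omega)).trans (ih (by omega))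

/-- II.4 -/
theorem ps_ne_zero (N : ℕ) (hN : 2 ≤ N) (c : ℕ → ℤ) (w : ℤ) (hw0 : 0 < w)
    (hc : ∀ l, l < N → c (l + 1) < c l) (hcN : c N = w + 2)
    (A : ℚ) (h1 : (w : ℚ) ≤ A) (h2 : A < w + 1) :
    ps (fun i => (c i : ℝ)) (A : ℝ) N ≠ 0 := by
  intro h
  obtain ⟨z, hz⟩ := ps_zero_int c A N h
  have hzw : z = w := by
    rw [hz] at h1 h2
    have e1 : w ≤ z := by exact_mod_cast h1
    have e2 : z < w + 1 := by exact_mod_cast h2
    omega
  have hA : (A : ℝ) = (w : ℝ) := by rw [hz, hzw]; simp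
  rw [hA] at h
  have hmono : ∀ l, l < N → c N < c l := fun l hl => anti_of hc hl le_rfl
  have hfac : ∀ l, l < N → (0 : ℝ) < (c l : ℝ) - 2 - w := by
    intro l hl
    have := hmono l hl
    rw [hcN] at this
    have : ((w + 2 : ℤ) : ℝ) < (c l : ℝ) := by exact_mod_cast this
    push_cast at this
    linarith
  have hwR : (0 : ℝ) < w := by exact_mod_cast hw0
  have hprod : ∀ l, l ≤ N → (0 : ℝ) < ∏ i ∈ range l, ((c i : ℝ) - 2) := by
    intro l hl
    apply prod_pos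
    intro i hi
    have := hfac i (by have := mem_range.1 hi; omega)
    linarith
  have hpos : ∀ l, l + 1 < N → 0 < ps (fun i => (c i : ℝ)) (w : ℝ) l ∧
      ps (fun i => (c i : ℝ)) (w : ℝ) l ≤ ∏ i ∈ range (l + 1), ((c i : ℝ) - 2) := by
    intro l
    induction l with
    | zero =>
      intro hl
      have := hfac 0 (by omega)
      simp only [ps, zero_add, prod_range_one]
      constructor <;> linarith
    | succ l ih =>
      intro hl
      obtain ⟨i1, i2⟩ := ih (by omega)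
      have e : (∏ i ∈ range (l + 2), ((c i : ℝ) - 2)) =
        (∏ i ∈ range (l + 1), ((c i : ℝ) - 2)) * ((c (l + 1) : ℝ) - 2) := prod_range_succ _ _
      have hp := hprod (l + 1) (by omega)
      have hf := hfac (l + 1) (by omega)
      simp only [ps]
      constructor
      · have := mul_le_mul_of_nonneg_left i2 hwR.le
        have := mul_pos hp hf
        rw [e]
        nlinarith
      · have := mul_pos hwR i1
        show (∏ i ∈ range (l + 2), ((c i : ℝ) - 2)) - _ ≤ ∏ i ∈ range (l + 2), ((c i : ℝ) - 2)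
        linarith
  obtain ⟨n, rfl⟩ : ∃ n, N = n + 2 := ⟨N - 2, by omega⟩
  have hp := (hpos n (by omega)).1
  have e : (∏ i ∈ range (n + 3), ((c i : ℝ) - 2)) =
        (∏ i ∈ range (n + 2), ((c i : ℝ) - 2)) * ((c (n + 2) : ℝ) - 2) := prod_range_succ _ _
  have e2 : ps (fun i => (c i : ℝ)) (w : ℝ) (n + 2) =
      (∏ i ∈ range (n + 3), ((c i : ℝ) - 2)) - w * ((∏ i ∈ range (n + 2), ((c i : ℝ) - 2)) -
        w * ps (fun i => (c i : ℝ)) (w : ℝ) n) := rfl
  rw [e2, e, hcN] at h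
  push_cast at h
  have : (w : ℝ) ^ 2 * ps (fun i => (c i : ℝ)) (w : ℝ) n = 0 := by linear_combination h
  have h3 : 0 < (w : ℝ) ^ 2 * ps (fun i => (c i : ℝ)) (w : ℝ) n := by positivity
  linarith

end Pool.Agent.H92.KT
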