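import Pool.Agent.H92.KT.A1
import Pool.Agent.H92.KT.A2

/-!
# KT, II.3 and II.5: the limit along `Q = theta * b`
-/

namespace Pool.Agent.H92.KT

open Finset Filter Topology

/-- `gg l = b ^ (2 l + 1) * GG l (1 / b)` -/
noncomputable def GG (c : ℕ → ℝ) (d θ : ℝ) : ℕ → ℝ → ℝ
  | 0 => fun x => (x + θ) * (c 0 - 2) - ((c 0 - c 1) * x + d)
  | l + 1 => fun x => (x + θ) *
      (∏ q ∈ range (l + 1), ((c 0 - c (q + 1)) * x ^ 2 + d * x + d * θ)) *
      (∏ q ∈ range (l + 2), (c q - 2)) -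
      ((c 0 - c (l + 2)) * x + d) * ((c 0 - c (l + 1)) * x + d) * GG c d θ l x

theorem GG_cont (c : ℕ → ℝ) (d θ : ℝ) (l : ℕ) : Continuous (GG c d θ l) := by
  induction l with
  | zero => simp only [GG]; fun_prop
  | succ l ih => simp only [GG]; fun_prop

theorem GG_zero (c : ℕ → ℝ) (d θ : ℝ) (hθ : θ ≠ 0) (l : ℕ) :
    GG c d θ l 0 = θ * (d * θ) ^ l * ps c (d / θ) l := by
  induction l with
  | zero => simp only [GG, ps]; field_simp; ring
  | succ l ih =>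
    simp only [GG, ih, ps]
    simp only [mul_zero, zero_add, ne_eq, OfNat.ofNat_ne_zero, not_false_eq_true, zero_pow,
      prod_const, card_range]
    field_simp
    ring

theorem gg_GG (c : ℕ → ℝ) (d θ b : ℝ) (hb : b ≠ 0) (l : ℕ) :
    gg c (c 0 + d * b) (c 0 + d * b + d * b * (θ * b)) (1 + θ * b) l =
      b ^ (2 * l + 1) * GG c d θ l (1 / b) := by
  induction l with
  | zero =>
    simp only [GG, gg]; field_simp; ring
  | succ l ih =>
    simp only [GG, gg]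
    rw [ih]
    have e : (∏ q ∈ range (l + 1), (c 0 + d * b + d * b * (θ * b) - c (q + 1))) =
        (b ^ 2) ^ (l + 1) *
          ∏ q ∈ range (l + 1), ((c 0 - c (q + 1)) * (1 / b) ^ 2 + d * (1 / b) + d * θ) := by
      rw [← card_range (l + 1), ← prod_const, card_range, ← prod_mul_distrib]
      apply prod_congr rfl
      intro q _
      field_simp
      ring
    rw [e]
    have e1 : (1 + θ * b) = b * (1 / b + θ) := by field_simp
    have e2 : ∀ x, c 0 + d * b - x = b * ((c 0 - x) * (1 / b) + d) := by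
      intro x; field_simp; ring
    rw [e1, e2, e2]
    ring

theorem limit_nonneg {F : ℝ → ℝ} (hF : Continuous F) {P : ℕ → Prop} (hP : ∃ᶠ b in atTop, P b)
    (h : ∀ b : ℕ, 0 < b → P b → 0 ≤ F (1 / (b : ℝ))) : 0 ≤ F 0 := by
  have ht : Tendsto (fun b : ℕ => F (1 / (b : ℝ))) atTop (𝓝 (F 0)) :=
    (hF.tendsto 0).comp tendsto_one_div_atTop_nhds_zero_nat
  refine isClosed_Ici.mem_of_frequently_of_tendsto ?_ ht
  refine (hP.and_eventually (eventually_gt_atTop 0)).mono fun b hb => ?_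
  exact h b hb.2 hb.1

/-- II.3 - II.5: one curve `Q = theta * b`, `theta` rational -/
theorem curve (N : ℕ) (hN : 2 ≤ N) (c : ℕ → ℤ) (w : ℤ)
    (hc : ∀ l, l < N → c (l + 1) < c l) (hcN : c N = w + 2)
    (hw : (w = 1 ∧ 9 ≤ c (N - 1)) ∨ (w = 2 ∧ 16 ≤ c (N - 1))) (θ : ℚ) (hθ : 0 < θ) :
    ∃ b0 : ℕ, ∀ b Q : ℕ, b0 ≤ b → (Q : ℝ) = θ * b → ∀ k v : ℝ,
      k = (c 0 : ℝ) + ((c 0 : ℝ) - c 1) * b → v = k + (k - c 0) * Q →
      (w : ℝ) * v < k ^ 2 →
      ((c (N - 1) : ℝ) - c N) * k ^ 2 < w * ((c (N - 1) : ℝ) - 1) * v →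
      gg (fun i => (c i : ℝ)) k v (1 + Q) N ≠ 0 := by
  set C : ℕ → ℝ := fun i => (c i : ℝ) with hC
  set d : ℝ := (c 0 : ℝ) - c 1 with hd
  have hd0 : 0 < d := by
    have := hc 0 (by omega)
    have : (c 1 : ℝ) < c 0 := by exact_mod_cast this
    rw [hd]; linarith
  have hθR : (0 : ℝ) < (θ : ℝ) := by exact_mod_cast hθ
  by_contra hcon
  push Not at hcon
  let P : ℕ → Prop := fun b => ∃ Q : ℕ, (Q : ℝ) = θ * b ∧ ∃ k v : ℝ,
      k = (c 0 : ℝ) + d * b ∧ v = k + (k - c 0) * Q ∧ (w : ℝ) * v < k ^ 2 ∧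
      ((c (N - 1) : ℝ) - c N) * k ^ 2 < w * ((c (N - 1) : ℝ) - 1) * v ∧
      gg C k v (1 + Q) N = 0
  have hP : ∃ᶠ b in atTop, P b := by
    rw [frequently_atTop]
    intro b0
    obtain ⟨b, Q, hb, hQ, k, v, h1, h2, h3, h4, h5⟩ := hcon b0
    exact ⟨b, hb, Q, hQ, k, v, h1, h2, h3, h4, h5⟩
  -- `k` and `v` in terms of `1 / b`
  have hkv : ∀ b : ℕ, 0 < b → ∀ (Q : ℕ), (Q : ℝ) = θ * b → ∀ k v : ℝ, k = (c 0 : ℝ) + d * b →
      v = k + (k - c 0) * Q → k = b * (c 0 * (1 / (b : ℝ)) + d) ∧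
        v = b ^ 2 * (c 0 * (1 / (b : ℝ)) ^ 2 + d * (1 / (b : ℝ)) + d * θ) := by
    intro b hb Q hQ k v hk hv
    have hb' : (b : ℝ) ≠ 0 := by positivity
    constructor
    · rw [hk]; field_simp
    · rw [hv, hk, hQ]; field_simp; ring
  have H1 : 0 ≤ d ^ 2 - w * (d * θ) := by
    have hF : Continuous (fun x : ℝ => (c 0 * x + d) ^ 2 - w * (c 0 * x ^ 2 + d * x + d * θ)) := by
      fun_prop
    have := limit_nonneg hF hP (fun b hb => by
      rintro ⟨Q, hQ, k, v, hk, hv, h3, -, -⟩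
      obtain ⟨e1, e2⟩ := hkv b hb Q hQ k v hk hv
      rw [e1, e2] at h3
      have hb2 : (0 : ℝ) < (b : ℝ) ^ 2 := by positivity
      have : 0 < (b : ℝ) ^ 2 * ((c 0 * (1 / (b : ℝ)) + d) ^ 2 -
        w * (c 0 * (1 / (b : ℝ)) ^ 2 + d * (1 / (b : ℝ)) + d * θ)) := by
        linarith
      exact ((mul_pos_iff_of_pos_left hb2).1 this).le)
    simpa using this
  have H2 : 0 ≤ w * ((c (N - 1) : ℝ) - 1) * (d * θ) - ((c (N - 1) : ℝ) - c N) * d ^ 2 := by
    have hF : Continuous (fun x : ℝ => w * ((c (N - 1) : ℝ) - 1) *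
        (c 0 * x ^ 2 + d * x + d * θ) - ((c (N - 1) : ℝ) - c N) * (c 0 * x + d) ^ 2) := by
      fun_prop
    have := limit_nonneg hF hP (fun b hb => by
      rintro ⟨Q, hQ, k, v, hk, hv, -, h4, -⟩
      obtain ⟨e1, e2⟩ := hkv b hb Q hQ k v hk hv
      rw [e1, e2] at h4
      have hb2 : (0 : ℝ) < (b : ℝ) ^ 2 := by positivity
      have : 0 < (b : ℝ) ^ 2 * (w * ((c (N - 1) : ℝ) - 1) *
        (c 0 * (1 / (b : ℝ)) ^ 2 + d * (1 / (b : ℝ)) + d * θ) -
        ((c (N - 1) : ℝ) - c N) * (c 0 * (1 / (b : ℝ)) + d) ^ 2) := by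
        linarith
      exact ((mul_pos_iff_of_pos_left hb2).1 this).le)
    simpa using this
  have H3 : GG C d θ N 0 = 0 := by
    have key : ∀ b : ℕ, 0 < b → P b → GG C d θ N (1 / (b : ℝ)) = 0 := by
      rintro b hb ⟨Q, hQ, k, v, hk, hv, -, -, h5⟩
      have hb' : (b : ℝ) ≠ 0 := by positivity
      have e := gg_GG C d θ b hb' N
      have ev : v = C 0 + d * b + d * b * (θ * b) := by
        rw [hv, hk, hQ]; simp only [hC]; ring
      have ek : k = C 0 + d * b := hk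
      rw [← hQ] at e
      rw [hQ] at h5
      rw [ev, ek] at h5
      rw [hQ] at e
      rw [h5] at e
      rcases mul_eq_zero.1 e.symm with h | h
      · exact absurd h (pow_ne_zero _ hb')
      · exact h
    have h1 := limit_nonneg (GG_cont C d θ N) hP (fun b hb h => (key b hb h).ge)
    have h2 := limit_nonneg (GG_cont C d θ N).neg hP (fun b hb h => by
      rw [Pi.neg_apply, key b hb h, neg_zero])
    rw [Pi.neg_apply] at h2
    linarith
  rw [GG_zero C d θ hθR.ne' N] at H3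
  have hps : ps C (d / θ) N = 0 := by
    rcases mul_eq_zero.1 H3 with h | h
    · exact absurd h (by positivity)
    · exact h
  have hw0 : 0 < w := by rcases hw with ⟨h, -⟩ | ⟨h, -⟩ <;> omega
  have hwR : (0 : ℝ) < w := by exact_mod_cast hw0
  have hdA : ((((c 0 - c 1 : ℤ) : ℚ) / θ : ℚ) : ℝ) = d / θ := by
    rw [hd]; push_cast; rfl
  have hA1 : (w : ℝ) ≤ d / θ := by
    rw [le_div_iff₀ hθR]
    by_contra hlt
    push Not at hlt
    have := mul_pos hd0 (sub_pos.2 hlt)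
    nlinarith
  have hA2 : d / θ < w + 1 := by
    rw [div_lt_iff₀ hθR]
    by_contra hlt
    push Not at hlt
    rw [hcN] at H2
    push_cast at H2
    have h3 : (0 : ℝ) ≤ w * ((c (N - 1) : ℝ) - 1) * θ - ((c (N - 1) : ℝ) - (w + 2)) * d := by
      have : 0 ≤ d * (w * ((c (N - 1) : ℝ) - 1) * θ - ((c (N - 1) : ℝ) - (w + 2)) * d) := by
        linarith
      exact nonneg_of_mul_nonneg_right this hd0
    rcases hw with ⟨h, h'⟩ | ⟨h, h'⟩
    · have h9 : (9 : ℝ) ≤ c (N - 1) := by exact_mod_cast h'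
      rw [h] at h3 hlt
      push_cast at h3 hlt
      nlinarith
    · have h9 : (16 : ℝ) ≤ c (N - 1) := by exact_mod_cast h'
      rw [h] at h3 hlt
      push_cast at h3 hlt
      nlinarith
  refine ps_ne_zero N hN c w hw0 hc hcN (((c 0 - c 1 : ℤ) : ℚ) / θ) ?_ ?_ ?_
  · have : ((w : ℚ) : ℝ) ≤ ((((c 0 - c 1 : ℤ) : ℚ) / θ : ℚ) : ℝ) := by
      rw [hdA]; push_cast; exact hA1
    exact_mod_cast this
  · have : ((((c 0 - c 1 : ℤ) : ℚ) / θ : ℚ) : ℝ) < ((w + 1 : ℚ) : ℝ) := by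
      rw [hdA]; push_cast; exact hA2
    exact_mod_cast this
  · rw [hdA]; exact hps

end Pool.Agent.H92.KT
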