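import Mathlib

/-!
# KT, Part II (arithmetic): definitions

`c l` stands for `a (m + 3 - l)` (`0 ≤ l ≤ m + 1`), `N = m + 1`, `c N = a 2 = w + 2`, `c (N + 1) = 2`;
`k` is the size of a hyperplane, `v` the number of points, `q1 = 1 + Q = K (m + 3)`,
`b = K (m + 2) - 1`: `k = c 0 + (c 0 - c 1) * b` and `v = k + (k - c 0) * Q`.
-/

namespace Pool.Agent.H92.KT

/-- `ee c k v 0 = e_{m+4}` and `ee c k v (l + 1) = e_{m+3-l}`. -/
noncomputable def ee (c : ℕ → ℝ) (k v : ℝ) : ℕ → ℝ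
  | 0 => 1 / (c 0 - 2)
  | l + 1 => (1 - (k - c (l + 1)) * ((k - c l) / (v - c l)) * ee c k v l) / (c (l + 1) - 2)

/-- the numerators of the `e_i` -/
def gg {R : Type*} [CommRing R] (c : ℕ → R) (k v q1 : R) : ℕ → R
  | 0 => q1 * (c 0 - 2) - (k - c 1)
  | l + 1 => q1 * (∏ q ∈ Finset.range (l + 1), (v - c (q + 1))) *
      (∏ q ∈ Finset.range (l + 2), (c q - 2)) - (k - c (l + 2)) * (k - c (l + 1)) * gg c k v q1 l

/-- the limits (up to a factor) of `gg` along the curves `Q = theta * b`, `A = (c 0 - c 1) / theta` -/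
def ps {R : Type*} [CommRing R] (c : ℕ → R) (A : R) : ℕ → R
  | 0 => (c 0 - 2) - A
  | l + 1 => (∏ q ∈ Finset.range (l + 2), (c q - 2)) - A * ps c A l

theorem map_gg {R S : Type*} [CommRing R] [CommRing S] (f : R →+* S) (c : ℕ → R) (k v q1 : R)
    (l : ℕ) : f (gg c k v q1 l) = gg (fun i => f (c i)) (f k) (f v) (f q1) l := by
  induction l with
  | zero => simp [gg, map_ofNat]
  | succ l ih => simp [gg, ih, map_prod, map_ofNat]

end Pool.Agent.H92.KT
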