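import Pool.Agent.H92.KT.A3

/-!
# KT, Part II: finiteness for given `c 0 > ... > c N` (rows II.1 - II.6)
-/

namespace Pool.Agent.H92.KT

open Finset

theorem m_lt {c0 d b Q w k v D m : ℤ} (hc0 : 0 ≤ c0) (hd : 0 < d) (hb : 0 < b) (hQ : 0 < Q)
    (hw : 0 < w) (hD : 0 < D) (hk : k = c0 + d * b) (hv : v = k + (k - c0) * Q)
    (h3 : w * v < k ^ 2) (hm : Q * D = b * m) : m < D * (c0 + d) ^ 2 := by
  have hdb : 0 < d * b := mul_pos hd hb
  have hk1 : k ≤ (c0 + d) * b := by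
    have : c0 * 1 ≤ c0 * b := mul_le_mul_of_nonneg_left (by omega) hc0
    linarith
  have hk0 : 0 ≤ k := by linarith
  have hk2 : k ^ 2 ≤ ((c0 + d) * b) ^ 2 := pow_le_pow_left₀ hk0 hk1 2
  have hkc : k - c0 = d * b := by linarith
  have hv1 : d * b * Q ≤ v := by rw [hv, hkc]; linarith
  have hv0 : 0 ≤ v := (mul_pos hdb hQ).le.trans hv1
  have hv2 : v ≤ w * v := by
    have : 1 * v ≤ w * v := mul_le_mul_of_nonneg_right (by omega) hv0
    linarith
  have h7 : b * (d * Q) < b * ((c0 + d) ^ 2 * b) := by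
    have e1 : b * (d * Q) = d * b * Q := by ring
    have e2 : b * ((c0 + d) ^ 2 * b) = ((c0 + d) * b) ^ 2 := by ring
    rw [e1, e2]
    linarith
  have h8 : d * Q < (c0 + d) ^ 2 * b := lt_of_mul_lt_mul_left h7 hb.le
  have h8' : Q < (c0 + d) ^ 2 * b := by
    have : 1 * Q ≤ d * Q := mul_le_mul_of_nonneg_right (by omega) hQ.le
    linarith
  have h9 : b * m < b * (D * (c0 + d) ^ 2) := by
    rw [← hm]
    have := mul_lt_mul_of_pos_left h8' hD
    linarith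
  exact lt_of_mul_lt_mul_left h9 hb.le

/-- II.6 for `gg` -/
theorem gg_fin (N : ℕ) (hN : 2 ≤ N) (c : ℕ → ℤ) (w : ℤ)
    (hc : ∀ l, l < N → c (l + 1) < c l) (hcN : c N = w + 2) (hc1 : c (N + 1) = 2)
    (hw : (w = 1 ∧ 9 ≤ c (N - 1)) ∨ (w = 2 ∧ 16 ≤ c (N - 1))) :
    ∃ b0 : ℕ, ∀ b Q : ℕ, b0 ≤ b → ∀ k v : ℝ,
      k = (c 0 : ℝ) + ((c 0 : ℝ) - c 1) * b → v = k + (k - c 0) * Q →
      (w : ℝ) * v < k ^ 2 →
      ((c (N - 1) : ℝ) - c N) * k ^ 2 < w * ((c (N - 1) : ℝ) - 1) * v →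
      gg (fun i => (c i : ℝ)) k v (1 + Q) N ≠ 0 := by
  have hw0 : 0 < w := by rcases hw with ⟨h, -⟩ | ⟨h, -⟩ <;> omega
  have hd0 : 0 < c 0 - c 1 := by have := hc 0 (by omega); linarith
  have hc0 : c (N - 1) ≤ c 0 := by
    rcases Nat.eq_or_lt_of_le (show 1 ≤ N - 1 by omega) with h | h
    · exact (anti_of hc (i := 0) (j := N - 1) (by omega) (by omega)).le
    · exact (anti_of hc (i := 0) (j := N - 1) (by omega) (by omega)).le
  have hc9 : 9 ≤ c 0 := by rcases hw with ⟨-, h⟩ | ⟨-, h⟩ <;> omega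
  set D : ℤ := (c 0 - 2) * ∏ q ∈ range N, (c 0 - c (q + 1)) ^ 2 with hD
  have hDpos : 0 < D := by
    apply mul_pos (by omega)
    apply prod_pos
    intro q hq
    have := anti_of hc (i := 0) (j := q + 1) (by omega) (by have := mem_range.1 hq; omega)
    have : 0 < c 0 - c (q + 1) := by omega
    positivity
  have hDR : (0 : ℝ) < (D : ℝ) := by exact_mod_cast hDpos
  have hone : ∀ m : ℕ, ∃ b0 : ℕ, ∀ b Q : ℕ, b0 ≤ b → (Q : ℤ) * D = b * (m + 1 : ℕ) → ∀ k v : ℝ,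
      k = (c 0 : ℝ) + ((c 0 : ℝ) - c 1) * b → v = k + (k - c 0) * Q →
      (w : ℝ) * v < k ^ 2 →
      ((c (N - 1) : ℝ) - c N) * k ^ 2 < w * ((c (N - 1) : ℝ) - 1) * v →
      gg (fun i => (c i : ℝ)) k v (1 + Q) N ≠ 0 := by
    intro m
    obtain ⟨b0, h⟩ := curve N hN c w hc hcN hw (((m + 1 : ℕ) : ℚ) / (D : ℚ)) (by positivity)
    refine ⟨b0, fun b Q hb hQ => h b Q hb ?_⟩
    have : (Q : ℝ) * D = b * ((m + 1 : ℕ) : ℝ) := by exact_mod_cast hQ
    push_cast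
    push_cast at this
    field_simp
    linarith
  choose f hf using hone
  set M : ℕ := (D * (c 0 + (c 0 - c 1)) ^ 2).toNat with hM
  refine ⟨1 + (range M).sup f, ?_⟩
  intro b Q hb k v hk hv h3 h4 hg
  have hb1 : 1 ≤ b := by omega
  -- integers
  set kz : ℤ := c 0 + (c 0 - c 1) * b with hkz
  set vz : ℤ := kz + (kz - c 0) * Q with hvz
  have ek : k = (kz : ℝ) := by rw [hk, hkz]; push_cast; ring
  have ev : v = (vz : ℝ) := by rw [hv, ek, hvz]; push_cast; ring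
  have h3z : w * vz < kz ^ 2 := by rw [ek, ev] at h3; exact_mod_cast h3
  have h4z : (c (N - 1) - c N) * kz ^ 2 < w * (c (N - 1) - 1) * vz := by
    rw [ek, ev] at h4; exact_mod_cast h4
  have hgz : gg c kz vz (1 + (Q : ℤ)) N = 0 := by
    have := map_gg (Int.castRingHom ℝ) c kz vz (1 + (Q : ℤ)) N
    simp only [Int.coe_castRingHom, map_add, map_one, map_natCast] at this
    rw [← ek, ← ev, hg] at this
    exact_mod_cast this
  obtain ⟨m, hm⟩ := dvd_of_gg c N b Q hc1 kz vz hkz hvz hgz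
  rw [← hD] at hm
  have hbz : (0 : ℤ) < b := by exact_mod_cast hb1
  have hQ0 : (0 : ℤ) ≤ Q := by positivity
  have hkc : kz - c 0 = (c 0 - c 1) * b := by rw [hkz]; ring
  -- `Q > 0`
  have hQpos : 0 < Q := by
    rcases Nat.eq_zero_or_pos Q with h0 | h0
    · exfalso
      have hv0 : vz = kz := by rw [hvz, h0]; simp
      rw [hv0] at h4z
      have hk9 : 9 ≤ kz := by
        have : 0 < (c 0 - c 1) * b := mul_pos hd0 hbz
        rw [hkz]; linarith
      have h5 : (c (N - 1) - c N) * kz < w * (c (N - 1) - 1) := by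
        by_contra hlt
        push Not at hlt
        have := mul_le_mul_of_nonneg_right hlt (by omega : 0 ≤ kz)
        nlinarith
      rw [hcN] at h5
      rcases hw with ⟨h, h'⟩ | ⟨h, h'⟩
      · rw [h] at h5; nlinarith
      · rw [h] at h5; nlinarith
    · exact h0
  have hQz : (0 : ℤ) < Q := by exact_mod_cast hQpos
  have hmpos : 0 < m := by
    have : 0 < (b : ℤ) * m := by rw [← hm]; exact mul_pos hQz hDpos
    exact (mul_pos_iff_of_pos_left hbz).1 this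
  -- `m` is bounded
  have hmM : m < D * (c 0 + (c 0 - c 1)) ^ 2 :=
    m_lt (by omega) hd0 hbz hQz hw0 hDpos hkz hvz h3z hm
  obtain ⟨m', rfl⟩ : ∃ m' : ℕ, m = ((m' + 1 : ℕ) : ℤ) := ⟨(m - 1).toNat, by omega⟩
  have hm' : m' ∈ range M := by
    rw [mem_range, hM]
    omega
  have hle : f m' ≤ (range M).sup f := le_sup (f := f) hm'
  exact hf m' b Q (by omega) hm k v hk hv h3 h4 hg

/-- **The only statement of Part II which is used in Part III.** -/
theorem arith_main (N : ℕ) (hN : 2 ≤ N) (c : ℕ → ℤ) (w : ℤ)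
    (hc : ∀ l, l < N → c (l + 1) < c l) (hcN : c N = w + 2) (hc1 : c (N + 1) = 2)
    (hw : (w = 1 ∧ 9 ≤ c (N - 1)) ∨ (w = 2 ∧ 16 ≤ c (N - 1))) :
    ∃ b0 : ℕ, ∀ b Q : ℕ, b0 ≤ b → ∀ k v : ℝ,
      k = (c 0 : ℝ) + ((c 0 : ℝ) - c 1) * b → v = k + (k - c 0) * Q →
      (w : ℝ) * v < k ^ 2 →
      ((c (N - 1) : ℝ) - c N) * k ^ 2 < w * ((c (N - 1) : ℝ) - 1) * v →
      (k - 2) * ((k - c N) / (v - c N)) * ee (fun i => (c i : ℝ)) k v N ≠ 1 := by
  obtain ⟨b0, h⟩ := gg_fin N hN c w hc hcN hc1 hw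
  refine ⟨b0 + 1, ?_⟩
  intro b Q hb k v hk hv h3 h4 he
  refine h b Q (by omega) k v hk hv h3 h4 ?_
  have hw0 : 0 < w := by rcases hw with ⟨h, -⟩ | ⟨h, -⟩ <;> omega
  have hd0 : (0 : ℝ) < (c 0 : ℝ) - c 1 := by
    have := hc 0 (by omega)
    have : (c 1 : ℝ) < c 0 := by exact_mod_cast this
    linarith
  have hbR : (0 : ℝ) < b := by exact_mod_cast (show 0 < b by omega)
  have hkc : 0 < k - c 0 := by
    have := mul_pos hd0 hbR
    rw [hk]; linarith
  have hQ0 : (0 : ℝ) ≤ Q := by positivity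
  have hvk : k ≤ v := by
    have := mul_nonneg hkc.le hQ0
    rw [hv]; linarith
  have hle0 : ∀ q, q ≤ N → (c q : ℝ) ≤ c 0 := by
    intro q hq
    rcases Nat.eq_zero_or_pos q with h0 | h0
    · rw [h0]
    · have := (anti_of hc (i := 0) (j := q) h0 hq).le
      exact_mod_cast this
  refine gg_of_eq (c := fun i => (c i : ℝ)) (Q := (Q : ℝ)) ?_ (by omega) ?_ ?_ ?_ ?_ he
  · show v - (c 0 : ℝ) = (k - c 0) * (1 + Q)
    rw [hv]; ring
  · exact hkc.ne'
  · intro q hq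
    have h2 : (2 : ℤ) < c q := by
      rcases Nat.eq_or_lt_of_le hq with h0 | h0
      · rw [h0, hcN]; omega
      · have := anti_of hc h0 le_rfl
        omega
    have : (2 : ℝ) < c q := by exact_mod_cast h2
    show (c q : ℝ) - 2 ≠ 0
    exact (sub_pos.2 this).ne'
  · intro q hq
    have := hle0 q hq
    show v - (c q : ℝ) ≠ 0
    have : 0 < v - (c q : ℝ) := by linarith
    exact this.ne'
  · show ((c (N + 1) : ℤ) : ℝ) = 2
    rw [hc1]; norm_num

end Pool.Agent.H92.KT
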