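import Mathlib
import Pool.Agent.H69.PmdBound

/-!
# the averaging identity for an arbitrary set `B` (copy of `Pool/Agent/H63/PD` without the fields `span`, `bad`)
-/


open Set

namespace Pool.Agent.H92.KT

open Pool.Agent.H69.Pmd

/-- The data. -/
structure PE (α : Type*) [Fintype α] where
  /-- the matroid -/
  M : Matroid α
  /-- the sizes -/
  σ : ℕ → ℕ
  /-- rank of the base flat -/
  τ : ℕ
  /-- rank of the matroid is `τ + m + 5` -/
  m : ℕ
  /-- the base flat -/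
  F₀ : Set α
  /-- the set -/
  B : Set α
  pmd : IsPmd M (τ + m + 5) σ
  flat0 : M.IsFlat F₀
  rk0 : M.eRk F₀ = (τ : ℕ∞)
  sub0 : F₀ ⊆ B
  one : σ (τ + 1) = σ τ + 1
  card : B.ncard = σ (τ + m + 4)

namespace PE

variable {α : Type*} [Fintype α] (C : PE α)

/-- relative sizes -/
noncomputable def a (i : ℕ) : ℝ := (C.σ (C.τ + i) : ℝ) - C.σ C.τ

/-- relative size of a hyperplane -/
noncomputable def k : ℝ := C.a (C.m + 4)

/-- relative number of points -/
noncomputable def v : ℝ := C.a (C.m + 5)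

/-- relative number of points of `B` in `F` -/
noncomputable def b (F : Set α) : ℝ := ((C.B ∩ F).ncard : ℝ) - C.σ C.τ

/-- `rho i` is the probability that a random hyperplane containing a flat of relative rank `i`
contains a given point outside it. -/
noncomputable def rho (i : ℕ) : ℝ := (C.k - C.a i) / (C.v - C.a i)

/-- flats of relative rank `i` -/
def IsF (i : ℕ) (F : Set α) : Prop :=
  C.M.IsFlat F ∧ C.M.eRk F = ((C.τ + i : ℕ) : ℕ∞) ∧ C.F₀ ⊆ F

/-- the flat spanned by `F` and `y` -/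
def jn (F : Set α) (y : α) : Set α := C.M.closure (insert y F)

/-- the points of `B` outside `F` -/
noncomputable def out (F : Set α) : Finset α := (Set.toFinite (C.B \ F)).toFinset

/-- average of `g (b H)` over the hyperplanes `H` containing `F` -/
noncomputable def E (F : Set α) (g : ℝ → ℝ) : ℝ :=
  (∑ H ∈ above C.M F (C.τ + C.m + 4), g (C.b H)) / ((above C.M F (C.τ + C.m + 4)).card : ℝ)

/-- number of flats of relative rank `i+1` between a flat of relative rank `i` and one of relative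
rank `i+2` -/
noncomputable def K (i : ℕ) : ℝ := (C.a (i + 2) - C.a i) / (C.a (i + 1) - C.a i)

/-- mean of `b H` over the hyperplanes `H` containing the flat `F` of relative rank `i` (`i ≤ m+3`) -/
noncomputable def mu (i : ℕ) (F : Set α) : ℝ := C.b F + (C.k - C.b F) * C.rho i

/-- mean of `b H` over all hyperplanes containing `F₀` -/
noncomputable def k0 : ℝ := C.k ^ 2 / C.v

/-- `k1 + 1` is the mean of `b H` over all hyperplanes containing `F₀` and a point of `B` -/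
noncomputable def k1 : ℝ := (C.k - 1) ^ 2 / (C.v - 1)

set_option linter.unusedSectionVars false


theorem ground : C.M.E = univ := C.pmd.ground

theorem a_zero : C.a 0 = 0 := by simp [a]

theorem a_one : C.a 1 = 1 := by
  have := C.one
  simp only [a]
  rw [this]; push_cast; ring

theorem a_lt {i j : ℕ} (hij : i < j) (hj : j ≤ C.m + 5) : C.a i < C.a j := by
  have h := C.pmd.lt (show C.τ + i < C.τ + j by omega) (by omega)
  have h' : (C.σ (C.τ + i) : ℝ) < C.σ (C.τ + j) := by exact_mod_cast h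
  simp only [a]; linarith

theorem a_le {i j : ℕ} (hij : i ≤ j) (hj : j ≤ C.m + 5) : C.a i ≤ C.a j := by
  rcases hij.eq_or_lt with rfl | h
  · exact le_rfl
  · exact (C.a_lt h hj).le

theorem a_nonneg {i : ℕ} (hi : i ≤ C.m + 5) : 0 ≤ C.a i := by
  rw [← C.a_zero]; exact C.a_le (Nat.zero_le i) hi

theorem a_pos {i : ℕ} (h1 : 1 ≤ i) (hi : i ≤ C.m + 5) : 1 ≤ C.a i := by
  rw [← C.a_one]; exact C.a_le h1 hi

/-- consecutive sizes differ by at least one -/
theorem a_succ_ge {i : ℕ} (hi : i + 1 ≤ C.m + 5) : C.a i + 1 ≤ C.a (i + 1) := by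
  have h := C.pmd.lt (show C.τ + i < C.τ + (i + 1) by omega) (by omega)
  have h' : (C.σ (C.τ + i) : ℝ) + 1 ≤ C.σ (C.τ + (i + 1)) := by exact_mod_cast h
  simp only [a]; linarith

theorem k_lt_v : C.k < C.v := C.a_lt (by omega) le_rfl

theorem k_pos : 1 ≤ C.k := C.a_pos (by omega) (by omega)

theorem v_pos : 1 ≤ C.v := C.a_pos (by omega) (by omega)


variable {C}

theorem isF_base : C.IsF 0 C.F₀ := ⟨C.flat0, by simpa using C.rk0, Subset.rfl⟩

theorem IsF.flat {i : ℕ} {F : Set α} (h : C.IsF i F) : C.M.IsFlat F := h.1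

theorem IsF.rank {i : ℕ} {F : Set α} (h : C.IsF i F) : C.M.eRk F = ((C.τ + i : ℕ) : ℕ∞) := h.2.1

theorem IsF.base {i : ℕ} {F : Set α} (h : C.IsF i F) : C.F₀ ⊆ F := h.2.2

theorem IsF.ncard {i : ℕ} {F : Set α} (h : C.IsF i F) : (F.ncard : ℝ) = C.a i + C.σ C.τ := by
  rw [C.pmd.size F _ h.1 h.2.1]; simp [a]

theorem isF_top : C.IsF (C.m + 5) (univ : Set α) :=
  ⟨C.ground ▸ C.M.ground_isFlat, by
    have := C.pmd.rank
    rw [this]; rfl, subset_univ _⟩

theorem subset_jn (F : Set α) (y : α) : insert y F ⊆ C.jn F y := subset_closure' C.ground _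

theorem mem_jn (F : Set α) (y : α) : y ∈ C.jn F y := subset_jn F y (mem_insert _ _)

theorem sub_jn (F : Set α) (y : α) : F ⊆ C.jn F y := (subset_insert _ _).trans (subset_jn F y)

theorem IsF.jn {i : ℕ} {F : Set α} (h : C.IsF i F) {y : α} (hy : y ∉ F) :
    C.IsF (i + 1) (C.jn F y) := by
  refine ⟨C.M.isFlat_closure _, ?_, h.base.trans (sub_jn F y)⟩
  rw [PE.jn, eRk_closure_insert C.ground h.1 hy, h.2.1]; push_cast; rfl

theorem jn_subset {i : ℕ} {F G : Set α} (hG : C.IsF i G) (hF : F ⊆ G) {y : α} (hy : y ∈ G) :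
    C.jn F y ⊆ G := closure_subset_flat hG.1 (insert_subset hy hF)

/-- a flat of relative rank `i+1` containing `F` and `y ∉ F` is the join -/
theorem IsF.eq_jn {i : ℕ} {F G : Set α} (hF : C.IsF i F) (hG : C.IsF (i + 1) G) (hFG : F ⊆ G)
    {y : α} (hyG : y ∈ G) (hy : y ∉ F) : C.jn F y = G := by
  apply eq_closure_insert C.ground hF.1 hG.1 hFG _ hyG hy
  rw [hG.2.1, hF.2.1]; push_cast; rfl

theorem IsF.eq_of_subset {i j : ℕ} {F G : Set α} (hF : C.IsF i F) (hG : C.IsF j G) (h : F ⊆ G)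
    (hij : j ≤ i) : F = G := by
  apply flat_eq_of_subset hF.1 hG.1 h
  rw [hF.2.1, hG.2.1]
  exact_mod_cast (by omega : C.τ + j ≤ C.τ + i)

theorem IsF.rank_le {i j : ℕ} {F G : Set α} (hF : C.IsF i F) (hG : C.IsF j G) (h : F ⊆ G) :
    i ≤ j := by
  have := C.M.eRk_mono h
  rw [hF.2.1, hG.2.1] at this
  have : C.τ + i ≤ C.τ + j := by exact_mod_cast this
  omega

/-- two flats of relative rank `i+1` containing `F` of relative rank `i` with a common point outside
`F` are equal -/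
theorem IsF.inter_eq {i : ℕ} {F G G' : Set α} (hF : C.IsF i F) (hG : C.IsF (i + 1) G)
    (hG' : C.IsF (i + 1) G') (hFG : F ⊆ G) (hFG' : F ⊆ G') (hne : G ≠ G') : G ∩ G' = F := by
  apply Subset.antisymm _ (subset_inter hFG hFG')
  rintro y ⟨h1, h2⟩
  by_contra hy
  exact hne ((hF.eq_jn hG hFG h1 hy).symm.trans (hF.eq_jn hG' hFG' h2 hy))

theorem IsF.exists_ge {i : ℕ} {F : Set α} (hF : C.IsF i F) {j : ℕ} (hij : i ≤ j)
    (hj : j ≤ C.m + 5) : ∃ G, C.IsF j G ∧ F ⊆ G := by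
  obtain ⟨G, hG, hFG, hGr⟩ := exists_flat_ge C.ground C.pmd.rank (j - i) hF.1 hF.2.1 (by omega)
  exact ⟨G, ⟨hG, by rw [hGr]; congr 1; omega, hF.base.trans hFG⟩, hFG⟩


theorem b_base : C.b C.F₀ = 0 := by
  have h1 : C.B ∩ C.F₀ = C.F₀ := inter_eq_right.2 C.sub0
  have h2 := (isF_base (C := C)).ncard
  rw [C.a_zero] at h2
  rw [b, h1, h2]; ring

theorem b_mono {F G : Set α} (h : F ⊆ G) : C.b F ≤ C.b G := by
  have := Set.ncard_le_ncard (inter_subset_inter_right C.B h) (Set.toFinite _)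
  have h' : ((C.B ∩ F).ncard : ℝ) ≤ (C.B ∩ G).ncard := by exact_mod_cast this
  simp only [b]; linarith

theorem b_nonneg {F : Set α} (h : C.F₀ ⊆ F) : 0 ≤ C.b F := by
  rw [← b_base (C := C)]; exact b_mono h

theorem IsF.b_nonneg {i : ℕ} {F : Set α} (h : C.IsF i F) : 0 ≤ C.b F := PE.b_nonneg h.base

theorem IsF.b_le {i : ℕ} {F : Set α} (h : C.IsF i F) : C.b F ≤ C.a i := by
  have h1 := Set.ncard_le_ncard (inter_subset_right (s := C.B) (t := F)) (Set.toFinite _)
  have h2 : ((C.B ∩ F).ncard : ℝ) ≤ F.ncard := by exact_mod_cast h1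
  rw [h.ncard] at h2
  simp only [b]; linarith

/-- if `F` is not contained in `B` then `b F ≤ a i - 1` -/
theorem IsF.b_le_sub {i : ℕ} {F : Set α} (h : C.IsF i F) (hF : ¬ F ⊆ C.B) :
    C.b F ≤ C.a i - 1 := by
  have h1 : (C.B ∩ F).ncard < F.ncard := by
    apply Set.ncard_lt_ncard _ (Set.toFinite _)
    exact ⟨inter_subset_right, fun h' => hF (h'.trans inter_subset_left)⟩
  have h2 : ((C.B ∩ F).ncard : ℝ) + 1 ≤ F.ncard := by exact_mod_cast h1
  rw [h.ncard] at h2
  simp only [b]; linarith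

theorem IsF.b_eq {i : ℕ} {F : Set α} (h : C.IsF i F) (hF : F ⊆ C.B) : C.b F = C.a i := by
  rw [b, inter_eq_right.2 hF, h.ncard]; ring

theorem IsF.subset_of_b_eq {i : ℕ} {F : Set α} (h : C.IsF i F) (hb : C.a i ≤ C.b F) : F ⊆ C.B := by
  by_contra hF
  have := h.b_le_sub hF
  linarith

/-- adding a point of `B` outside `F` increases `b` by at least one -/
theorem b_add_one_le {F G : Set α} (hFG : F ⊆ G) {y : α} (hyB : y ∈ C.B) (hyG : y ∈ G)
    (hy : y ∉ F) : C.b F + 1 ≤ C.b G := by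
  have h1 : (C.B ∩ F).ncard < (C.B ∩ G).ncard := by
    apply Set.ncard_lt_ncard _ (Set.toFinite _)
    exact ⟨inter_subset_inter_right _ hFG, fun h' => hy (h' ⟨hyB, hyG⟩).2⟩
  have h2 : ((C.B ∩ F).ncard : ℝ) + 1 ≤ (C.B ∩ G).ncard := by exact_mod_cast h1
  simp only [b]; linarith

/-- inclusion-exclusion -/
theorem b_union_le {F G G' J : Set α} (hG : G ⊆ J) (hG' : G' ⊆ J) (hF : G ∩ G' ⊆ F) :
    C.b G + C.b G' ≤ C.b J + C.b F := by
  have h2 := Set.ncard_union_add_ncard_inter (C.B ∩ G) (C.B ∩ G') (Set.toFinite _) (Set.toFinite _)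
  have h3 := Set.ncard_le_ncard (union_subset (inter_subset_inter_right C.B hG)
    (inter_subset_inter_right C.B hG')) (Set.toFinite _)
  have h4 : (C.B ∩ G) ∩ (C.B ∩ G') ⊆ C.B ∩ F := fun y hy => ⟨hy.1.1, hF ⟨hy.1.2, hy.2.2⟩⟩
  have h5 := Set.ncard_le_ncard h4 (Set.toFinite _)
  have h6 : ((C.B ∩ G).ncard : ℝ) + (C.B ∩ G').ncard ≤ (C.B ∩ J).ncard + (C.B ∩ F).ncard := by
    exact_mod_cast (by omega : (C.B ∩ G).ncard + (C.B ∩ G').ncard ≤
      (C.B ∩ J).ncard + (C.B ∩ F).ncard)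
  simp only [b]; linarith

theorem mem_out {F : Set α} {y : α} : y ∈ C.out F ↔ y ∈ C.B ∧ y ∉ F := by
  simp [out]

theorem card_out {F : Set α} : ((C.out F).card : ℝ) = C.k - C.b F := by
  have h1 : (C.out F).card = (C.B \ F).ncard := (Set.ncard_eq_toFinset_card _ _).symm
  have h2 := Set.ncard_inter_add_ncard_sdiff_eq_ncard C.B F (Set.toFinite _)
  have h3 : ((C.B ∩ F).ncard : ℝ) + (C.B \ F).ncard = C.σ (C.τ + C.m + 4) := by
    rw [← C.card]; exact_mod_cast h2
  rw [h1, k, a, b, show C.τ + (C.m + 4) = C.τ + C.m + 4 by omega]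
  linarith




theorem mem_above' {F H : Set α} (hF : C.F₀ ⊆ F) :
    H ∈ above C.M F (C.τ + C.m + 4) ↔ C.IsF (C.m + 4) H ∧ F ⊆ H := by
  rw [mem_above, IsF]
  constructor
  · rintro ⟨h1, h2, h3⟩
    exact ⟨⟨h1, h2, hF.trans h3⟩, h3⟩
  · rintro ⟨⟨h1, h2, _⟩, h3⟩
    exact ⟨h1, h2, h3⟩






theorem above_pos {i : ℕ} {F : Set α} (hF : C.IsF i F) (hi : i ≤ C.m + 4) :
    0 < ((above C.M F (C.τ + C.m + 4)).card : ℝ) := by
  obtain ⟨H, hH, hFH⟩ := hF.exists_ge hi (by omega)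
  have : (above C.M F (C.τ + C.m + 4)).Nonempty := ⟨H, (mem_above' hF.base).2 ⟨hH, hFH⟩⟩
  exact_mod_cast Finset.card_pos.2 this

theorem E_const {i : ℕ} {F : Set α} (hF : C.IsF i F) (hi : i ≤ C.m + 4) (c : ℝ) :
    C.E F (fun _ => c) = c := by
  rw [E, Finset.sum_const, nsmul_eq_mul, mul_comm, mul_div_assoc, div_self (above_pos hF hi).ne',
    mul_one]

theorem E_add (F : Set α) (g h : ℝ → ℝ) :
    C.E F (fun x => g x + h x) = C.E F g + C.E F h := by
  rw [E, E, E, Finset.sum_add_distrib, add_div]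

theorem E_sub (F : Set α) (g h : ℝ → ℝ) :
    C.E F (fun x => g x - h x) = C.E F g - C.E F h := by
  rw [E, E, E, Finset.sum_sub_distrib, sub_div]

theorem E_mul (F : Set α) (c : ℝ) (g : ℝ → ℝ) :
    C.E F (fun x => c * g x) = c * C.E F g := by
  rw [E, E, ← Finset.mul_sum, mul_div_assoc]

theorem E_mono {F : Set α} (hF : C.F₀ ⊆ F) {g h : ℝ → ℝ}
    (hgh : ∀ H, C.IsF (C.m + 4) H → F ⊆ H → g (C.b H) ≤ h (C.b H)) : C.E F g ≤ C.E F h := by
  rw [E, E]
  apply div_le_div_of_nonneg_right _ (Nat.cast_nonneg _)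
  apply Finset.sum_le_sum
  intro H hH
  obtain ⟨h1, h2⟩ := (mem_above' hF).1 hH
  exact hgh H h1 h2

theorem E_nonneg {F : Set α} (hF : C.F₀ ⊆ F) {g : ℝ → ℝ}
    (hg : ∀ H, C.IsF (C.m + 4) H → F ⊆ H → 0 ≤ g (C.b H)) : 0 ≤ C.E F g := by
  rw [E]
  apply div_nonneg _ (Nat.cast_nonneg _)
  apply Finset.sum_nonneg
  intro H hH
  obtain ⟨h1, h2⟩ := (mem_above' hF).1 hH
  exact hg H h1 h2

theorem E_congr {F : Set α} (hF : C.F₀ ⊆ F) {g h : ℝ → ℝ}
    (hgh : ∀ H, C.IsF (C.m + 4) H → F ⊆ H → g (C.b H) = h (C.b H)) : C.E F g = C.E F h := by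
  apply le_antisymm
  · exact E_mono hF fun H h1 h2 => (hgh H h1 h2).le
  · exact E_mono hF fun H h1 h2 => (hgh H h1 h2).ge

theorem card_above {i : ℕ} (hi : i ≤ C.m + 4) : ∃ P : ℕ, 0 < P ∧
    ∀ F, C.IsF i F → (above C.M F (C.τ + C.m + 4)).card = P := by
  obtain ⟨P, hP, h⟩ := C.pmd.exists_above (j := C.τ + C.m + 4) (by omega) (C.m + 4 - i) (C.τ + i)
    (by omega)
  exact ⟨P, hP, fun F hF => h F hF.1 hF.2.1⟩

theorem card_above_mul {i : ℕ} {P Q : ℕ} (hi : i ≤ C.m + 3)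
    (hP : ∀ F, C.IsF i F → (above C.M F (C.τ + C.m + 4)).card = P)
    (hQ : ∀ F, C.IsF (i + 1) F → (above C.M F (C.τ + C.m + 4)).card = Q) :
    (P : ℝ) * (C.k - C.a i) = (C.v - C.a i) * Q := by
  classical
  obtain ⟨F, hF, _⟩ := (isF_base (C := C)).exists_ge (Nat.zero_le i) (by omega)
  have e2 := sum_above (M := C.M) (F := F) (i := C.τ + i) (j := C.τ + C.m + 4) (P := Q)
    C.ground hF.1 hF.2.1 (by
      intro G hG hGr
      -- need: G contains F₀? use uniformity instead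
      obtain ⟨P', _, h⟩ := C.pmd.exists_above (j := C.τ + C.m + 4) (by omega)
        (C.m + 4 - (i + 1)) (C.τ + (i + 1)) (by omega)
      obtain ⟨G', hG', _⟩ := (isF_base (C := C)).exists_ge (Nat.zero_le (i + 1)) (by omega)
      rw [h G hG hGr, ← h G' hG'.1 hG'.2.1, hQ G' hG']) univ
  have e5 : ∀ H ∈ above C.M F (C.τ + C.m + 4),
      ((((univ : Set α) ∩ (H \ F)).ncard : ℕ) : ℝ) = C.k - C.a i := by
    intro H hH
    obtain ⟨h1, h2⟩ := (mem_above' hF.base).1 hH
    have := ncard_inter_diff (B := univ) h2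
    rw [univ_inter, univ_inter, univ_inter] at this
    have h3 : (((H \ F).ncard : ℕ) : ℝ) + F.ncard = H.ncard := by exact_mod_cast this
    rw [univ_inter]
    rw [h1.ncard, hF.ncard] at h3
    rw [k]; linarith
  have e6 : ((((univ : Set α) ∩ (univ \ F)).ncard : ℕ) : ℝ) = C.v - C.a i := by
    have := ncard_inter_diff (B := univ) (subset_univ F)
    rw [univ_inter, univ_inter, univ_inter] at this
    have h3 : (((univ \ F).ncard : ℕ) : ℝ) + F.ncard = (univ : Set α).ncard := by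
      exact_mod_cast this
    rw [univ_inter]
    rw [isF_top.ncard, hF.ncard] at h3
    rw [v]; linarith
  have e7 : (∑ H ∈ above C.M F (C.τ + C.m + 4), ((((univ : Set α) ∩ (H \ F)).ncard : ℕ) : ℝ)) =
      ((((univ : Set α) ∩ (univ \ F)).ncard : ℕ) : ℝ) * Q := by exact_mod_cast e2
  rw [Finset.sum_congr rfl e5, Finset.sum_const, nsmul_eq_mul, hP F hF, e6] at e7
  exact e7

/-- Double counting of pairs (point of `B` outside `F`, hyperplane containing both), weighted. -/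
theorem sum_swap {F : Set α} {i : ℕ} (hF : C.IsF i F) (w : Set α → ℝ) :
    ∑ H ∈ above C.M F (C.τ + C.m + 4), (C.b H - C.b F) * w H =
      ∑ y ∈ C.out F, ∑ H ∈ above C.M (C.jn F y) (C.τ + C.m + 4), w H := by
  classical
  have h1 : ∀ H ∈ above C.M F (C.τ + C.m + 4), (C.b H - C.b F) * w H =
      ∑ y ∈ C.out F, if y ∈ H then w H else 0 := by
    intro H hH
    obtain ⟨a1, a2⟩ := (mem_above' hF.base).1 hH
    rw [← Finset.sum_filter, Finset.sum_const, nsmul_eq_mul]
    congr 1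
    have h2 : (C.out F).filter (fun y => y ∈ H) = (C.B ∩ (H \ F)).toFinset := by
      ext y
      simp only [Finset.mem_filter, mem_out, Set.mem_toFinset, mem_inter_iff, mem_sdiff]
      tauto
    rw [h2, ← Set.ncard_eq_toFinset_card']
    have h3 := ncard_inter_diff (B := C.B) a2
    have h4 : (((C.B ∩ (H \ F)).ncard : ℕ) : ℝ) + (C.B ∩ F).ncard = (C.B ∩ H).ncard := by
      exact_mod_cast h3
    rw [b, b]; linarith
  rw [Finset.sum_congr rfl h1, Finset.sum_comm]
  apply Finset.sum_congr rfl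
  intro y hy
  obtain ⟨hyB, hyF⟩ := mem_out.1 hy
  rw [← Finset.sum_filter]
  apply Finset.sum_congr _ fun _ _ => rfl
  ext H
  simp only [Finset.mem_filter, mem_above]
  constructor
  · rintro ⟨⟨a1, a2, a3⟩, a4⟩
    exact ⟨a1, a2, closure_subset_flat a1 (insert_subset a4 a3)⟩
  · rintro ⟨a1, a2, a3⟩
    exact ⟨⟨a1, a2, (sub_jn F y).trans a3⟩, a3 (mem_jn F y)⟩

/-- The averaging identity. -/
theorem E_key {F : Set α} {i : ℕ} (hi : i ≤ C.m + 3) (hF : C.IsF i F) (g : ℝ → ℝ) :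
    C.E F (fun x => (x - C.b F) * g x) = C.rho i * ∑ y ∈ C.out F, C.E (C.jn F y) g := by
  obtain ⟨P, hP0, hP⟩ := card_above (C := C) (i := i) (by omega)
  obtain ⟨Q, hQ0, hQ⟩ := card_above (C := C) (i := i + 1) (by omega)
  have h1 := card_above_mul hi hP hQ
  have hva : 0 < C.v - C.a i := sub_pos.2 (C.a_lt (show i < C.m + 5 by omega) le_rfl)
  have hP0' : (0 : ℝ) < P := by exact_mod_cast hP0
  have hQ0' : (0 : ℝ) < Q := by exact_mod_cast hQ0
  have h2 : ∀ y ∈ C.out F, C.E (C.jn F y) g =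
      (∑ H ∈ above C.M (C.jn F y) (C.τ + C.m + 4), g (C.b H)) / Q := by
    intro y hy
    rw [E, hQ _ (hF.jn (mem_out.1 hy).2)]
  rw [Finset.sum_congr rfl h2, ← Finset.sum_div, ← sum_swap hF (fun H => g (C.b H)), E, hP F hF,
    rho]
  rw [div_eq_iff hP0'.ne', ← mul_div_assoc, div_mul_eq_mul_div, div_mul_eq_mul_div,
    div_mul_eq_mul_div, eq_div_iff hQ0'.ne', eq_comm, div_eq_iff hva.ne']
  linear_combination (∑ H ∈ above C.M F (C.τ + C.m + 4), (C.b H - C.b F) * g (C.b H)) * h1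

/-- The mean of `b H` over the hyperplanes `H` containing `F`. -/
theorem E_id {F : Set α} {i : ℕ} (hi : i ≤ C.m + 3) (hF : C.IsF i F) :
    C.E F (fun x => x) = C.b F + (C.k - C.b F) * C.rho i := by
  have h1 := E_key hi hF (fun _ => 1)
  have h2 : ∀ y ∈ C.out F, C.E (C.jn F y) (fun _ => (1 : ℝ)) = 1 := by
    intro y hy
    exact E_const (hF.jn (mem_out.1 hy).2) (by omega) 1
  rw [Finset.sum_congr rfl h2, Finset.sum_const, nsmul_eq_mul, mul_one, card_out] at h1
  have h3 : C.E F (fun x => (x - C.b F) * 1) = C.E F (fun x => x) - C.b F := by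
    simp only [mul_one]
    rw [E_sub F (fun x => x) (fun _ => C.b F), E_const hF (by omega)]
  rw [h3] at h1
  linarith

end PE

end Pool.Agent.H92.KT
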