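import Pool.Agent.H92.KT.Ce

/-!
# the recursion for a set all of whose traces are exact
-/

open Set

namespace Pool.Agent.H92.KT.PE

open Pool.Agent.H69.Pmd

variable {α : Type*} [Fintype α] {C : PE α}

/-- `evE C l` is `e_{m+4-l}` -/
noncomputable def evE (C : PE α) : ℕ → ℝ
  | 0 => (C.a (C.m + 3) - 2)⁻¹
  | l + 1 => (1 - (C.k - C.a (C.m + 2 - l)) * C.rho (C.m + 3 - l) * evE C l) /
      (C.a (C.m + 2 - l) - 2)

/-- exact traces of the flats spanned by points of `B` -/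
def ExT (C : PE α) : Prop := ∀ i, 3 ≤ i → i ≤ C.m + 4 → ∀ F, C.IsF i F →
  F ⊆ C.M.closure (C.B ∩ F) → C.b F = C.a (i - 1)

theorem spanned_jn {F : Set α} (h : F ⊆ C.M.closure (C.B ∩ F)) {y : α} (hy : y ∈ C.B) :
    C.jn F y ⊆ C.M.closure (C.B ∩ C.jn F y) := by
  have h1 : C.B ∩ F ⊆ C.B ∩ C.jn F y := inter_subset_inter_right _ (sub_jn F y)
  refine closure_subset_flat (C.M.isFlat_closure _) (insert_subset ?_ ?_)
  · exact subset_closure' C.ground _ ⟨hy, mem_jn F y⟩
  · exact h.trans (C.M.closure_subset_closure h1)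

theorem three_le_a (h3 : 3 ≤ C.a 2) {i : ℕ} (h2 : 2 ≤ i) (hi : i ≤ C.m + 5) : 3 ≤ C.a i :=
  h3.trans (C.a_le h2 hi)

theorem erecE (h3 : 3 ≤ C.a 2) (ex : ExT C) (l : ℕ) (hl : l ≤ C.m + 1) {F : Set α}
    (hF : C.IsF (C.m + 4 - l) F) (hs : F ⊆ C.M.closure (C.B ∩ F)) :
    C.E F (fun x => (x - 2)⁻¹) = evE C l := by
  induction l generalizing F with
  | zero =>
    rw [Nat.sub_zero] at hF
    have hb := ex (C.m + 4) (by omega) le_rfl F hF hs
    have h1 : C.E F (fun x => (x - 2)⁻¹) = C.E F (fun _ => (C.a (C.m + 3) - 2)⁻¹) := by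
      refine E_congr hF.base fun H hH hFH => ?_
      have : F = H := hF.eq_of_subset hH hFH le_rfl
      rw [← this, hb]
      rfl
    rw [h1, E_const hF le_rfl]
    rfl
  | succ l ih =>
    have hb := ex _ (by omega) (by omega) F hF hs
    have e1 : C.m + 4 - (l + 1) = C.m + 3 - l := by omega
    have e2 : C.m + 3 - l - 1 = C.m + 2 - l := by omega
    rw [e1] at hF hb
    rw [e2] at hb
    have ha := three_le_a h3 (i := C.m + 2 - l) (by omega) (by omega)
    have h1 := E_key (by omega) hF (fun x => (x - 2)⁻¹)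
    have h2 : ∀ y ∈ C.out F, C.E (C.jn F y) (fun x => (x - 2)⁻¹) = evE C l := by
      intro y hy
      refine ih (by omega) ?_ (spanned_jn hs (mem_out.1 hy).1)
      have h4 := hF.jn (mem_out.1 hy).2
      rwa [show C.m + 3 - l + 1 = C.m + 4 - l by omega] at h4
    rw [Finset.sum_congr rfl h2, Finset.sum_const, nsmul_eq_mul, card_out, hb] at h1
    have h5 : C.E F (fun x => (x - C.a (C.m + 2 - l)) * (x - 2)⁻¹) =
        C.E F (fun x => 1 - (C.a (C.m + 2 - l) - 2) * (x - 2)⁻¹) := by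
      refine E_congr hF.base fun H hH hFH => ?_
      have h6 : C.b F ≤ C.b H := b_mono hFH
      rw [hb] at h6
      have h7 : C.b H - 2 ≠ 0 := by linarith
      field_simp
      ring
    rw [h5, E_sub, E_const hF (by omega), E_mul] at h1
    rw [evE, eq_div_iff (by linarith)]
    linarith

/-- under the equation no hyperplane meets `B` in exactly the two points of `L` -/
theorem no_two (h3 : 3 ≤ C.a 2) (ex : ExT C) (he : (C.k - 2) * C.rho 2 * evE C (C.m + 1) = 1)
    {L : Set α} (hL : C.IsF 2 L) (hb : C.b L = 2) (hs : L ⊆ C.M.closure (C.B ∩ L)) {H : Set α}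
    (hH : C.IsF (C.m + 4) H) (hLH : L ⊆ H) : C.b H ≠ 2 := by
  have h1 := E_key (by omega) hL (fun x => (x - 2)⁻¹)
  have h2 : ∀ y ∈ C.out L, C.E (C.jn L y) (fun x => (x - 2)⁻¹) = evE C (C.m + 1) := by
    intro y hy
    refine erecE h3 ex (C.m + 1) le_rfl ?_ (spanned_jn hs (mem_out.1 hy).1)
    have h4 := hL.jn (mem_out.1 hy).2
    rwa [show 2 + 1 = C.m + 4 - (C.m + 1) by omega] at h4
  rw [Finset.sum_congr rfl h2, Finset.sum_const, nsmul_eq_mul, card_out, hb] at h1
  have h4 : C.E L (fun x => 1 - (x - 2) * (x - 2)⁻¹) = 0 := by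
    rw [E_sub, E_const hL (by omega)]
    linarith
  have hnn : ∀ x : ℝ, 0 ≤ 1 - (x - 2) * (x - 2)⁻¹ := by
    intro x
    by_cases hx : x - 2 = 0
    · rw [hx]; norm_num
    · rw [mul_inv_cancel₀ hx]; norm_num
  rw [E, div_eq_zero_iff] at h4
  rcases h4 with h4 | h4
  · rw [Finset.sum_eq_zero_iff_of_nonneg (fun _ _ => hnn _)] at h4
    have h5 := h4 H ((mem_above' hL.base).2 ⟨hH, hLH⟩)
    intro h6
    rw [h6] at h5
    norm_num at h5
  · exact absurd h4 (above_pos hL (by omega)).ne'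

end Pool.Agent.H92.KT.PE
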