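import Pool.Agent.H92.KT.Main

/-!
# the traces on `B` in the case `a 2 = 3`
-/

open Set

namespace Pool.Agent.H92.KT

open Pool.Agent.H63 Pool.Agent.H63.PD Pool.Agent.H69.Pmd Pool.Agent.H92.PX

variable {α : Type*} [Fintype α] {C : PD α}

/-- a spanned flat of relative rank `j + 1` is the join of a spanned flat and a point of `B` -/
theorem exists_pred {j : ℕ} {F : Set α} (hF : C.IsF (j + 1) F) (hs : F ⊆ C.M.closure (C.B ∩ F)) :
    ∃ E, C.IsF j E ∧ E ⊆ C.M.closure (C.B ∩ E) ∧ ∃ y ∈ C.out E, C.jn E y = F := by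
  classical
  have hE := C.ground
  obtain ⟨J₀, hJ₀⟩ := C.M.exists_isBasis C.F₀ (by rw [hE]; exact subset_univ _)
  have h0 : J₀ ⊆ C.B ∩ F := hJ₀.subset.trans (subset_inter C.sub0 hF.base)
  obtain ⟨J, hJ, hJ₀J⟩ := hJ₀.indep.subset_isBasis_of_subset h0 (by rw [hE]; exact subset_univ _)
  have hcl : C.M.closure J = F := by
    rw [hJ.closure_eq_closure]
    refine Subset.antisymm ?_ hs
    exact closure_subset_flat hF.1 inter_subset_right
  have hcJ : J.encard = ((C.τ + (j + 1) : ℕ) : ℕ∞) := by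
    rw [← hJ.indep.eRk_eq_encard, ← C.M.eRk_closure_eq, hcl, hF.2.1]
  have hcJ₀ : J₀.encard = ((C.τ : ℕ) : ℕ∞) := by
    rw [← hJ₀.indep.eRk_eq_encard, ← C.M.eRk_closure_eq, hJ₀.closure_eq_closure,
      C.M.eRk_closure_eq, C.rk0]
  obtain ⟨y, hyJ, hyJ₀⟩ : ∃ y ∈ J, y ∉ J₀ := by
    by_contra hcon
    push Not at hcon
    have : J.encard ≤ J₀.encard := Set.encard_le_encard hcon
    rw [hcJ, hcJ₀] at this
    have : C.τ + (j + 1) ≤ C.τ := by exact_mod_cast this
    omega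
  have hyB : y ∈ C.B ∩ F := hJ.subset hyJ
  have hsub : J₀ ⊆ J \ {y} := fun z hz => ⟨hJ₀J hz, fun h => hyJ₀ (h ▸ hz)⟩
  have hyE : y ∉ C.M.closure (J \ {y}) := hJ.indep.notMem_closure_sdiff_of_mem hyJ
  have hrk : C.M.eRk (C.M.closure (J \ {y})) = ((C.τ + j : ℕ) : ℕ∞) := by
    rw [C.M.eRk_closure_eq, (hJ.indep.subset sdiff_subset).eRk_eq_encard]
    have h1 := Set.encard_sdiff_singleton_add_one hyJ
    rw [hcJ] at h1
    have h2 : (J \ {y}).encard + 1 = ((C.τ + j : ℕ) : ℕ∞) + 1 := by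
      rw [h1]; push_cast; rfl
    exact ENat.add_left_injective_of_ne_top (n := 1) (by simp) h2
  have hF₀ : C.F₀ ⊆ C.M.closure (J \ {y}) := by
    have h1 := C.M.closure_subset_closure hsub
    rw [hJ₀.closure_eq_closure, C.flat0.closure] at h1
    exact h1
  have hJE : J \ {y} ⊆ C.M.closure (J \ {y}) := subset_closure' hE _
  refine ⟨C.M.closure (J \ {y}), ⟨C.M.isFlat_closure _, hrk, hF₀⟩, ?_, y, ?_, ?_⟩
  · refine C.M.closure_subset_closure (subset_inter ?_ hJE)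
    exact sdiff_subset.trans (hJ.subset.trans inter_subset_left)
  · exact mem_out.2 ⟨hyB.1, hyE⟩
  · refine IsF.eq_jn ⟨C.M.isFlat_closure _, hrk, hF₀⟩ hF ?_ hyB.2 hyE
    refine closure_subset_flat hF.1 (sdiff_subset.trans ?_)
    exact hJ.subset.trans inter_subset_right

/-- a spanned flat of relative rank 2 has at least two points of `B` -/
theorem two_le_b {L : Set α} (hL : C.IsF 2 L) (hs : L ⊆ C.M.closure (C.B ∩ L)) : 2 ≤ C.b L := by
  obtain ⟨P, hP, hPs, y, hy, h1⟩ := exists_pred hL hs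
  obtain ⟨Q, hQ, hQs, z, hz, h2⟩ := exists_pred hP hPs
  have h3 : C.b P + 1 ≤ C.b (C.jn P y) :=
    b_add_one_le (sub_jn P y) (mem_out.1 hy).1 (mem_jn P y) (mem_out.1 hy).2
  have h4 : C.b Q + 1 ≤ C.b (C.jn Q z) :=
    b_add_one_le (sub_jn Q z) (mem_out.1 hz).1 (mem_jn Q z) (mem_out.1 hz).2
  have h5 := hQ.b_nonneg
  rw [h1] at h3
  rw [h2] at h4
  linarith

theorem traces (W : Wd C) (h : C.a 2 = 3) {j : ℕ} (h2 : 2 ≤ j) (hj : j ≤ C.m + 4) {F : Set α}
    (hF : C.IsF j F) (hs : F ⊆ C.M.closure (C.B ∩ F)) :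
    C.b F = if j = 2 then 2 else C.a (j - 1) := by
  induction j, h2 using Nat.le_induction generalizing F with
  | base =>
    rw [if_pos rfl]
    have hb := two_le_b hF hs
    obtain ⟨y, hy⟩ := out_nonempty hF (by omega)
    have h3 : C.b F + 1 ≤ C.b (C.jn F y) :=
      b_add_one_le (sub_jn F y) (mem_out.1 hy).1 (mem_jn F y) (mem_out.1 hy).2
    have h4 := W.up 2 le_rfl (by omega) _ (hF.jn (mem_out.1 hy).2)
    rw [h] at h4
    linarith
  | succ j h2 ih =>
    obtain ⟨E, hE, hEs, y, hy, rfl⟩ := exists_pred hF hs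
    have h1 := ih (by omega) hE hEs
    rw [if_neg (by omega), Nat.add_sub_cancel]
    rcases h2.eq_or_lt with rfl | h3
    · rw [if_pos rfl] at h1
      have h4 : C.b E + 1 ≤ C.b (C.jn E y) :=
        b_add_one_le (sub_jn E y) (mem_out.1 hy).1 (mem_jn E y) (mem_out.1 hy).2
      have h5 := W.up 2 le_rfl (by omega) _ (hE.jn (mem_out.1 hy).2)
      rw [h] at h5 ⊢
      linarith
    · rw [if_neg (by omega)] at h1
      exact exs W (by omega) (by omega) hE h1 hy

end Pool.Agent.H92.KT
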