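import Pool.Agent.H92.KT.Ex
import Pool.Agent.H92.KT.Cf
import Pool.Agent.H92.KT.Cg

/-!
# Characterisation of the sets that could be added, in the case `s (t+1) = t + 2`
-/

open Set Matroid

namespace Pool.Agent.H92.KT.Ex

open Pool.Agent.H69.Pmd Pool.Agent.H63 Pool.Agent.H92.KT

/-- `i` for `i ≤ t + 1`, and `s (i - 1)` for `i ≥ t + 2` -/
def shifted (t : ℕ) (s : ℕ → ℕ) (i : ℕ) : ℕ := if i ≤ t + 1 then i else s (i - 1)

variable {n : ℕ} {M : Matroid (Fin n)} {s : ℕ → ℕ} {B : Set (Fin n)}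

theorem restrict_flat (hE : M.E = univ) {G : Set (Fin n)} :
    (M ↾ B).IsFlat G ↔ G ⊆ B ∧ M.closure G ∩ B = G := by
  rw [Matroid.isFlat_iff_closure_eq]
  constructor
  · intro h
    have h1 : G ⊆ B := by
      have := (M ↾ B).closure_subset_ground G
      rw [h] at this
      exact this
    rw [Matroid.restrict_closure_eq M h1 (by rw [hE]; exact subset_univ _)] at h
    exact ⟨h1, h⟩
  · rintro ⟨h1, h2⟩
    rw [Matroid.restrict_closure_eq M h1 (by rw [hE]; exact subset_univ _)]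
    exact h2

theorem isPmd_of {r : ℕ} (h : IsPMD M) (hr : M.eRk M.E = (r : ℕ∞)) (hs : HasSizes M s r) :
    IsPmd M r s := by
  refine ⟨h.1, by rw [← h.1]; exact hr, fun F i hF hFi => hs F i hF hFi ?_⟩
  have h1 := M.eRk_mono hF.subset_ground
  rw [hFi, hr] at h1
  exact_mod_cast h1

/-- a base flat in a given set -/
theorem exists_base {r τ : ℕ} (hσ : IsPmd M r s) (hτ : s τ = τ) {G : Set (Fin n)}
    (hG : (τ : ℕ∞) ≤ M.eRk G) : ∃ F₀, M.IsFlat F₀ ∧ M.eRk F₀ = (τ : ℕ∞) ∧ F₀ ⊆ G := by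
  obtain ⟨J, hJG, hJ, hJc⟩ := Matroid.le_eRk_iff.1 hG
  have hJr : M.eRk (M.closure J) = (τ : ℕ∞) := by
    rw [Matroid.eRk_closure_eq, hJ.eRk_eq_encard, hJc]
  have h1 := hσ.size (M.closure J) τ (M.isFlat_closure J) hJr
  rw [hτ] at h1
  have h2 : J.ncard = τ := by
    have := hJc
    rw [← (Set.toFinite J).cast_ncard_eq] at this
    exact_mod_cast this
  have h3 : J = M.closure J := Set.eq_of_subset_of_ncard_le (subset_closure' hσ.ground J)
    (by rw [h1, h2]) (Set.toFinite _)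
  exact ⟨M.closure J, M.isFlat_closure J, hJr, by rw [← h3]; exact hJG⟩

/-- the data for a set that could be added, with a given base flat -/
def mkC {τ m : ℕ} (hσ : IsPmd M (τ + m + 5) s) (hfree : ∀ i ≤ τ + 1, s i = i)
    (hB : B.ncard = s (τ + m + 4)) (hB' : ¬ IsHyperplane M B) (hcon : ¬ NotAddable M B)
    {F₀ : Set (Fin n)} (hF₀ : M.IsFlat F₀) (hF₀r : M.eRk F₀ = (τ : ℕ∞)) (hF₀B : F₀ ⊆ B) :
    PD (Fin n) where
  M := M
  σ := s
  τ := τ
  m := m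
  F₀ := F₀
  B := B
  pmd := hσ
  flat0 := hF₀
  rk0 := hF₀r
  sub0 := hF₀B
  one := by rw [hfree τ (by omega), hfree (τ + 1) le_rfl]
  card := hB
  span := by
    intro H hH hHr
    obtain ⟨H₀, hH₀, hH₀r⟩ := hσ.exists_flat (i := τ + m + 4) (by omega)
    exact not_subset_hyperplane (r := τ + m + 4) hσ (by rw [hσ.ground]; exact hσ.rank) hH₀ hH₀r
      (by rw [hB, hσ.size H₀ _ hH₀ hH₀r]) hB' hH hHr
  bad := bad_of_not (s := τ + m + 2) (by rw [hσ.ground]; exact hσ.rank) hσ hcon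

/-- the data for a set with shifted sizes -/
def mkE {τ m : ℕ} (hσ : IsPmd M (τ + m + 5) s) (hfree : ∀ i ≤ τ + 1, s i = i)
    (hB : B.ncard = s (τ + m + 4))
    {F₀ : Set (Fin n)} (hF₀ : M.IsFlat F₀) (hF₀r : M.eRk F₀ = (τ : ℕ∞)) (hF₀B : F₀ ⊆ B) :
    PE (Fin n) where
  M := M
  σ := s
  τ := τ
  m := m
  F₀ := F₀
  B := B
  pmd := hσ
  flat0 := hF₀
  rk0 := hF₀r
  sub0 := hF₀B
  one := by rw [hfree τ (by omega), hfree (τ + 1) le_rfl]
  card := hB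

theorem eqn_of_pd (C : PD (Fin n)) (hm : 1 ≤ C.m) (h4 : 3 ≤ C.a 2) (hz : C.σ C.τ = C.τ) :
    Equation (C.τ + C.m + 5) (C.τ + 1) C.σ := by
  obtain ⟨r, hr⟩ : ∃ r, r = C.τ + C.m + 5 := ⟨_, rfl⟩
  rw [← hr]
  have ha : ∀ i, C.a i = (C.σ (C.τ + i) : ℝ) - C.τ := by
    intro i
    rw [PD.a, hz]
  have hk : C.k = (C.σ (r - 1) : ℝ) - C.τ := by
    show C.a (C.m + 4) = _
    rw [ha, show C.τ + (C.m + 4) = r - 1 by omega]
  have hv : C.v = (C.σ r : ℝ) - C.τ := by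
    show C.a (C.m + 5) = _
    rw [ha, show C.τ + (C.m + 5) = r by omega]
  have W := (wd_all (C := C) hm h4).1
  refine ⟨fun i => ev C (r - 1 - i), ?_, ?_, ?_⟩
  · simp only [Nat.sub_self]
    have h6 := two_lt_a W (i := C.m + 3) (by omega) (by omega)
    have h7 : (C.σ (r - 2) : ℝ) - ((C.τ + 1 : ℕ) : ℝ) - 1 = C.a (C.m + 3) - 2 := by
      rw [ha, show C.τ + (C.m + 3) = r - 2 by omega]; push_cast; ring
    rw [h7]
    show (C.a (C.m + 3) - 2) * (C.a (C.m + 3) - 2)⁻¹ = 1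
    exact mul_inv_cancel₀ (by linarith)
  · intro i hi1 hi2
    obtain ⟨l, hl⟩ : ∃ l, l = r - 2 - i := ⟨_, rfl⟩
    have hl1 : r - 1 - i = l + 1 := by omega
    have hl2 : r - 1 - (i + 1) = l := by omega
    simp only [hl1, hl2]
    have h6 := two_lt_a W (i := C.m + 2 - l) (by omega) (by omega)
    have h7 : (C.σ (i - 1) : ℝ) - ((C.τ + 1 : ℕ) : ℝ) - 1 = C.a (C.m + 2 - l) - 2 := by
      rw [ha, show C.τ + (C.m + 2 - l) = i - 1 by omega]; push_cast; ring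
    have h8 : (C.σ (r - 1) : ℝ) - C.σ (i - 1) = C.k - C.a (C.m + 2 - l) := by
      rw [hk, ha, show C.τ + (C.m + 2 - l) = i - 1 by omega]; ring
    have h9 : ((C.σ (r - 1) : ℝ) - C.σ i) / ((C.σ r : ℝ) - C.σ i) = C.rho (C.m + 3 - l) := by
      rw [PD.rho, hk, hv, ha, show C.τ + (C.m + 3 - l) = i by omega]
      congr 1 <;> ring
    rw [h7, h8, mul_div_assoc, h9, ev]
    rw [mul_div_cancel₀]
    linarith
  · have h6 := main_eq (C := C) hm h4
    have h7 : (C.σ (r - 1) : ℝ) - ((C.τ + 1 : ℕ) : ℝ) - 1 = C.k - 2 := by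
      rw [hk]; push_cast; ring
    have h9 : ((C.σ (r - 1) : ℝ) - C.σ (C.τ + 1 + 1)) / ((C.σ r : ℝ) - C.σ (C.τ + 1 + 1)) =
        C.rho 2 := by
      rw [PD.rho, hk, hv, ha, show C.τ + 1 + 1 = C.τ + 2 by omega]
      congr 1 <;> ring
    rw [h7, mul_div_assoc, h9]
    have h10 : r - 1 - (C.τ + 1 + 2) = C.m + 1 := by omega
    simp only [h10]
    exact h6

/-- the equation determines `evE` -/
theorem eqn_pe (C : PE (Fin n)) (h4 : 3 ≤ C.a 2) (hz : C.σ C.τ = C.τ)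
    (he : Equation (C.τ + C.m + 5) (C.τ + 1) C.σ) :
    (C.k - 2) * C.rho 2 * PE.evE C (C.m + 1) = 1 := by
  obtain ⟨r, hr⟩ : ∃ r, r = C.τ + C.m + 5 := ⟨_, rfl⟩
  rw [← hr] at he
  have ha : ∀ i, C.a i = (C.σ (C.τ + i) : ℝ) - C.τ := by
    intro i
    rw [PE.a, hz]
  have hk : C.k = (C.σ (r - 1) : ℝ) - C.τ := by
    show C.a (C.m + 4) = _
    rw [ha, show C.τ + (C.m + 4) = r - 1 by omega]
  have hv : C.v = (C.σ r : ℝ) - C.τ := by
    show C.a (C.m + 5) = _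
    rw [ha, show C.τ + (C.m + 5) = r by omega]
  obtain ⟨e, e1, e2, e3⟩ := he
  have key : ∀ l, l ≤ C.m + 1 → e (r - 1 - l) = PE.evE C l := by
    intro l
    induction l with
    | zero =>
      intro _
      rw [Nat.sub_zero]
      have h7 : (C.σ (r - 2) : ℝ) - ((C.τ + 1 : ℕ) : ℝ) - 1 = C.a (C.m + 3) - 2 := by
        rw [ha, show C.τ + (C.m + 3) = r - 2 by omega]; push_cast; ring
      rw [h7] at e1
      show e (r - 1) = (C.a (C.m + 3) - 2)⁻¹
      exact eq_inv_of_mul_eq_one_right e1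
    | succ l ih =>
      intro hl
      have h1 := e2 (r - 1 - (l + 1)) (by omega) (by omega)
      have h6 := PE.three_le_a h4 (i := C.m + 2 - l) (by omega) (by omega)
      have hi : r - 1 - (l + 1) - 1 = C.τ + (C.m + 2 - l) := by omega
      have hi2 : r - 1 - (l + 1) = C.τ + (C.m + 3 - l) := by omega
      have hi3 : r - 1 - (l + 1) + 1 = r - 1 - l := by omega
      rw [hi3, ih (by omega), hi] at h1
      have h7 : (C.σ (C.τ + (C.m + 2 - l)) : ℝ) - ((C.τ + 1 : ℕ) : ℝ) - 1 =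
          C.a (C.m + 2 - l) - 2 := by
        rw [ha]; push_cast; ring
      have h8 : (C.σ (r - 1) : ℝ) - C.σ (C.τ + (C.m + 2 - l)) = C.k - C.a (C.m + 2 - l) := by
        rw [hk, ha]; ring
      have h9 : ((C.σ (r - 1) : ℝ) - C.σ (r - 1 - (l + 1))) /
          ((C.σ r : ℝ) - C.σ (r - 1 - (l + 1))) = C.rho (C.m + 3 - l) := by
        rw [PE.rho, hk, hv, ha, hi2]
        congr 1 <;> ring
      rw [h7, h8, mul_div_assoc, h9] at h1
      rw [PE.evE, eq_div_iff (by linarith), mul_comm]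
      exact h1
  have h7 : (C.σ (r - 1) : ℝ) - ((C.τ + 1 : ℕ) : ℝ) - 1 = C.k - 2 := by
    rw [hk]; push_cast; ring
  have h9 : ((C.σ (r - 1) : ℝ) - C.σ (C.τ + 1 + 1)) / ((C.σ r : ℝ) - C.σ (C.τ + 1 + 1)) =
      C.rho 2 := by
    rw [PE.rho, hk, hv, ha, show C.τ + 1 + 1 = C.τ + 2 by omega]
    congr 1 <;> ring
  rw [h7, mul_div_assoc, h9, show C.τ + 1 + 2 = r - 1 - (C.m + 1) by omega,
    key (C.m + 1) le_rfl] at e3
  exact e3

end Pool.Agent.H92.KT.Ex
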