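import Pool.Agent.H92.KT.Ch

/-!
# Characterisation of the sets that could be added: proof
-/

open Set Matroid

namespace Pool.Agent.H92.KT.Ex

open Pool.Agent.H69.Pmd Pool.Agent.H63 Pool.Agent.H92.KT

variable {n : ℕ} {M : Matroid (Fin n)} {s : ℕ → ℕ} {B : Set (Fin n)}

theorem nat_rank (M : Matroid (Fin n)) (G : Set (Fin n)) : ∃ j : ℕ, M.eRk G = (j : ℕ∞) := by
  obtain ⟨i, hi⟩ := ENat.ne_top_iff_exists.1 (eRk_lt_top M G).ne
  exact ⟨i, hi.symm⟩

/-- the necessary conditions -/
theorem forward {τ m : ℕ} (hσ : IsPmd M (τ + m + 5) s) (hfree : ∀ i ≤ τ + 1, s i = i)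
    (hne : τ + 3 ≤ s (τ + 2)) (hB : B.ncard = s (τ + m + 4)) (hB' : ¬ IsHyperplane M B)
    (hcon : ¬ NotAddable M B) :
    (s (τ + 2) = τ + 3 ∨ s (τ + 2) = τ + 4) ∧ Equation (τ + m + 5) (τ + 1) s ∧
      (s (τ + 2) = τ + 3 → HasSizes (M ↾ B) (shifted (τ + 1) s) (τ + m + 5)) := by
  have hE := hσ.ground
  have hτ : s τ = τ := hfree τ (by omega)
  have hne' : ((τ : ℝ) + 3) ≤ s (τ + 2) := by exact_mod_cast hne
  have hspan : ∀ H : Set (Fin n), M.IsFlat H → M.eRk H = ((τ + m + 4 : ℕ) : ℕ∞) → ¬ B ⊆ H := by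
    intro H hH hHr
    obtain ⟨H₀, hH₀, hH₀r⟩ := hσ.exists_flat (i := τ + m + 4) (by omega)
    exact not_subset_hyperplane (r := τ + m + 4) hσ (by rw [hσ.ground]; exact hσ.rank) hH₀ hH₀r
      (by rw [hB, hσ.size H₀ _ hH₀ hH₀r]) hB' hH hHr
  have hBr : M.eRk B = ((τ + m + 5 : ℕ) : ℕ∞) := by
    obtain ⟨b, hb⟩ := nat_rank M B
    have h1 : b ≤ τ + m + 5 := by
      have := M.eRk_mono (subset_univ B)
      rw [hb, hσ.rank] at this
      exact_mod_cast this
    have h2 : ¬ b ≤ τ + m + 4 := by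
      intro hb4
      obtain ⟨H, hH, hBH, hHr⟩ := exists_flat_ge hE hσ.rank (τ + m + 4 - b)
        (M.isFlat_closure B) (by rw [Matroid.eRk_closure_eq]; exact hb) (by omega)
      exact hspan H hH (by rw [hHr]; congr 1; omega) ((subset_closure' hE B).trans hBH)
    rw [hb]
    congr 1
    omega
  -- the data for a base flat
  have hdat : ∀ F₀ : Set (Fin n), ∀ (h1 : M.IsFlat F₀) (h2 : M.eRk F₀ = (τ : ℕ∞)) (h3 : F₀ ⊆ B),
      1 ≤ m ∧ 3 ≤ (mkC hσ hfree hB hB' hcon h1 h2 h3).a 2 := by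
    intro F₀ h1 h2 h3
    have h4 : 3 ≤ (mkC hσ hfree hB hB' hcon h1 h2 h3).a 2 := by
      show (3 : ℝ) ≤ (s (τ + 2) : ℝ) - s τ
      rw [hτ]; linarith
    refine ⟨?_, h4⟩
    by_contra hm
    exact Pool.Agent.H92.PY.zero_all (C := mkC hσ hfree hB hB' hcon h1 h2 h3)
      (show m = 0 by omega) h4
  obtain ⟨F₀, hF₀, hF₀r, hF₀B⟩ := exists_base (τ := τ) hσ hτ (G := B)
    (by rw [hBr]; exact_mod_cast (by omega : τ ≤ τ + m + 5))
  obtain ⟨hm, ha2⟩ := hdat F₀ hF₀ hF₀r hF₀B
  refine ⟨?_, ?_, ?_⟩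
  · have hw := (win_all (C := mkC hσ hfree hB hB' hcon hF₀ hF₀r hF₀B) ha2).1
    have e2 : (mkC hσ hfree hB hB' hcon hF₀ hF₀r hF₀B).a 2 = (s (τ + 2) : ℝ) - τ := by
      show (s (τ + 2) : ℝ) - s τ = _
      rw [hτ]
    rw [e2] at hw
    rcases hw with hw | hw
    · left
      have : (s (τ + 2) : ℝ) = ((τ + 3 : ℕ) : ℝ) := by push_cast; linarith
      exact_mod_cast this
    · right
      have : (s (τ + 2) : ℝ) = ((τ + 4 : ℕ) : ℝ) := by push_cast; linarith
      exact_mod_cast this
  · exact eqn_of_pd (mkC hσ hfree hB hB' hcon hF₀ hF₀r hF₀B) hm ha2 hτ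
  · intro hl G i hG hGr hi
    rw [restrict_flat hE] at hG
    obtain ⟨hGB, hGc⟩ := hG
    rw [Matroid.restrict_eRk_eq _ hGB] at hGr
    have hclr : M.eRk (M.closure G) = (i : ℕ∞) := by rw [M.eRk_closure_eq]; exact hGr
    have hGcl : G ⊆ M.closure G := subset_closure' hE G
    rw [shifted]
    rcases Nat.lt_or_ge i (τ + 2) with hi2 | hi2
    · rw [if_pos (by omega)]
      rcases Nat.lt_or_ge τ i with hi3 | hi3
      · -- `i = τ + 1`
        have hi4 : i = τ + 1 := by omega
        subst hi4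
        have h1 := hσ.size _ _ (M.isFlat_closure G) hclr
        rw [hfree _ le_rfl] at h1
        have h2 := Set.ncard_le_ncard hGcl (Set.toFinite _)
        have h3 := M.eRk_le_encard G
        rw [hGr, ← (Set.toFinite G).cast_ncard_eq] at h3
        have h4 : τ + 1 ≤ G.ncard := by exact_mod_cast h3
        omega
      · have h1 := hσ.size _ _ (M.isFlat_closure G) hclr
        rw [hfree _ (by omega)] at h1
        have h2 := Set.ncard_le_ncard hGcl (Set.toFinite _)
        have h3 := M.eRk_le_encard G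
        rw [hGr, ← (Set.toFinite G).cast_ncard_eq] at h3
        have h4 : i ≤ G.ncard := by exact_mod_cast h3
        omega
    · rcases hi.eq_or_lt with rfl | hi3
      · -- the whole set
        rw [if_neg (by omega)]
        have h1 : M.closure G = univ := by
          refine flat_eq_of_subset (M.isFlat_closure G) (hE ▸ M.ground_isFlat) (subset_univ _) ?_
          rw [hclr, hσ.rank]
        rw [h1, univ_inter] at hGc
        rw [← hGc, hB]
        rfl
      · obtain ⟨F₁, hF₁, hF₁r, hF₁G⟩ := exists_base (τ := τ) hσ hτ (G := G)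
          (by rw [hGr]; exact_mod_cast (by omega : τ ≤ i))
        have hF₁B := hF₁G.trans hGB
        obtain ⟨-, ha2'⟩ := hdat F₁ hF₁ hF₁r hF₁B
        obtain ⟨C, hC⟩ : ∃ C, C = mkC hσ hfree hB hB' hcon hF₁ hF₁r hF₁B := ⟨_, rfl⟩
        have e3 : C.a 2 = 3 := by
          rw [hC]
          show (s (τ + 2) : ℝ) - s τ = 3
          rw [hτ, hl]; push_cast; ring
        have W := (wd_all (C := C) (by rw [hC]; exact hm) e3.ge).1
        have hF : C.IsF (i - τ) (M.closure G) := by
          rw [hC]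
          refine ⟨M.isFlat_closure G, ?_, hF₁G.trans hGcl⟩
          show M.eRk (M.closure G) = ((τ + (i - τ) : ℕ) : ℕ∞)
          rw [hclr]; congr 1; omega
        have hs : M.closure G ⊆ C.M.closure (C.B ∩ M.closure G) := by
          rw [hC]
          exact M.closure_subset_closure (subset_inter hGB hGcl)
        have h5 := traces W e3 (show 2 ≤ i - τ by omega) (by rw [hC]; show i - τ ≤ m + 4; omega)
          hF hs
        have h6 : C.b (M.closure G) = (G.ncard : ℝ) - τ := by
          rw [hC]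
          show (((B ∩ M.closure G).ncard : ℕ) : ℝ) - s τ = _
          rw [hτ, inter_comm, hGc]
        rw [h6] at h5
        rcases hi2.eq_or_lt with hi4 | hi4
        · rw [if_pos (by omega)] at h5
          rw [if_pos (by omega)]
          have : (G.ncard : ℝ) = ((τ + 2 : ℕ) : ℝ) := by push_cast; linarith
          have h7 : G.ncard = τ + 2 := by exact_mod_cast this
          omega
        · rw [if_neg (by omega)] at h5
          rw [if_neg (by omega)]
          have h7 : C.a (i - τ - 1) = (s (i - 1) : ℝ) - τ := by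
            rw [hC]
            show (s (τ + (i - τ - 1)) : ℝ) - s τ = _
            rw [hτ, show τ + (i - τ - 1) = i - 1 by omega]
          rw [h7] at h5
          have : (G.ncard : ℝ) = ((s (i - 1) : ℕ) : ℝ) := by linarith
          exact_mod_cast this

/-- the sufficient conditions -/
theorem backward {τ m : ℕ} (hσ : IsPmd M (τ + m + 5) s) (hfree : ∀ i ≤ τ + 1, s i = i)
    (hl : s (τ + 2) = τ + 3) (hB : B.ncard = s (τ + m + 4))
    (hN : HasSizes (M ↾ B) (shifted (τ + 1) s) (τ + m + 5))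
    (he : Equation (τ + m + 5) (τ + 1) s) : ¬ IsHyperplane M B ∧ ¬ NotAddable M B := by
  have hE := hσ.ground
  have hτ : s τ = τ := hfree τ (by omega)
  have hr : M.eRk M.E = ((τ + m + 5 : ℕ) : ℕ∞) := by rw [hE]; exact hσ.rank
  -- sizes of the flats of the restriction
  have hN' : ∀ (F : Set (Fin n)) (j : ℕ), M.IsFlat F → M.eRk (B ∩ F) = (j : ℕ∞) →
      j ≤ τ + m + 5 → (B ∩ F).ncard = shifted (τ + 1) s j := by
    intro F j hF hj hjr
    apply hN _ j _ _ hjr
    · rw [restrict_flat hE]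
      refine ⟨inter_subset_left, Subset.antisymm ?_ ?_⟩
      · exact fun z hz => ⟨hz.2, closure_subset_flat hF inter_subset_right hz.1⟩
      · exact subset_inter (subset_closure' hE _) inter_subset_left
    · rw [Matroid.restrict_eRk_eq _ inter_subset_left]
      exact hj
  constructor
  · -- `B` is not a hyperplane
    intro hH
    obtain ⟨j, hj⟩ := nat_rank M B
    have h2 := hH.2
    rw [hj, hr] at h2
    have h3 : j + 1 = τ + m + 5 := by exact_mod_cast h2
    have h4 := hN' univ j (hE ▸ M.ground_isFlat) (by rw [inter_univ]; exact hj) (by omega)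
    rw [inter_univ, hB, shifted, if_neg (by omega)] at h4
    have h5 := hσ.lt (show j - 1 < τ + m + 4 by omega) (by omega)
    omega
  · rintro ⟨H, ⟨hH, hHr⟩, hno⟩
    obtain ⟨j, hj⟩ := nat_rank M (B ∩ H)
    have hHr' : M.eRk H = ((τ + m + 4 : ℕ) : ℕ∞) := by
      obtain ⟨i, hi⟩ := nat_rank M H
      rw [hi, hr] at hHr
      have : i + 1 = τ + m + 5 := by exact_mod_cast hHr
      rw [hi]; congr 1; omega
    have hjr : j ≤ τ + m + 4 := by
      have := M.eRk_mono (inter_subset_right : B ∩ H ⊆ H)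
      rw [hj, hHr'] at this
      exact_mod_cast this
    have hsz := hN' H j hH hj (by omega)
    have hno' : ∀ i, i ≤ τ + m + 3 → (B ∩ H).ncard ≠ s i := by
      intro i hi h1
      obtain ⟨F, hF, hFr⟩ := hσ.exists_flat (i := i) (by omega)
      refine hno F hF ?_ (h1.trans (hσ.size F i hF hFr).symm)
      rw [hFr, hr]
      exact_mod_cast (by omega : i + 2 ≤ τ + m + 5)
    rw [shifted] at hsz
    rcases Nat.lt_or_ge (τ + 2) j with hj2 | hj2
    · rw [if_neg (by omega)] at hsz
      exact hno' (j - 1) (by omega) hsz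
    · rw [if_pos (by omega)] at hsz
      rcases hj2.eq_or_lt with hj3 | hj3
      · -- the critical case
        subst hj3
        obtain ⟨F₀, hF₀, hF₀r, hF₀G⟩ := exists_base (τ := τ) hσ hτ (G := B ∩ H)
          (by rw [hj]; exact_mod_cast (by omega : τ ≤ τ + 2))
        have hF₀B := hF₀G.trans inter_subset_left
        obtain ⟨C, hC⟩ : ∃ C, C = mkE hσ hfree hB hF₀ hF₀r hF₀B := ⟨_, rfl⟩
        have e3 : C.a 2 = 3 := by
          rw [hC]
          show (s (τ + 2) : ℝ) - s τ = 3
          rw [hτ, hl]; push_cast; ring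
        have ex : PE.ExT C := by
          intro i h3 hi F hF hs
          rw [hC] at hF hs hi ⊢
          have hi' : i ≤ m + 4 := hi
          obtain ⟨h5, h6, h7⟩ := hF
          have h6' : M.eRk F = ((τ + i : ℕ) : ℕ∞) := h6
          have hs' : F ⊆ M.closure (B ∩ F) := hs
          have h8 : M.eRk (B ∩ F) = ((τ + i : ℕ) : ℕ∞) := by
            rw [← h6', ← M.eRk_closure_eq (B ∩ F)]
            congr 1
            exact Subset.antisymm (closure_subset_flat h5 inter_subset_right) hs'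
          have h9 := hN' F (τ + i) h5 h8 (by omega)
          rw [shifted, if_neg (by omega)] at h9
          show (((B ∩ F).ncard : ℕ) : ℝ) - s τ = (s (τ + (i - 1)) : ℝ) - s τ
          rw [h9, show τ + i - 1 = τ + (i - 1) by omega]
        have heq := eqn_pe C e3.ge (by rw [hC]; exact hτ) (by rw [hC]; exact he)
        have hGcl : B ∩ H ⊆ M.closure (B ∩ H) := subset_closure' hE _
        have hclH : M.closure (B ∩ H) ⊆ H := closure_subset_flat hH inter_subset_right
        have hBcl : B ∩ M.closure (B ∩ H) = B ∩ H :=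
          Subset.antisymm (inter_subset_inter_right _ hclH) (subset_inter inter_subset_left hGcl)
        have hL : C.IsF 2 (M.closure (B ∩ H)) := by
          rw [hC]
          exact ⟨M.isFlat_closure _, (M.eRk_closure_eq _).trans hj, hF₀G.trans hGcl⟩
        have hbL : C.b (M.closure (B ∩ H)) = 2 := by
          rw [hC]
          show (((B ∩ M.closure (B ∩ H)).ncard : ℕ) : ℝ) - s τ = 2
          rw [hBcl, hsz, hτ]; push_cast; ring
        have hs : M.closure (B ∩ H) ⊆ C.M.closure (C.B ∩ M.closure (B ∩ H)) := by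
          rw [hC]
          exact M.closure_subset_closure (subset_inter inter_subset_left hGcl)
        have hHF : C.IsF (C.m + 4) H := by
          rw [hC]
          exact ⟨hH, hHr', hF₀G.trans inter_subset_right⟩
        refine PE.no_two e3.ge ex heq hL hbL hs hHF hclH ?_
        rw [hC]
        show (((B ∩ H).ncard : ℕ) : ℝ) - s τ = 2
        rw [hsz, hτ]; push_cast; ring
      · exact hno' j (by omega) (by rw [hfree j (by omega)]; exact hsz)

theorem structure_of_exceptions (n : ℕ) (M : Matroid (Fin n)) (r t : ℕ) (s : ℕ → ℕ)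
    (h : IsPMD M) (hr : M.eRk M.E = (r : ℕ∞)) (hs : HasSizes M s r) (ht : 1 ≤ t)
    (htr : t + 4 ≤ r) (hfree : ∀ i ≤ t, s i = i) (hne : s (t + 1) ≠ t + 1) (B : Set (Fin n))
    (hB : B.ncard = s (r - 1)) :
    (¬ IsHyperplane M B ∧ ¬ NotAddable M B →
      (s (t + 1) = t + 2 ∨ s (t + 1) = t + 3) ∧ Equation r t s) ∧
    (s (t + 1) = t + 2 → (¬ IsHyperplane M B ∧ ¬ NotAddable M B ↔
      HasSizes (M ↾ B) (shifted t s) r ∧ Equation r t s)) := by
  have hσ := isPmd_of h hr hs
  obtain ⟨τ, rfl⟩ : ∃ τ, t = τ + 1 := ⟨t - 1, by omega⟩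
  obtain ⟨m, rfl⟩ : ∃ m, r = τ + m + 5 := ⟨r - τ - 5, by omega⟩
  have hlt := hσ.lt (show τ + 1 < τ + 2 by omega) (by omega)
  rw [hfree _ le_rfl] at hlt
  have e1 : τ + 1 + 1 = τ + 2 := rfl
  rw [e1] at hne ⊢
  have hne' : τ + 3 ≤ s (τ + 2) := by omega
  refine ⟨fun ⟨h1, h2⟩ => ?_, fun hl => ⟨fun ⟨h1, h2⟩ => ?_, fun ⟨h1, h2⟩ => ?_⟩⟩
  · obtain ⟨h3, h4, -⟩ := forward hσ hfree hne' hB h1 h2
    exact ⟨h3, h4⟩
  · obtain ⟨-, h4, h5⟩ := forward hσ hfree hne' hB h1 h2
    exact ⟨h5 hl, h4⟩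
  · exact backward hσ hfree hl hB h1 h2

end Pool.Agent.H92.KT.Ex
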