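import Pool.Agent.H92.PX.Asm
import Pool.Agent.H92.PX.Basx

/-!
# MP_f8e529_co, project KT (fixed T theorem): definitions

Paper proof: /team-store/H92_f8e529.md
-/

open Set

namespace Pool.Agent.H92.KT

open Pool.Agent.H63 Pool.Agent.H63.PD Pool.Agent.H69.Pmd Pool.Agent.H92.PX

variable {α : Type*} [Fintype α]

/-- the remaining window (I.1) -/
structure Wd (C : PD α) : Prop where
  m1 : 1 ≤ C.m
  l3 : C.a 2 = 3 ∨ C.a 2 = 4
  low : C.a 2 - 2 < C.k0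
  hi : C.k0 ≤ 5 / 2
  gap : C.a 2 + 6 ≤ C.a 3
  up : ∀ i, 2 ≤ i → i ≤ C.m + 3 → ∀ G, C.IsF (i + 1) G → C.b G ≤ C.a i

/-- the window for `a 2 = 4`, with numerical facts -/
structure Wd4 (C : PD α) : Prop extends Wd C where
  l4 : C.a 2 = 4
  a16 : C.a 3 = 16 ∨ 25 ≤ C.a 3
  win : (C.a 3 - 4) * C.k0 < 2 * (C.a 3 - 1)
  kbig : 1500 ≤ C.k

/-- a good line (I.4) -/
structure GdL (C : PD α) (L : Set α) : Prop where
  flat : C.IsF 2 L
  two : C.b L = 2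
  pl : ∀ y ∈ C.out L, C.b (C.jn L y) = C.a 2

/-- `ev C l` is `e_{m+4-l}` (I.3) -/
noncomputable def ev (C : PD α) : ℕ → ℝ
  | 0 => (C.a (C.m + 3) - 2)⁻¹
  | l + 1 => (1 - (C.k - C.a (C.m + 2 - l)) * C.rho (C.m + 3 - l) * ev C l) /
      (C.a (C.m + 2 - l) - 2)

end Pool.Agent.H92.KT
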