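import Pool.Agent.H92.KT.Exs

/-!
# I.3, I.4, I.5: the recursion and the equation of a good line, proved
-/

open Set

namespace Pool.Agent.H92.KT

open Pool.Agent.H63 Pool.Agent.H63.PD Pool.Agent.H69.Pmd Pool.Agent.H92.PX

variable {α : Type*} [Fintype α] {C : PD α}

theorem two_lt_a (W : Wd C) {i : ℕ} (h2 : 2 ≤ i) (hi : i ≤ C.m + 5) : 3 ≤ C.a i := by
  have h1 : C.a 2 ≤ C.a i := C.a_le h2 hi
  rcases W.l3 with h | h <;> rw [h] at h1 <;> linarith

theorem erec (W : Wd C) (l : ℕ) (hl : l ≤ C.m + 1) {F : Set α} (hF : C.IsF (C.m + 4 - l) F)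
    (hb : C.b F = C.a (C.m + 3 - l)) : C.E F (fun x => (x - 2)⁻¹) = ev C l := by
  induction l generalizing F with
  | zero =>
    rw [Nat.sub_zero] at hF hb
    have h1 : C.E F (fun x => (x - 2)⁻¹) = C.E F (fun _ => (C.a (C.m + 3) - 2)⁻¹) := by
      refine E_congr hF.base fun H hH hFH => ?_
      have : F = H := hF.eq_of_subset hH hFH le_rfl
      rw [← this, hb]
    rw [h1, E_const hF le_rfl]
    rfl
  | succ l ih =>
    have e1 : C.m + 4 - (l + 1) = C.m + 3 - l := by omega
    have e2 : C.m + 3 - (l + 1) = C.m + 2 - l := by omega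
    rw [e1] at hF
    rw [e2] at hb
    have ha := two_lt_a W (i := C.m + 2 - l) (by omega) (by omega)
    have h1 := E_key (by omega) hF (fun x => (x - 2)⁻¹)
    have h2 : ∀ y ∈ C.out F, C.E (C.jn F y) (fun x => (x - 2)⁻¹) = ev C l := by
      intro y hy
      have h3 := exs W (i := C.m + 3 - l) (by omega) (by omega) hF
        (by rw [hb]; congr 1; omega) hy
      refine ih (by omega) ?_ h3
      have h4 := hF.jn (mem_out.1 hy).2
      rwa [show C.m + 3 - l + 1 = C.m + 4 - l by omega] at h4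
    rw [Finset.sum_congr rfl h2, Finset.sum_const, nsmul_eq_mul, card_out, hb] at h1
    have h5 : C.E F (fun x => (x - C.a (C.m + 2 - l)) * (x - 2)⁻¹) =
        C.E F (fun x => 1 - (C.a (C.m + 2 - l) - 2) * (x - 2)⁻¹) := by
      refine E_congr hF.base fun H hH hFH => ?_
      have h6 : C.b F ≤ C.b H := b_mono hFH
      rw [hb] at h6
      have h7 : C.b H - 2 ≠ 0 := by linarith
      field_simp
      ring
    rw [h5, E_sub, E_const hF (by omega), E_mul] at h1
    rw [ev, eq_div_iff (by linarith)]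
    linarith

theorem eq_of_good (W : Wd C) {L : Set α} (g : GdL C L) :
    (C.k - 2) * C.rho 2 * ev C (C.m + 1) = 1 := by
  have h1 := E_key (by omega) g.flat (fun x => (x - 2)⁻¹)
  have h2 : ∀ y ∈ C.out L, C.E (C.jn L y) (fun x => (x - 2)⁻¹) = ev C (C.m + 1) := by
    intro y hy
    refine erec W (C.m + 1) le_rfl ?_ ?_
    · have h4 := g.flat.jn (mem_out.1 hy).2
      rwa [show 2 + 1 = C.m + 4 - (C.m + 1) by omega] at h4
    · rw [g.pl y hy]; congr 1; omega
  rw [Finset.sum_congr rfl h2, Finset.sum_const, nsmul_eq_mul, card_out, g.two] at h1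
  have h5 : C.E L (fun x => (x - 2) * (x - 2)⁻¹) = C.E L (fun _ => (1 : ℝ)) := by
    refine E_congr g.flat.base fun H hH hLH => ?_
    have h6 : C.b L ≤ C.b H := b_mono hLH
    rw [g.two] at h6
    have h7 := val_ge hH (t := 1) (by omega) (by rw [C.a_one]; linarith)
    have h8 := two_lt_a W (i := 2) le_rfl (by omega)
    have h9 : C.b H - 2 ≠ 0 := by
      have : C.a (1 + 1) = C.a 2 := rfl
      rw [this] at h7
      linarith
    exact mul_inv_cancel₀ h9
  rw [h5, E_const g.flat (by omega)] at h1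
  linarith

theorem good3 (W : Wd C) (h : C.a 2 = 3) : ∃ L, GdL C L := by
  obtain ⟨L, hL, h2⟩ := exists_line (C := C)
  have hpl : ∀ y ∈ C.out L, C.b L + 1 ≤ C.b (C.jn L y) ∧ C.b (C.jn L y) ≤ 3 := by
    intro y hy
    obtain ⟨hyB, hyL⟩ := mem_out.1 hy
    refine ⟨b_add_one_le (sub_jn L y) hyB (mem_jn L y) hyL, ?_⟩
    have := W.up 2 le_rfl (by omega) _ (hL.jn hyL)
    rwa [h] at this
  obtain ⟨y, hy⟩ := out_nonempty hL (by omega)
  have h3 := hpl y hy
  have hb2 : C.b L = 2 := by linarith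
  refine ⟨L, hL, hb2, fun z hz => ?_⟩
  have h4 := hpl z hz
  rw [h]
  linarith

end Pool.Agent.H92.KT
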