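import Pool.Agent.H92.KT.Exs
import Pool.Agent.H92.PY.Ba0

/-!
# I.6 - I.10: `a 2 = 4`: there is a good line, proved
-/

open Set

namespace Pool.Agent.H92.KT

open Pool.Agent.H63 Pool.Agent.H63.PD Pool.Agent.H69.Pmd Pool.Agent.H92.PX

variable {α : Type*} [Fintype α] {C : PD α}

theorem a3_ge (W : Wd4 C) : 16 ≤ C.a 3 := by
  rcases W.a16 with h | h
  · exact h.ge
  · linarith

theorem rho_small (W : Wd4 C) {i : ℕ} (hi : i ≤ C.m + 3) : C.rho i ≤ 1 / 100 := by
  have h1 := rho_anti (C := C) (Nat.zero_le i) hi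
  have h2 := rho_zero_mul (C := C)
  have h3 := W.hi
  have h4 := W.kbig
  have h5 := rho_pos (C := C) (i := 0) (by omega)
  have h6 : 1500 * C.rho 0 ≤ C.k * C.rho 0 := mul_le_mul_of_nonneg_right h4 h5.le
  linarith

theorem hv4 (W : Wd4 C) {H : Set α} (hH : C.IsF (C.m + 4) H) (h : 1 < C.b H) :
    C.b H = 4 ∨ C.a 3 ≤ C.b H := by
  have h1 : C.a 2 ≤ C.b H := val_ge hH (t := 1) (by omega) (by rw [C.a_one]; exact h)
  rw [W.l4] at h1
  rcases h1.eq_or_lt with h2 | h2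
  · exact Or.inl h2.symm
  · right
    exact val_ge hH (t := 2) (by omega) (by rw [W.l4]; exact h2)

theorem Y_le (W : Wd4 C) : (C.k - 4) * C.rho 3 ≤ C.k0 := by
  have h1 : C.rho 3 ≤ C.rho 0 := rho_anti (Nat.zero_le _) (by omega)
  have h2 := rho_pos (C := C) (i := 3) (by omega)
  have h3 := W.kbig
  rw [← rho_zero_mul]
  exact mul_le_mul (by linarith) h1 h2.le (by linarith)

theorem aa_big (W : Wd4 C) : 199 / 100 ≤ (C.k - 2) * C.rho 2 := by
  have h1 := aa_ge (C := C)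
  rw [W.l4] at h1
  have h2 := W.low
  rw [W.l4] at h2
  have h3 := W.kbig
  have h4 : (4 + 2) / C.k ≤ 1 / 250 := by
    rw [div_le_div_iff₀ (by linarith) (by norm_num)]
    linarith
  have h5 : 2 * (1 - 1 / 250) ≤ C.k0 * (1 - (4 + 2) / C.k) :=
    mul_le_mul (by linarith) (by linarith) (by norm_num) (by linarith)
  linarith

/-- I.6 -/
theorem line4 (W : Wd4 C) {L : Set α} (hL : C.IsF 2 L) : C.b L ≤ 2 := by
  by_contra hcon
  rw [not_le] at hcon
  have hb3 : (3 : ℝ) ≤ C.b L := by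
    obtain ⟨n, hn'⟩ := b_nat hL
    rw [hn'] at hcon ⊢
    have h1 : 2 < n := by exact_mod_cast hcon
    have h2 : 3 ≤ n := h1
    exact_mod_cast h2
  have hpl : ∀ z ∈ C.out L, C.b L + 1 ≤ C.b (C.jn L z) ∧ C.b (C.jn L z) ≤ 4 := by
    intro z hz
    obtain ⟨hzB, hzn⟩ := mem_out.1 hz
    refine ⟨b_add_one_le (C := C) (sub_jn (C := C) L z) hzB (mem_jn (C := C) L z) hzn, ?_⟩
    rw [← W.l4]
    exact W.up 2 le_rfl (by omega) _ (hL.jn hzn)
  obtain ⟨z₀, hz₀⟩ := out_nonempty (C := C) hL (by omega)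
  have hbL : C.b L = 3 := le_antisymm (by linarith [hpl z₀ hz₀]) hb3
  have ha3 := a3_ge W
  have h1 := PY.line_mom (C := C) hL 4
  have h2 : C.E L (fun x => (C.a 3 - 3) * (x - 4)) ≤
      C.E L (fun x => (x - C.b L) * (x - 4)) := by
    refine E_mono hL.base fun H hH hLH => ?_
    have h3 := b_mono (C := C) hLH
    rcases hv4 W hH (by linarith) with h4 | h4
    · simp only [h4]; norm_num
    · simp only [hbL]
      exact mul_le_mul_of_nonneg_right (by linarith) (by linarith)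
  have h3 : ∀ z ∈ C.out L, (C.b (C.jn L z) - 4 + (C.k - C.b (C.jn L z)) * C.rho 3) =
      (C.k - 4) * C.rho 3 := by
    intro z hz
    have h4 := hpl z hz
    have h5 : C.b (C.jn L z) = 4 := by linarith
    rw [h5]; ring
  rw [h1, Finset.sum_congr rfl h3, Finset.sum_const, nsmul_eq_mul, card_out, hbL, E_mul,
    PY.line_mean hL, hbL] at h2
  have h4 := Y_le W
  have h5 := W.hi
  have h6 := aa_big W
  have h7 := rho_small W (i := 2) (by omega)
  obtain ⟨X, hX⟩ : ∃ X, X = (C.k - 3) * C.rho 2 := ⟨_, rfl⟩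
  obtain ⟨Y, hY⟩ : ∃ Y, Y = (C.k - 4) * C.rho 3 := ⟨_, rfl⟩
  have e1 : C.rho 2 * ((C.k - 3) * ((C.k - 4) * C.rho 3)) = X * Y := by rw [hX, hY]; ring
  rw [e1, ← hX] at h2
  rw [← hY] at h4
  have h8 : 5 / 4 ≤ X := by rw [hX]; linarith
  have h9 : X * Y ≤ X * (5 / 2) := mul_le_mul_of_nonneg_left (by linarith) (by linarith)
  have h10 : 13 * (3 - 4 + X) ≤ (C.a 3 - 3) * (3 - 4 + X) :=
    mul_le_mul_of_nonneg_right (by linarith) (by linarith)
  linarith

theorem plane4 (W : Wd4 C) {L : Set α} (hL : C.IsF 2 L) (hbL : C.b L = 2) {z : α}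
    (hz : z ∈ C.out L) : C.b (C.jn L z) = 3 ∨ C.b (C.jn L z) = 4 := by
  obtain ⟨hzB, hzL⟩ := mem_out.1 hz
  have hP : C.IsF 3 (C.jn L z) := hL.jn hzL
  have e1 := W.up 2 le_rfl (by omega) _ hP
  rw [W.l4] at e1
  have e2 := b_add_one_le (C := C) (sub_jn (C := C) L z) hzB (mem_jn (C := C) _ z) hzL
  rw [hbL] at e2
  obtain ⟨n, hn'⟩ := b_nat hP
  rw [hn'] at e1 e2 ⊢
  have e3 : n ≤ 4 := by exact_mod_cast e1
  have e4 : 3 ≤ n := by
    have : ((3 : ℕ) : ℝ) ≤ n := by push_cast; linarith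
    exact_mod_cast this
  have e5 : n = 3 ∨ n = 4 := by omega
  rcases e5 with rfl | rfl
  · left; norm_num
  · right; norm_num

open Classical in
/-- the number of planes with three points of `B` through a line with two points -/
noncomputable def nn (C : PD α) (L : Set α) : ℕ :=
  ((C.out L).filter (fun z => C.b (C.jn L z) = 3)).card

/-- I.7 -/
theorem mom4 (W : Wd4 C) {L : Set α} (hL : C.IsF 2 L) (hbL : C.b L = 2) :
    C.E L (fun x => (x - 2) * (x - 4)) =
      (C.k - 2) * C.rho 2 * ((C.k - 4) * C.rho 3) - (nn C L : ℝ) * C.rho 2 * (1 - C.rho 3) := by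
  classical
  have h1 := PY.line_mom (C := C) hL 4
  have h3 : ∀ z ∈ C.out L, (C.b (C.jn L z) - 4 + (C.k - C.b (C.jn L z)) * C.rho 3) =
      (C.k - 4) * C.rho 3 + (if C.b (C.jn L z) = 3 then (C.rho 3 - 1) else 0) := by
    intro z hz
    rcases plane4 W hL hbL hz with h | h
    · rw [h, if_pos rfl]; ring
    · rw [h, if_neg (by norm_num)]; ring
  rw [Finset.sum_congr rfl h3, Finset.sum_add_distrib, Finset.sum_const, nsmul_eq_mul, card_out,
    hbL, ← Finset.sum_filter, Finset.sum_const, nsmul_eq_mul] at h1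
  rw [h1, nn]
  ring

/-- I.8 -/
theorem nn_ge (W : Wd4 C) {L : Set α} (hL : C.IsF 2 L) (hbL : C.b L = 2) {y : α}
    (hy : y ∈ C.out L) (h3 : C.b (C.jn L y) = 3) : 7 / 8 ≤ (nn C L : ℝ) * C.rho 3 := by
  classical
  obtain ⟨hyB, hyL⟩ := mem_out.1 hy
  have hP : C.IsF 3 (C.jn L y) := hL.jn hyL
  have hm := W.m1
  set P := C.jn L y with hPdef
  set g : ℝ → ℝ := fun x => if x = 4 then 1 else 0 with hg
  have ha3 := a3_ge W
  have hval : ∀ H, C.IsF (C.m + 4) H → P ⊆ H → C.b H = 4 ∨ C.a 3 ≤ C.b H := by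
    intro H hH hPH
    have := b_mono (C := C) hPH
    exact hv4 W hH (by linarith)
  -- lower bound
  have h1 : C.E P (fun x => (C.a 3 - 3) - (C.a 3 - 4) * g x) ≤ C.E P (fun x => x - 3) := by
    refine E_mono hP.base fun H hH hPH => ?_
    rcases hval H hH hPH with h | h
    · simp only [hg, h, if_true]; linarith
    · have : C.b H ≠ 4 := by intro h'; linarith
      simp only [hg, this, if_false]; linarith
  rw [E_sub, E_const hP (by omega), E_mul, E_sub, E_const hP (by omega), E_id (by omega) hP,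
    h3] at h1
  have h2 := kap_le (by omega) hP
  rw [h3] at h2
  have h4 := W.hi
  -- upper bound
  have h5 := E_key (by omega) hP g
  have h6 : C.E P (fun x => (x - C.b P) * g x) = C.E P g := by
    refine E_congr hP.base fun H hH hPH => ?_
    rcases hval H hH hPH with h | h
    · simp only [hg, h, h3, if_true]; norm_num
    · have : C.b H ≠ 4 := by intro h'; linarith
      simp only [hg, this, if_false]; norm_num
  have h7 : ∀ z ∈ C.out P, C.E (C.jn P z) g ≤ (if C.b (C.jn L z) = 3 then (1 : ℝ) else 0) := by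
    intro z hz
    obtain ⟨hzB, hzP⟩ := mem_out.1 hz
    have hzL : z ∉ L := fun h => hzP (sub_jn L y h)
    have hQ := hP.jn hzP
    by_cases h : C.b (C.jn L z) = 3
    · rw [if_pos h, ← E_const hQ (by omega) (1 : ℝ)]
      refine E_mono hQ.base fun H hH _ => ?_
      simp only [hg]
      split_ifs <;> norm_num
    · rw [if_neg h, ← E_const hQ (by omega) (0 : ℝ)]
      refine E_mono hQ.base fun H hH hQH => ?_
      have h8 : C.b (C.jn L z) = 4 := (plane4 W hL hbL (mem_out.2 ⟨hzB, hzL⟩)).resolve_left h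
      have hPH : P ⊆ H := (sub_jn P z).trans hQH
      have hzH : z ∈ H := hQH (mem_jn P z)
      have hLH : L ⊆ H := (sub_jn L y).trans hPH
      have hJH : C.jn L z ⊆ H := jn_subset hH hLH hzH
      have hne : P ≠ C.jn L z := by
        intro he
        exact hzP (by rw [he]; exact mem_jn L z)
      have hint : P ∩ C.jn L z = L :=
        hL.inter_eq hP (hL.jn hzL) (sub_jn L y) (sub_jn L z) hne
      have hb1 := b_union_le (C := C) hPH hJH hint.subset
      have : C.b H ≠ 4 := by intro h'; linarith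
      simp only [hg, this, if_false]
      exact le_rfl
  have h8 : ∑ z ∈ C.out P, C.E (C.jn P z) g ≤ (nn C L : ℝ) := by
    refine (Finset.sum_le_sum h7).trans ?_
    rw [← Finset.sum_filter, Finset.sum_const, nsmul_eq_mul, mul_one, nn]
    have : (C.out P).filter (fun z => C.b (C.jn L z) = 3) ⊆
        (C.out L).filter (fun z => C.b (C.jn L z) = 3) := by
      intro z hz
      rw [Finset.mem_filter, mem_out] at hz ⊢
      exact ⟨⟨hz.1.1, fun h => hz.1.2 (sub_jn L y h)⟩, hz.2⟩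
    exact_mod_cast Finset.card_le_card this
  have h9 := rho_pos (C := C) (i := 3) (by omega)
  have h10 : C.E P g ≤ (nn C L : ℝ) * C.rho 3 := by
    rw [← h6, h5, mul_comm]
    exact mul_le_mul_of_nonneg_right h8 h9.le
  -- (a3 - 4) E ≥ a3 - 3 - 5/2
  have h11 : (C.a 3 - 4) * (7 / 8) ≤ (C.a 3 - 4) * C.E P g := by linarith
  have h12 := le_of_mul_le_mul_left h11 (by linarith)
  linarith

/-- I.9: the excess of the mean on a line with two points of `B` -/
noncomputable def dd (C : PD α) : ℝ := (C.k - 2) * C.rho 2 - 2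

theorem dd_nonneg (W : Wd4 C) {L : Set α} (hL : C.IsF 2 L) (hbL : C.b L = 2) : 0 ≤ dd C := by
  have h3 : (4 : ℝ) ≤ C.mu 2 L := by
    refine le_mu (by omega) hL ?_
    intro H hH hLH
    have h4 : 2 ≤ C.b H := hbL ▸ b_mono hLH
    have := a3_ge W
    rcases hv4 W hH (by linarith) with h5 | h5 <;> linarith
  rw [PD.mu, hbL] at h3
  rw [dd]; linarith

theorem dd_le_k0 : dd C ≤ C.k0 - 2 := by
  have := aa_lt (C := C)
  rw [dd]; linarith

theorem k0_le_dd (W : Wd4 C) : C.k0 ≤ 2 + dd C + 1 / 100 := by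
  have h1 := aa_ge (C := C)
  rw [W.l4] at h1
  have h3 := W.kbig
  have h4 : (4 + 2) / C.k ≤ 1 / 250 := by
    rw [div_le_div_iff₀ (by linarith) (by norm_num)]
    linarith
  have h5 := W.hi
  have h6 := k0_pos (C := C)
  have h7 : C.k0 * ((4 + 2) / C.k) ≤ 5 / 2 * (1 / 250) :=
    mul_le_mul h5 h4 (by positivity) (by norm_num)
  rw [dd]
  linarith

/-- I.9 -/
theorem dd_le (W : Wd4 C) {L : Set α} (hL : C.IsF 2 L) (hbL : C.b L = 2)
    (hn : 7 / 8 ≤ (nn C L : ℝ) * C.rho 3) : dd C ≤ 7 / 20 := by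
  have h0 := dd_nonneg W hL hbL
  have hd := dd_le_k0 (C := C)
  rcases W.a16 with h | h
  · have hwin := W.hi
    have h1 : C.E L (fun x => 14 * (x - 4)) ≤ C.E L (fun x => (x - 2) * (x - 4)) := by
      refine E_mono hL.base fun H hH hLH => ?_
      have h3 : C.b L ≤ C.b H := b_mono (C := C) hLH
      rw [hbL] at h3
      rcases hv4 W hH (by linarith) with h4 | h4
      · simp only [h4]; norm_num
      · exact mul_le_mul_of_nonneg_right (by linarith) (by linarith)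
    rw [mom4 W hL hbL, E_mul, PY.line_mean hL, hbL] at h1
    have h2 := Y_le W
    have h3 := k0_le_dd W
    have h4 := rho_small W (i := 3) (by omega)
    have h5 : C.rho 3 ≤ C.rho 2 := rho_anti (by omega) (by omega)
    have h6 : (nn C L : ℝ) * C.rho 3 ≤ (nn C L : ℝ) * C.rho 2 :=
      mul_le_mul_of_nonneg_left h5 (Nat.cast_nonneg _)
    have h7 : 7 / 8 * (99 / 100) ≤ (nn C L : ℝ) * C.rho 2 * (1 - C.rho 3) :=
      mul_le_mul (by linarith) (by linarith) (by norm_num) (by linarith)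
    have h8 : (C.k - 2) * C.rho 2 = 2 + dd C := by rw [dd]; ring
    rw [h8] at h1
    have h9 : (2 + dd C) * ((C.k - 4) * C.rho 3) ≤ (2 + dd C) * (2 + dd C + 1 / 100) :=
      mul_le_mul_of_nonneg_left (by linarith) (by linarith)
    have h10 : dd C * dd C ≤ 1 / 2 * dd C := mul_le_mul_of_nonneg_right (by linarith) h0
    nlinarith
  · have h1 := W.win
    -- 21 (k0 - 2) ≤ (a3 - 4)(k0 - 2) < 6
    have h2 : 21 * (C.k0 - 2) ≤ (C.a 3 - 4) * (C.k0 - 2) :=
      mul_le_mul_of_nonneg_right (by linarith) (by linarith)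
    linarith

theorem Y_le_k1 (W : Wd4 C) : (C.k - 4) * C.rho 3 ≤ C.k1 := by
  have h1 : C.rho 3 ≤ C.rho 1 := rho_anti (by omega) (by omega)
  have h2 := rho_pos (C := C) (i := 3) (by omega)
  have h3 := W.kbig
  rw [← rho_one_mul]
  exact mul_le_mul (by linarith) h1 h2.le (by linarith)

/-- I.10, the second moment on a line -/
theorem sq4 (W : Wd4 C) {L : Set α} (hL : C.IsF 2 L) (hbL : C.b L = 2)
    (hn : 7 / 8 ≤ (nn C L : ℝ) * C.rho 3) : C.E L (fun x => x * (x - 4)) ≤ C.k0 * C.k1 := by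
  have h1 : C.E L (fun x => x * (x - 4)) = C.E L (fun x => (x - 2) * (x - 4) + 2 * (x - 4)) :=
    E_congr hL.base fun H _ _ => by ring
  rw [h1, E_add, mom4 W hL hbL, E_mul, PY.line_mean hL, hbL]
  have h2 := Y_le_k1 W
  have h3 := aa_lt (C := C)
  have h4 := rho_small W (i := 3) (by omega)
  have h5 : C.rho 3 ≤ C.rho 2 := rho_anti (by omega) (by omega)
  have h6 : (nn C L : ℝ) * C.rho 3 ≤ (nn C L : ℝ) * C.rho 2 :=
    mul_le_mul_of_nonneg_left h5 (Nat.cast_nonneg _)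
  have h7 : 7 / 8 * (99 / 100) ≤ (nn C L : ℝ) * C.rho 2 * (1 - C.rho 3) :=
    mul_le_mul (by linarith) (by linarith) (by norm_num) (by linarith)
  have h8 := dd_le W hL hbL hn
  have h9 : (C.k - 2) * C.rho 2 * ((C.k - 4) * C.rho 3) ≤ C.k0 * C.k1 := by
    have h10 := rho_pos (C := C) (i := 3) (by omega)
    have h11 := W.kbig
    exact mul_le_mul h3.le h2 (mul_nonneg (by linarith) h10.le) (k0_pos (C := C)).le
  rw [dd] at h8
  linarith

theorem inv_real {x c : ℝ} (hx : 4 ≤ x) :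
    x⁻¹ ≤ 1 / 4 - 1 / 4 * (2 * c * (x - 4) - c ^ 2 * (x * (x - 4))) := by
  have h1 : 1 / 4 - 1 / 4 * (2 * c * (x - 4) - c ^ 2 * (x * (x - 4))) - x⁻¹ =
      (x - 4) * (1 - c * x) ^ 2 / (4 * x) := by
    have : x ≠ 0 := by linarith
    field_simp
    ring
  have h2 : 0 ≤ (x - 4) * (1 - c * x) ^ 2 / (4 * x) :=
    div_nonneg (mul_nonneg (by linarith) (sq_nonneg _)) (by linarith)
  linarith

theorem k1_pos' : 0 < C.k1 := by
  rw [← rho_one_mul]
  have h1 := rho_pos (C := C) (i := 1) (by omega)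
  have h2 := a_one_lt_k (C := C)
  exact mul_pos (by linarith) h1

/-- I.10, the mean of the inverse on a line -/
theorem inv4 (W : Wd4 C) {L : Set α} (hL : C.IsF 2 L) (hbL : C.b L = 2)
    (hn : 7 / 8 ≤ (nn C L : ℝ) * C.rho 3) :
    C.E L (fun x => x⁻¹) ≤ 1 / 4 - 1 / 4 * ((dd C) ^ 2 / (C.k0 * C.k1)) := by
  have hκ : 0 < C.k0 * C.k1 := mul_pos k0_pos k1_pos'
  set κ := C.k0 * C.k1 with hκdef
  set c := dd C / κ with hc
  have ha3 := a3_ge W
  have h1 : C.E L (fun x => x⁻¹) ≤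
      C.E L (fun x => 1 / 4 - 1 / 4 * (2 * c * (x - 4) - c ^ 2 * (x * (x - 4)))) := by
    refine E_mono hL.base fun H hH hLH => ?_
    have h3 : C.b L ≤ C.b H := b_mono (C := C) hLH
    rw [hbL] at h3
    apply inv_real
    rcases hv4 W hH (by linarith) with h4 | h4 <;> linarith
  rw [E_sub, E_const hL (by omega), E_mul, E_sub, E_mul, E_mul, PY.line_mean hL, hbL] at h1
  have h2 := sq4 W hL hbL hn
  rw [← hκdef] at h2
  have h3 : c ^ 2 * C.E L (fun x => x * (x - 4)) ≤ c ^ 2 * κ :=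
    mul_le_mul_of_nonneg_left h2 (sq_nonneg _)
  have h4 : 2 * c * (2 - 4 + (C.k - 2) * C.rho 2) - c ^ 2 * κ = dd C ^ 2 / κ := by
    have h5 : 2 - 4 + (C.k - 2) * C.rho 2 = dd C := by rw [dd]; ring
    rw [h5, hc]
    field_simp
    ring
  linarith

theorem real_four {k v z : ℝ} (hk : 1500 ≤ k) (hv : k < v) (hkv : 2 * k ^ 2 ≤ 5 * v)
    (hz : z = k ^ 2 - 2 * v - 6 * k + 16) (h1 : 20 * z ≤ 7 * (v - 4)) :
    4 * v * (v - 1) - 4 * k ^ 2 * (v - 1) + k ^ 2 * (k - 1) ^ 2 < z ^ 2 := by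
  have key : 4 * v * (v - 1) - 4 * k ^ 2 * (v - 1) + k ^ 2 * (k - 1) ^ 2 =
      z ^ 2 + ((10 * k - 27) * z + 24 * k ^ 2 - 130 * k + 176 - (4 * k - 6) * v) := by
    rw [hz]; ring
  have h2 : (10 * k - 27) * z ≤ (10 * k - 27) * (7 / 20 * v) :=
    mul_le_mul_of_nonneg_left (by linarith) (by linarith)
  have h3 : 1500 * v ≤ k * v := mul_le_mul_of_nonneg_right hk (by linarith)
  rw [key]
  nlinarith

/-- I.10 -/
theorem good4 (W : Wd4 C) : ∃ L, GdL C L := by
  by_contra hno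
  push Not at hno
  have hn : ∀ L, C.IsF 2 L → C.b L = 2 → 7 / 8 ≤ (nn C L : ℝ) * C.rho 3 := by
    intro L hL hbL
    by_cases h : ∃ y ∈ C.out L, C.b (C.jn L y) = 3
    · obtain ⟨y, hy, h3⟩ := h
      exact nn_ge W hL hbL hy h3
    · exfalso
      push Not at h
      refine hno L ⟨hL, hbL, fun y hy => ?_⟩
      rw [W.l4]
      exact (plane4 W hL hbL hy).resolve_left (h y hy)
  obtain ⟨L, hL, hLb⟩ := exists_line (C := C)
  have hbL : C.b L = 2 := le_antisymm (line4 W hL) hLb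
  have hd0 := dd_nonneg W hL hbL
  have hd1 := dd_le W hL hbL (hn L hL hbL)
  have hκ : 0 < C.k0 * C.k1 := mul_pos k0_pos k1_pos'
  have hk0 := k0_pos (C := C)
  have hk1 := k1_pos' (C := C)
  obtain ⟨G, hG⟩ : ∃ G, G = 1 / 4 - 1 / 4 * ((dd C) ^ 2 / (C.k0 * C.k1)) := ⟨_, rfl⟩
  have hpt : ∀ y ∈ C.out C.F₀, 1 - C.k1 * G ≤ C.E (C.jn C.F₀ y) (fun x => x⁻¹) := by
    intro y hy
    obtain ⟨hP, hPb⟩ := point hy
    have h1 := E_key (C := C) (by omega) hP (fun x => x⁻¹)
    have h2 : C.E (C.jn C.F₀ y) (fun x => (x - C.b (C.jn C.F₀ y)) * x⁻¹) =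
        C.E (C.jn C.F₀ y) (fun x => 1 - x⁻¹) := by
      refine E_congr hP.base fun H hH hPH => ?_
      have h3 := b_mono (C := C) hPH
      rw [hPb] at h3 ⊢
      have : C.b H ≠ 0 := by linarith
      field_simp
    rw [h2, E_sub, E_const hP (by omega)] at h1
    have h3 : ∀ z ∈ C.out (C.jn C.F₀ y),
        C.E (C.jn (C.jn C.F₀ y) z) (fun x => x⁻¹) ≤ G := by
      intro z hz
      obtain ⟨hzB, hzF⟩ := mem_out.1 hz
      have hL' : C.IsF 2 (C.jn (C.jn C.F₀ y) z) := hP.jn hzF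
      have e1 := line4 W hL'
      have e2 := b_add_one_le (C := C) (sub_jn (C := C) (C.jn C.F₀ y) z) hzB
        (mem_jn (C := C) _ z) hzF
      have e3 : C.b (C.jn (C.jn C.F₀ y) z) = 2 := by linarith
      rw [hG]
      exact inv4 W hL' e3 (hn _ hL' e3)
    have h4 := Finset.sum_le_sum h3
    rw [Finset.sum_const, nsmul_eq_mul, card_out, hPb] at h4
    have h5 := mul_le_mul_of_nonneg_left h4 (rho_pos (C := C) (i := 1) (by omega)).le
    have h6 : C.rho 1 * ((C.k - 1) * G) = C.k1 * G := by rw [← rho_one_mul]; ring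
    linarith
  have h1 := E_key (C := C) (by omega) isF_base (fun x => x⁻¹)
  have h2 : C.E C.F₀ (fun x => (x - C.b C.F₀) * x⁻¹) ≤ 1 := by
    rw [← E_const (isF_base (C := C)) (by omega) (1 : ℝ)]
    refine E_mono Subset.rfl fun H hH _ => ?_
    rw [b_base, sub_zero]
    exact mul_inv_le_one
  have h3 := Finset.sum_le_sum hpt
  rw [Finset.sum_const, nsmul_eq_mul, card_out, b_base, sub_zero] at h3
  have h4 := mul_le_mul_of_nonneg_left h3 (rho_pos (C := C) (i := 0) (by omega)).le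
  have h5 : C.rho 0 * (C.k * (1 - C.k1 * G)) = C.k0 * (1 - C.k1 * G) := by
    rw [← rho_zero_mul]; ring
  have h6 : C.k0 * (1 - C.k1 * G) ≤ 1 := by linarith
  have h7 : 4 * (C.k0 * (1 - C.k1 * G)) = 4 * C.k0 - C.k0 * C.k1 + dd C ^ 2 := by
    rw [hG]
    field_simp
    ring
  have h8 : dd C ^ 2 ≤ 4 - 4 * C.k0 + C.k0 * C.k1 := by linarith
  -- the real inequality
  have hk := W.kbig
  have hkv := C.k_lt_v
  have e0 := k0_mul (C := C)
  have e1 := k1_mul (C := C)
  have e2 := rho_mul (C := C) (i := 2) (by omega)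
  rw [W.l4] at e2
  obtain ⟨z, hz⟩ : ∃ z, z = dd C * (C.v - 4) := ⟨_, rfl⟩
  have hz' : z = C.k ^ 2 - 2 * C.v - 6 * C.k + 16 := by
    rw [hz, dd]
    linear_combination (C.k - 2) * e2
  have hzle : 20 * z ≤ 7 * (C.v - 4) := by
    rw [hz]
    have := mul_le_mul_of_nonneg_right hd1 (show 0 ≤ C.v - 4 by linarith)
    linarith
  have hkv2 : 2 * C.k ^ 2 ≤ 5 * C.v := by
    have := mul_le_mul_of_nonneg_right W.hi (show 0 ≤ C.v by linarith)
    linarith
  have h9 := real_four hk hkv hkv2 hz' hzle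
  have h10 : (4 - 4 * C.k0 + C.k0 * C.k1) * (C.v * (C.v - 1)) =
      4 * C.v * (C.v - 1) - 4 * C.k ^ 2 * (C.v - 1) + C.k ^ 2 * (C.k - 1) ^ 2 := by
    rw [← e0, ← e1]
    ring
  have h11 : dd C ^ 2 * (C.v * (C.v - 1)) ≤
      (4 - 4 * C.k0 + C.k0 * C.k1) * (C.v * (C.v - 1)) :=
    mul_le_mul_of_nonneg_right h8 (mul_nonneg (by linarith) (by linarith))
  have h12 : z ^ 2 ≤ dd C ^ 2 * (C.v * (C.v - 1)) := by
    rw [hz, mul_pow]
    apply mul_le_mul_of_nonneg_left _ (sq_nonneg _)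
    nlinarith
  linarith

end Pool.Agent.H92.KT
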