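import Pool.Agent.H92.KT.Wd
import Pool.Agent.H92.KT.Fgd
import Pool.Agent.H92.KT.AFin
import Pool.Agent.H92.PY.Asm

/-!
# the equation for all `C`, and the bound for `K (m + 2)`
-/

open Set

namespace Pool.Agent.H92.KT

open Pool.Agent.H63 Pool.Agent.H63.PD Pool.Agent.H69.Pmd Pool.Agent.H92.PX

variable {α : Type*} [Fintype α] {C : PD α}

theorem win_all (h3 : 3 ≤ C.a 2) : (C.a 2 = 3 ∨ C.a 2 = 4) ∧ C.a 2 - 2 < C.k0 ∧
    (C.a 3 - C.a 2) * C.k0 < (C.a 2 - 2) * (C.a 3 - 1) :=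
  not_not.1 fun hrem => main_all (C := C) h3 hrem

theorem wd_all (hm : 1 ≤ C.m) (h3 : 3 ≤ C.a 2) : Wd C ∧ (C.a 2 = 4 → Wd4 C) := by
  obtain ⟨h1, h2, hw⟩ := win_all h3
  rcases h1 with h | h
  · rw [h] at hw
    exact ⟨wd3 hm h (by linarith), fun h4 => by rw [h] at h4; norm_num at h4⟩
  · rw [h] at hw
    have := wd4 hm h (by linarith)
    exact ⟨this.toWd, fun _ => this⟩

/-- the equation (EQ) -/
theorem main_eq (hm : 1 ≤ C.m) (h3 : 3 ≤ C.a 2) :
    (C.k - 2) * C.rho 2 * ev C (C.m + 1) = 1 := by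
  obtain ⟨W, W4⟩ := wd_all hm h3
  rcases W.l3 with h | h
  · obtain ⟨L, g⟩ := good3 W h
    exact eq_of_good W g
  · obtain ⟨L, g⟩ := good4 (W4 h)
    exact eq_of_good W g

/-- the sequence of Part II -/
def cs (τ m : ℕ) (s : ℕ → ℕ) (l : ℕ) : ℤ :=
  if l ≤ m + 1 then (s (τ + (m + 3 - l)) : ℤ) - s τ else 2

theorem cs_eq {s : ℕ → ℕ} (hs : ∀ i, i ≤ C.τ + C.m + 3 → C.σ i = s i) {l : ℕ}
    (hl : l ≤ C.m + 1) : ((cs C.τ C.m s l : ℤ) : ℝ) = C.a (C.m + 3 - l) := by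
  rw [cs, if_pos hl, PD.a, hs _ (by omega), hs _ (by omega)]
  push_cast
  rfl

theorem ee_ev {s : ℕ → ℕ} (hs : ∀ i, i ≤ C.τ + C.m + 3 → C.σ i = s i) {l : ℕ}
    (hl : l ≤ C.m + 1) : ee (fun i => ((cs C.τ C.m s i : ℤ) : ℝ)) C.k C.v l = ev C l := by
  induction l with
  | zero =>
    rw [ee, ev, cs_eq hs (by omega), one_div]
    rfl
  | succ l ih =>
    rw [ee, ev, ih (by omega), cs_eq hs hl, cs_eq hs (show l ≤ C.m + 1 by omega),
      show C.m + 3 - (l + 1) = C.m + 2 - l by omega]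
    rfl

/-- the condition of Part II -/
def Cnd (τ m : ℕ) (s : ℕ → ℕ) : Prop :=
  (∀ l, l < m + 1 → cs τ m s (l + 1) < cs τ m s l) ∧
    ∃ w : ℤ, cs τ m s (m + 1) = w + 2 ∧
      ((w = 1 ∧ 9 ≤ cs τ m s m) ∨ (w = 2 ∧ 16 ≤ cs τ m s m))

theorem cnd (hm : 1 ≤ C.m) (h3 : 3 ≤ C.a 2) {s : ℕ → ℕ}
    (hs : ∀ i, i ≤ C.τ + C.m + 3 → C.σ i = s i) : Cnd C.τ C.m s := by
  obtain ⟨W, W4⟩ := wd_all hm h3
  constructor
  · intro l hl
    have h1 := cs_eq (C := C) hs (show l + 1 ≤ C.m + 1 by omega)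
    have h2 := cs_eq (C := C) hs (show l ≤ C.m + 1 by omega)
    have h4 := C.a_lt (show C.m + 3 - (l + 1) < C.m + 3 - l by omega) (by omega)
    rw [← h1, ← h2] at h4
    exact_mod_cast h4
  · have h1 := cs_eq (C := C) hs (show C.m + 1 ≤ C.m + 1 from le_rfl)
    have h2 := cs_eq (C := C) hs (show C.m ≤ C.m + 1 by omega)
    rw [show C.m + 3 - (C.m + 1) = 2 by omega] at h1
    rw [show C.m + 3 - C.m = 3 by omega] at h2
    have h5 := W.gap
    rcases W.l3 with h | h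
    · refine ⟨1, ?_, Or.inl ⟨rfl, ?_⟩⟩
      · rw [h] at h1
        have : ((cs C.τ C.m s (C.m + 1) : ℤ) : ℝ) = ((1 + 2 : ℤ) : ℝ) := by rw [h1]; norm_num
        exact_mod_cast this
      · have : ((9 : ℤ) : ℝ) ≤ (cs C.τ C.m s C.m : ℤ) := by rw [h2]; push_cast; linarith
        exact_mod_cast this
    · refine ⟨2, ?_, Or.inr ⟨rfl, ?_⟩⟩
      · rw [h] at h1
        have : ((cs C.τ C.m s (C.m + 1) : ℤ) : ℝ) = ((2 + 2 : ℤ) : ℝ) := by rw [h1]; norm_num
        exact_mod_cast this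
      · have h6 : 16 ≤ C.a 3 := by
          rcases (W4 h).a16 with h7 | h7 <;> linarith
        have : ((16 : ℤ) : ℝ) ≤ (cs C.τ C.m s C.m : ℤ) := by rw [h2]; push_cast; linarith
        exact_mod_cast this

theorem bound (τ m : ℕ) (s : ℕ → ℕ) (hm : 1 ≤ m) : ∃ b0 : ℕ, ∀ {α : Type} [Fintype α]
    (C : PD α), C.τ = τ → C.m = m → (∀ i, i ≤ τ + m + 3 → C.σ i = s i) → 3 ≤ C.a 2 →
    C.K (C.m + 2) < b0 + 1 := by
  by_cases hc : Cnd τ m s
  · obtain ⟨hc1, w, hw1, hw2⟩ := hc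
    obtain ⟨b0, hb0⟩ := arith_main (m + 1) (by omega) (cs τ m s) w hc1 hw1
      (by rw [cs, if_neg (by omega)]) (by rwa [Nat.add_sub_cancel])
    refine ⟨b0, ?_⟩
    intro α _ C hτ hm' hs h3
    subst hτ hm'
    by_contra hcon
    push Not at hcon
    obtain ⟨n1, hn1⟩ := K_nat (C := C) (i := C.m + 2) (by omega)
    obtain ⟨n2, hn2⟩ := K_nat (C := C) (i := C.m + 3) (by omega)
    have hK1 := K_mul (C := C) (i := C.m + 2) (by omega)
    have hK2 := K_mul (C := C) (i := C.m + 3) (by omega)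
    have e1 : C.a (C.m + 2 + 2) = C.k := rfl
    have e2 : C.a (C.m + 3 + 2) = C.v := rfl
    have e3 : C.a (C.m + 3 + 1) = C.k := rfl
    have e4 : C.a (C.m + 2 + 1) = C.a (C.m + 3) := rfl
    rw [e1, e4, hn1] at hK1
    rw [e2, e3, hn2] at hK2
    have hn1' : b0 + 1 ≤ n1 := by
      rw [hn1] at hcon
      exact_mod_cast hcon
    have l1 := C.a_lt (show C.m + 3 < C.m + 4 by omega) (by omega)
    have e5 : C.a (C.m + 4) = C.k := rfl
    rw [e5] at l1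
    have l2 := C.k_lt_v
    have hn2' : 1 ≤ n2 := by
      rcases Nat.eq_zero_or_pos n2 with h | h
      · rw [h] at hK2
        push_cast at hK2
        linarith
      · exact h
    have c0 := cs_eq (C := C) hs (show 0 ≤ C.m + 1 by omega)
    have c1 := cs_eq (C := C) hs (show 1 ≤ C.m + 1 by omega)
    have cN := cs_eq (C := C) hs (show C.m + 1 ≤ C.m + 1 from le_rfl)
    have cN1 := cs_eq (C := C) hs (show C.m ≤ C.m + 1 by omega)
    rw [show C.m + 3 - (C.m + 1) = 2 by omega] at cN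
    rw [show C.m + 3 - C.m = 3 by omega] at cN1
    rw [Nat.sub_zero] at c0
    rw [show C.m + 3 - 1 = C.m + 2 by omega] at c1
    obtain ⟨-, wl, wh⟩ := win_all h3
    have hw : (w : ℝ) = C.a 2 - 2 := by
      rw [← cN, hw1]; push_cast; ring
    have hvpos := C.v_pos
    have hk0 := k0_mul (C := C)
    refine hb0 (n1 - 1) (n2 - 1) (by omega) C.k C.v ?_ ?_ ?_ ?_ ?_
    · rw [c0, c1, Nat.cast_sub (by omega)]
      push_cast
      linarith
    · rw [c0, Nat.cast_sub hn2']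
      push_cast
      linarith
    · rw [hw, ← hk0]
      exact mul_lt_mul_of_pos_right wl (by linarith)
    · rw [Nat.add_sub_cancel, cN, cN1, hw, ← hk0, ← mul_assoc]
      exact mul_lt_mul_of_pos_right wh (by linarith)
    · have h1 := main_eq hm h3
      rw [← ee_ev hs le_rfl] at h1
      rw [cN]
      exact h1
  · refine ⟨0, ?_⟩
    intro α _ C hτ hm' hs h3
    subst hτ hm'
    exact absurd (cnd hm h3 hs) hc

end Pool.Agent.H92.KT
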