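import Mathlib
import Pool.Agent.H69.PmdBound
import Pool.Agent.H92.KT.Main

/-!
# Hyperplane families of perfect matroid designs: definitions and Part III
-/

open Set

namespace Pool.Agent.H92.KT.Ex

/-- A perfect matroid design on the ground set `Fin n`, without loops and parallel elements. -/
def IsPMD {n : ℕ} (M : Matroid (Fin n)) : Prop :=
  M.E = univ ∧
  (∀ F₁ F₂ : Set (Fin n), M.IsFlat F₁ → M.IsFlat F₂ → M.eRk F₁ = M.eRk F₂ →
    F₁.ncard = F₂.ncard) ∧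
  (∀ F : Set (Fin n), M.IsFlat F → M.eRk F = 0 → F.ncard = 0) ∧
  (∀ F : Set (Fin n), M.IsFlat F → M.eRk F = 1 → F.ncard = 1)

/-- `H` is a hyperplane: a flat of rank `r - 1`. -/
def IsHyperplane {n : ℕ} (M : Matroid (Fin n)) (H : Set (Fin n)) : Prop :=
  M.IsFlat H ∧ M.eRk H + 1 = M.eRk M.E

/-- `B` cannot be added to the hyperplane family: some hyperplane `H` meets `B` in a number of
points which is not the size of a flat of rank at most `r - 2`. -/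
def NotAddable {n : ℕ} (M : Matroid (Fin n)) (B : Set (Fin n)) : Prop :=
  ∃ H : Set (Fin n), IsHyperplane M H ∧
    ∀ F : Set (Fin n), M.IsFlat F → M.eRk F + 2 ≤ M.eRk M.E → (B ∩ H).ncard ≠ F.ncard

/-- The hyperplane family is a maximal `A(T,k,v)`. -/
def HyperplanesMaximal {n : ℕ} (M : Matroid (Fin n)) : Prop :=
  ∀ B H₀ : Set (Fin n), IsHyperplane M H₀ → B.ncard = H₀.ncard → ¬ IsHyperplane M B →
    NotAddable M B

/-- The flats of rank `i` of `M` have `s i` points, for all `i ≤ j`. -/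
def HasSizes {n : ℕ} (M : Matroid (Fin n)) (s : ℕ → ℕ) (j : ℕ) : Prop :=
  ∀ (F : Set (Fin n)) (i : ℕ), M.IsFlat F → M.eRk F = (i : ℕ∞) → i ≤ j → F.ncard = s i

/-- The equation for exceptional parameters: `r` is the rank, `s i` is the size of the flats of rank
`i` (so `k = s (r-1)`, `v = s r`), and `s i = i` for `i ≤ t`. The numbers `e i` (`t + 2 ≤ i ≤ r - 1`)
are given by `(s (r-2) - t - 1) e (r-1) = 1` and
`(s (i-1) - t - 1) e i = 1 - (k - s (i-1)) (k - s i) / (v - s i) e (i+1)`. -/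
def Equation (r t : ℕ) (s : ℕ → ℕ) : Prop :=
  ∃ e : ℕ → ℝ, ((s (r - 2) : ℝ) - t - 1) * e (r - 1) = 1 ∧
    (∀ i, t + 2 ≤ i → i + 2 ≤ r → ((s (i - 1) : ℝ) - t - 1) * e i =
      1 - ((s (r - 1) : ℝ) - s (i - 1)) * ((s (r - 1) : ℝ) - s i) / ((s r : ℝ) - s i) *
        e (i + 1)) ∧
    ((s (r - 1) : ℝ) - t - 1) * ((s (r - 1) : ℝ) - s (t + 1)) / ((s r : ℝ) - s (t + 1)) *
      e (t + 2) = 1

section

open Pool.Agent.H69.Pmd

variable {n : ℕ} {M : Matroid (Fin n)}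

theorem exists_isPmd (h : IsPMD M) {r : ℕ} (hr : M.eRk M.E = (r : ℕ∞)) :
    ∃ σ : ℕ → ℕ, IsPmd M r σ := by
  classical
  obtain ⟨hE, hpmd, h0, h1⟩ := h
  refine ⟨fun i => if hi : ∃ F, M.IsFlat F ∧ M.eRk F = (i : ℕ∞) then hi.choose.ncard else 0,
    hE, by rw [← hE]; exact hr, ?_⟩
  intro F i hF hFi
  have hi : ∃ F, M.IsFlat F ∧ M.eRk F = (i : ℕ∞) := ⟨F, hF, hFi⟩
  simp only [hi, dif_pos]
  exact hpmd _ _ hF hi.choose_spec.1 (by rw [hFi, hi.choose_spec.2])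

theorem size_zero (h : IsPMD M) {r : ℕ} {σ : ℕ → ℕ} (hσ : IsPmd M r σ) : σ 0 = 0 := by
  obtain ⟨G, hG, hGr⟩ := hσ.exists_flat (i := 0) (by omega)
  rw [← hσ.size G 0 hG hGr]
  exact h.2.2.1 G hG (by rw [hGr]; rfl)

theorem size_one (h : IsPMD M) {r : ℕ} {σ : ℕ → ℕ} (hσ : IsPmd M r σ) (hr : 1 ≤ r) :
    σ 1 = 1 := by
  obtain ⟨G, hG, hGr⟩ := hσ.exists_flat (i := 1) hr
  rw [← hσ.size G 1 hG hGr]
  exact h.2.2.2 G hG (by rw [hGr]; rfl)

theorem rank_hyperplane {s : ℕ} (hr : M.eRk M.E = ((s + 3 : ℕ) : ℕ∞)) {H : Set (Fin n)}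
    (hH : IsHyperplane M H) : M.eRk H = ((s + 2 : ℕ) : ℕ∞) := by
  obtain ⟨i, hi⟩ := ENat.ne_top_iff_exists.1 (eRk_lt_top M H).ne
  have h2 := hH.2
  rw [← hi, hr] at h2
  have : i + 1 = s + 3 := by exact_mod_cast h2
  rw [← hi]
  exact_mod_cast (by omega : i = s + 2)

/-- The negation of `NotAddable` in terms of the sizes. -/
theorem bad_of_not {s : ℕ} {σ : ℕ → ℕ} (hr : M.eRk M.E = ((s + 3 : ℕ) : ℕ∞))
    (hσ : IsPmd M (s + 3) σ) {B : Set (Fin n)} (hcon : ¬ NotAddable M B) :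
    ∀ H : Set (Fin n), M.IsFlat H → M.eRk H = ((s + 2 : ℕ) : ℕ∞) →
      ∃ i ≤ s + 1, (B ∩ H).ncard = σ i := by
  simp only [NotAddable, not_exists, not_and, not_forall, not_not, exists_prop] at hcon
  intro H hH hHr
  obtain ⟨G, hG, hGr, hc⟩ := hcon H ⟨hH, by rw [hHr, hr]; norm_cast⟩
  obtain ⟨i, hi⟩ := ENat.ne_top_iff_exists.1 (eRk_lt_top M G).ne
  rw [← hi, hr] at hGr
  have : i + 2 ≤ s + 3 := by exact_mod_cast hGr
  exact ⟨i, by omega, by rw [hc]; exact hσ.size G i hG hi.symm⟩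

theorem maximal_of_cond (h : IsPMD M)
    (hcond : ∀ F₁ F₂ H : Set (Fin n), M.IsFlat F₁ → M.IsFlat F₂ → IsHyperplane M H →
      M.eRk F₂ = M.eRk F₁ + 1 → M.eRk F₂ + 3 ≤ M.eRk M.E → F₁.ncard + 2 ≤ F₂.ncard →
      2 * ((H.ncard : ℤ) - F₂.ncard) ^ 2 <
        ((F₂.ncard : ℤ) - F₁.ncard) * ((n : ℤ) - H.ncard)) : HyperplanesMaximal M := by
  intro B H₀ hH₀ hBH₀ hB
  have hE := h.1
  obtain ⟨r, hr⟩ := ENat.ne_top_iff_exists.1 (eRk_lt_top M M.E).ne
  obtain ⟨σ, hσ⟩ := exists_isPmd h hr.symm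
  obtain ⟨i, hi⟩ := ENat.ne_top_iff_exists.1 (eRk_lt_top M H₀).ne
  have hir : i + 1 = r := by
    have h2 := hH₀.2
    rw [← hi, ← hr] at h2
    exact_mod_cast h2
  -- the rank of B
  obtain ⟨b, hb⟩ := ENat.ne_top_iff_exists.1 (eRk_lt_top M B).ne
  have hbi : i < b := by
    by_contra hlt
    obtain ⟨H, hH, hBH', hHr⟩ := exists_flat_ge hE hσ.rank (i - b)
      (M.isFlat_closure B) (by rw [Matroid.eRk_closure_eq]; exact hb.symm) (by omega)
    have hHr' : M.eRk H = (i : ℕ∞) := by rw [hHr]; congr 1; omega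
    have hsub : B ⊆ H := (subset_closure' hE B).trans hBH'
    have : B = H := Set.eq_of_subset_of_ncard_le hsub
      (by rw [hBH₀, hσ.size H i hH hHr', hσ.size H₀ i hH₀.1 hi.symm]) (Set.toFinite _)
    apply hB
    rw [this]
    refine ⟨hH, ?_⟩
    rw [hHr', ← hr, ← hir]; push_cast; rfl
  rcases Nat.lt_or_ge r 3 with hr3 | hr3
  · -- rank at most two
    exfalso
    have hH₀c : H₀.ncard = i := by
      have hi2 : i = 0 ∨ i = 1 := by omega
      rcases hi2 with rfl | rfl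
      · exact h.2.2.1 H₀ hH₀.1 (by rw [← hi]; rfl)
      · exact h.2.2.2 H₀ hH₀.1 (by rw [← hi]; rfl)
    have h3 := M.eRk_le_encard B
    rw [← hb, ← (Set.toFinite B).cast_ncard_eq, hBH₀, hH₀c] at h3
    have : b ≤ i := by exact_mod_cast h3
    omega
  · obtain ⟨s, rfl⟩ : ∃ s, r = s + 3 := ⟨r - 3, by omega⟩
    by_contra hcon
    have hsB : ((s : ℕ) : ℕ∞) ≤ M.eRk B := by rw [← hb]; exact_mod_cast (by omega : s ≤ b)
    have hH₀r := rank_hyperplane hr.symm hH₀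
    have hHc := hσ.size H₀ (s + 2) hH₀.1 hH₀r
    obtain ⟨j, hj1, hj2, hj3, hj4⟩ := hσ.bad_bound (size_zero h hσ)
      (size_one h hσ (by omega)) (hBH₀.trans hHc) hsB (bad_of_not hr.symm hσ hcon)
    obtain ⟨F₁, hF₁, hF₁r⟩ := hσ.exists_flat (i := j) (by omega)
    obtain ⟨F₂, hF₂, hF₂r⟩ := hσ.exists_flat (i := j + 1) (by omega)
    have hc1 := hσ.size F₁ j hF₁ hF₁r
    have hc2 := hσ.size F₂ (j + 1) hF₂ hF₂r
    have hn : σ (s + 3) = n := by
      have h2 := hσ.size univ (s + 3) (hE ▸ M.ground_isFlat) hσ.rank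
      rw [← h2, Set.ncard_univ, Nat.card_eq_fintype_card, Fintype.card_fin]
    have h3 := hcond F₁ F₂ H₀ hF₁ hF₂ hH₀ (by rw [hF₁r, hF₂r]; norm_cast)
      (by rw [hF₂r, ← hr]; exact_mod_cast (by omega : j + 1 + 3 ≤ s + 3))
      (by rw [hc1, hc2]; exact hj3)
    rw [hc1, hc2, hHc, ← hn] at h3
    linarith

/-- `B` is a set of hyperplane size which is not a hyperplane: it is contained in no hyperplane. -/
theorem not_subset_hyperplane {r : ℕ} {σ : ℕ → ℕ} (hσ : IsPmd M (r + 1) σ) {B H₀ H : Set (Fin n)}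
    (hr : M.eRk M.E = ((r + 1 : ℕ) : ℕ∞))
    (hH₀ : M.IsFlat H₀) (hH₀r : M.eRk H₀ = (r : ℕ∞)) (hBH₀ : B.ncard = H₀.ncard)
    (hB : ¬ IsHyperplane M B) (hH : M.IsFlat H) (hHr : M.eRk H = (r : ℕ∞)) : ¬ B ⊆ H := by
  intro hsub
  have h1 : B = H := Set.eq_of_subset_of_ncard_le hsub
    (by rw [hBH₀, hσ.size H r hH hHr, hσ.size H₀ r hH₀ hH₀r]) (Set.toFinite _)
  apply hB
  rw [h1]
  refine ⟨hH, ?_⟩
  rw [hHr, hr]; push_cast; rfl

/-- The structure used in `Pool/Agent/H92` for a set that could be added. -/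
theorem pd_of_not (h : IsPMD M) {t m : ℕ} (ht : 1 ≤ t)
    (hr : M.eRk M.E = ((t + m + 4 : ℕ) : ℕ∞))
    (hfree : ∀ F : Set (Fin n), M.IsFlat F → M.eRk F ≤ t → (F.ncard : ℕ∞) = M.eRk F)
    (hline : ∀ F : Set (Fin n), M.IsFlat F → M.eRk F = ((t + 1 : ℕ) : ℕ∞) → t + 2 ≤ F.ncard)
    (hnot : ¬ HyperplanesMaximal M) {σ : ℕ → ℕ} (hσ : IsPmd M (t + m + 4) σ) :
    ∃ C : Pool.Agent.H63.PD (Fin n), C.τ + 1 = t ∧ C.m = m ∧ C.σ = σ ∧ 3 ≤ C.a 2 ∧
      ∀ i ≤ t, σ i = i := by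
  simp only [HyperplanesMaximal, not_forall] at hnot
  obtain ⟨B, H₀, hH₀, hBH₀, hB, hcon⟩ := hnot
  have hE := h.1
  obtain ⟨τ, rfl⟩ : ∃ τ, t = τ + 1 := ⟨t - 1, by omega⟩
  have e : τ + 1 + m + 4 = τ + m + 2 + 3 := by omega
  rw [e] at hr hσ
  have hH₀r := rank_hyperplane hr hH₀
  have hHc := hσ.size H₀ (τ + m + 2 + 2) hH₀.1 hH₀r
  have hbad := bad_of_not hr hσ hcon
  have hspan : ∀ H : Set (Fin n), M.IsFlat H → M.eRk H = ((τ + m + 4 : ℕ) : ℕ∞) → ¬ B ⊆ H :=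
    fun H hH hHr => not_subset_hyperplane (r := τ + m + 4) hσ hr hH₀.1 hH₀r hBH₀ hB hH hHr
  -- sizes of small flats
  have hσi : ∀ i, i ≤ τ + 1 → σ i = i := by
    intro i hi
    obtain ⟨F, hF, hFr⟩ := hσ.exists_flat (i := i) (by omega)
    have h1 := hfree F hF (by rw [hFr]; exact_mod_cast hi)
    rw [hσ.size F i hF hFr, hFr] at h1
    exact_mod_cast h1
  -- a base flat
  obtain ⟨F₀, hF₀, hF₀r, hF₀B⟩ : ∃ F₀, M.IsFlat F₀ ∧ M.eRk F₀ = (τ : ℕ∞) ∧ F₀ ⊆ B := by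
    obtain ⟨b, hb⟩ := ENat.ne_top_iff_exists.1 (eRk_lt_top M B).ne
    have hbτ : τ ≤ b := by
      by_contra hlt
      obtain ⟨H, hH, hBH', hHr⟩ := exists_flat_ge hE hσ.rank (τ + m + 4 - b)
        (M.isFlat_closure B) (by rw [Matroid.eRk_closure_eq]; exact hb.symm) (by omega)
      exact hspan H hH (by rw [hHr]; congr 1; omega) ((subset_closure' hE B).trans hBH')
    obtain ⟨J, hJB, hJ, hJc⟩ := Matroid.le_eRk_iff.1
      (show (τ : ℕ∞) ≤ M.eRk B by rw [← hb]; exact_mod_cast hbτ)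
    have hJr : M.eRk (M.closure J) = (τ : ℕ∞) := by
      rw [Matroid.eRk_closure_eq, hJ.eRk_eq_encard, hJc]
    have h1 := hσ.size (M.closure J) τ (M.isFlat_closure J) hJr
    rw [hσi τ (by omega)] at h1
    have h2 : J.ncard = τ := by
      have := hJc
      rw [← (Set.toFinite J).cast_ncard_eq] at this
      exact_mod_cast this
    have h3 : J = M.closure J := Set.eq_of_subset_of_ncard_le (subset_closure' hE J)
      (by rw [h1, h2]) (Set.toFinite _)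
    exact ⟨M.closure J, M.isFlat_closure J, hJr, by rw [← h3]; exact hJB⟩
  let C : Pool.Agent.H63.PD (Fin n) :=
    { M := M, σ := σ, τ := τ, m := m, F₀ := F₀, B := B
      pmd := hσ
      flat0 := hF₀
      rk0 := hF₀r
      sub0 := hF₀B
      one := by rw [hσi τ (by omega), hσi (τ + 1) le_rfl]
      card := by rw [hBH₀]; exact hHc
      span := hspan
      bad := hbad }
  refine ⟨C, rfl, rfl, rfl, ?_, hσi⟩
  obtain ⟨F₂, hF₂, hF₂r⟩ := hσ.exists_flat (i := τ + 2) (by omega)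
  have hc2 := hσ.size F₂ (τ + 2) hF₂ hF₂r
  have h1 := hline F₂ hF₂ (by rw [hF₂r])
  have h2 : ((τ + 1 + 2 : ℕ) : ℝ) ≤ F₂.ncard := by exact_mod_cast h1
  push_cast at h2
  show 3 ≤ (σ (τ + 2) : ℝ) - σ τ
  rw [← hc2, hσi τ (by omega)]
  linarith

/-- if the flats of rank at most `r - 3` are free, the hyperplane family is maximal -/
theorem maximal_of_free (h : IsPMD M)
    (hlow : ∀ F : Set (Fin n), M.IsFlat F → M.eRk F + 3 ≤ M.eRk M.E →
      (F.ncard : ℕ∞) = M.eRk F) : HyperplanesMaximal M := by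
  apply maximal_of_cond h
  intro F₁ F₂ H hF₁ hF₂ _ h12 h2 hc
  exfalso
  have e2 := hlow F₂ hF₂ h2
  have e1 := hlow F₁ hF₁ (le_trans (by gcongr; rw [h12]; exact le_self_add) h2)
  rw [h12, ← e1] at e2
  have : F₂.ncard = F₁.ncard + 1 := by exact_mod_cast e2
  omega

/-- the data of an exceptional perfect matroid design -/
theorem exists_pd (h : IsPMD M) {r : ℕ} (hr : M.eRk M.E = (r : ℕ∞)) {σ : ℕ → ℕ}
    (hσ : IsPmd M r σ) (hmax : ¬ HyperplanesMaximal M) :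
    ∃ C : Pool.Agent.H63.PD (Fin n), C.τ + C.m + 5 = r ∧ C.σ = σ ∧ 1 ≤ C.m ∧ 3 ≤ C.a 2 ∧
      ∀ i ≤ C.τ + 1, σ i = i := by
  classical
  -- the largest free rank
  let P : ℕ → Prop := fun t => ∀ F : Set (Fin n), M.IsFlat F → M.eRk F ≤ t →
    (F.ncard : ℕ∞) = M.eRk F
  have hP1 : P 1 := by
    intro F hF hFr
    obtain ⟨i, hi⟩ := ENat.ne_top_iff_exists.1 (Pool.Agent.H69.Pmd.eRk_lt_top M F).ne
    rw [← hi] at hFr ⊢
    have h6 : i ≤ 1 := by exact_mod_cast hFr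
    have hi2 : i = 0 ∨ i = 1 := by omega
    rcases hi2 with rfl | rfl
    · rw [h.2.2.1 F hF (by rw [← hi]; rfl)]
    · rw [h.2.2.2 F hF (by rw [← hi]; rfl)]
  have hPr : ∀ t, r ≤ t + 3 → ¬ P t := by
    intro t htr hPt
    apply hmax
    apply maximal_of_free h
    intro F hF hFr
    apply hPt F hF
    obtain ⟨i, hi⟩ := ENat.ne_top_iff_exists.1 (Pool.Agent.H69.Pmd.eRk_lt_top M F).ne
    rw [← hi, hr] at hFr
    have h6 : i + 3 ≤ r := by exact_mod_cast hFr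
    rw [← hi]
    exact_mod_cast (by omega : i ≤ t)
  obtain ⟨t, ht, hPt, hPt1⟩ : ∃ t, 1 ≤ t ∧ P t ∧ ¬ P (t + 1) := by
    by_contra hcon
    push Not at hcon
    have hall : ∀ t, 1 ≤ t → P t := by
      intro t ht
      induction t, ht using Nat.le_induction with
      | base => exact hP1
      | succ t ht ih => exact hcon t ht ih
    exact hPr (r + 1) (by omega) (hall (r + 1) (by omega))
  have hr4 : t + 4 ≤ r := by
    by_contra hlt
    exact hPr t (by omega) hPt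
  obtain ⟨m, rfl⟩ : ∃ m, r = t + m + 4 := ⟨r - t - 4, by omega⟩
  have hline : ∀ F : Set (Fin n), M.IsFlat F → M.eRk F = ((t + 1 : ℕ) : ℕ∞) →
      t + 2 ≤ F.ncard := by
    -- flats of rank `t + 1` have at least `t + 2` points
    intro F hF hFr
    simp only [P, not_forall] at hPt1
    obtain ⟨G, hG, hGr, hGc⟩ := hPt1
    obtain ⟨i, hi⟩ := ENat.ne_top_iff_exists.1 (Pool.Agent.H69.Pmd.eRk_lt_top M G).ne
    have hit : i = t + 1 := by
      rw [← hi] at hGr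
      have h6 : i ≤ t + 1 := by exact_mod_cast hGr
      by_contra hne
      apply hGc
      apply hPt G hG
      rw [← hi]
      exact_mod_cast (by omega : i ≤ t)
    subst hit
    rw [h.2.1 F G hF hG (by rw [hFr, hi])]
    have h7 := M.eRk_le_encard G
    rw [← (Set.toFinite G).cast_ncard_eq, ← hi] at h7
    have h8 : t + 1 ≤ G.ncard := by exact_mod_cast h7
    have h9 : G.ncard ≠ t + 1 := by
      intro h10
      apply hGc
      rw [h10, ← hi]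
    omega
  obtain ⟨C, h1, h2, h3, h4, h5⟩ := pd_of_not h ht hr hPt hline hmax hσ
  have hm : C.m ≠ 0 := fun hm => Pool.Agent.H92.PY.zero_all (C := C) hm h4
  exact ⟨C, by omega, h3, by omega, h4, fun i hi => h5 i (by omega)⟩

end

theorem fixed (r : ℕ) (s : ℕ → ℕ) : ∃ k₀ : ℕ, ∀ (n : ℕ) (M : Matroid (Fin n)), IsPMD M →
    M.eRk M.E = (r : ℕ∞) → HasSizes M s (r - 2) →
    (∀ H, IsHyperplane M H → k₀ ≤ H.ncard) → HyperplanesMaximal M := by
  classical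
  have hb : ∀ τ : ℕ, ∃ b0 : ℕ, 1 ≤ r - 5 - τ → ∀ {α : Type} [Fintype α]
      (C : Pool.Agent.H63.PD α), C.τ = τ → C.m = r - 5 - τ →
      (∀ i, i ≤ τ + (r - 5 - τ) + 3 → C.σ i = s i) → 3 ≤ C.a 2 →
      C.K (C.m + 2) < b0 + 1 := by
    intro τ
    by_cases h : 1 ≤ r - 5 - τ
    · obtain ⟨b0, hb0⟩ := Pool.Agent.H92.KT.bound τ (r - 5 - τ) s h
      exact ⟨b0, fun _ {α} _ C h1 h2 h3 h4 => hb0 C h1 h2 h3 h4⟩
    · exact ⟨0, fun h' => absurd h' h⟩
  choose b0 hb0 using hb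
  refine ⟨(Finset.range (r + 1)).sup (fun τ => (b0 τ + 1) * s (r - 2)) + 1, ?_⟩
  intro n M h hr hs hk
  by_contra hmax
  obtain ⟨σ, hσ⟩ := exists_isPmd h hr
  obtain ⟨C, h1, h2, h3, h4, h5⟩ := exists_pd h hr hσ hmax
  have hτ : C.m = r - 5 - C.τ := by omega
  have hsz : ∀ i, i ≤ r - 2 → σ i = s i := by
    intro i hi
    obtain ⟨F, hF, hFr⟩ := hσ.exists_flat (i := i) (by omega)
    rw [← hσ.size F i hF hFr]
    exact hs F i hF hFr hi
  have hK := hb0 C.τ (by omega) C rfl hτ (by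
    intro i hi
    rw [h2]
    exact hsz i (by omega)) h4
  obtain ⟨H, hH, hHr⟩ := hσ.exists_flat (i := r - 1) (by omega)
  have hHk := hk H ⟨hH, by
    rw [hHr, hr]
    exact_mod_cast (by omega : r - 1 + 1 = r)⟩
  rw [hσ.size H (r - 1) hH hHr] at hHk
  have hsup : (b0 C.τ + 1) * s (r - 2) ≤
      (Finset.range (r + 1)).sup (fun τ => (b0 τ + 1) * s (r - 2)) :=
    Finset.le_sup (f := fun τ => (b0 τ + 1) * s (r - 2)) (Finset.mem_range.2 (by omega))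
  have hkl : (b0 C.τ + 1) * s (r - 2) + 1 ≤ σ (r - 1) := by omega
  -- but `k` is small
  have hKm := Pool.Agent.H63.PD.K_mul (C := C) (i := C.m + 2) (by omega)
  have e0 : C.a (C.m + 2 + 2) = (σ (r - 1) : ℝ) - C.σ C.τ := by
    rw [Pool.Agent.H63.PD.a, h2]
    congr 3
    omega
  have e1 : C.a (C.m + 2 + 1) = (s (r - 2) : ℝ) - C.σ C.τ := by
    rw [Pool.Agent.H63.PD.a, h2, ← hsz (r - 2) le_rfl]
    congr 3
    omega
  have l1 : C.a (C.m + 2) < C.a (C.m + 2 + 1) := C.a_lt (by omega) (by omega)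
  have l2 : 0 ≤ C.a (C.m + 2) := C.a_nonneg (by omega)
  have l3 : (0 : ℝ) ≤ C.σ C.τ := Nat.cast_nonneg _
  have h6 : (((b0 C.τ + 1) * s (r - 2) + 1 : ℕ) : ℝ) ≤ (σ (r - 1) : ℝ) := by exact_mod_cast hkl
  push_cast at h6
  have h7 : C.K (C.m + 2) * (C.a (C.m + 2 + 1) - C.a (C.m + 2)) ≤
      ((b0 C.τ : ℝ) + 1) * (C.a (C.m + 2 + 1) - C.a (C.m + 2)) :=
    mul_le_mul_of_nonneg_right hK.le (by linarith)
  rw [hKm, e0] at h7
  have h8 : ((b0 C.τ : ℝ) + 1) * (C.a (C.m + 2 + 1) - C.a (C.m + 2)) + C.a (C.m + 2) ≤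
      ((b0 C.τ : ℝ) + 1) * C.a (C.m + 2 + 1) := by
    have : 0 ≤ (b0 C.τ : ℝ) * C.a (C.m + 2) := mul_nonneg (Nat.cast_nonneg _) l2
    linarith
  rw [e1] at h8
  have h9 : 0 ≤ (b0 C.τ : ℝ) * C.σ C.τ := mul_nonneg (Nat.cast_nonneg _) l3
  rw [e1] at h7
  linarith

theorem equation (n : ℕ) (M : Matroid (Fin n)) (h : IsPMD M) : HyperplanesMaximal M ∨
    ∃ (r t : ℕ) (s : ℕ → ℕ), M.eRk M.E = (r : ℕ∞) ∧ HasSizes M s r ∧ 1 ≤ t ∧ t + 5 ≤ r ∧
      (∀ i ≤ t, s i = i) ∧ (s (t + 1) = t + 2 ∨ s (t + 1) = t + 3) ∧ Equation r t s := by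
  by_cases hmax : HyperplanesMaximal M
  · exact Or.inl hmax
  right
  obtain ⟨r, hr⟩ := ENat.ne_top_iff_exists.1 (Pool.Agent.H69.Pmd.eRk_lt_top M M.E).ne
  obtain ⟨σ, hσ⟩ := exists_isPmd h hr.symm
  obtain ⟨C, h1, h2, h3, h4, h5⟩ := exists_pd h hr.symm hσ hmax
  have hz : C.σ C.τ = C.τ := by rw [h2]; exact h5 _ (by omega)
  have ha : ∀ i, C.a i = (σ (C.τ + i) : ℝ) - C.τ := by
    intro i
    rw [Pool.Agent.H63.PD.a, hz, h2]
  refine ⟨r, C.τ + 1, σ, hr.symm, fun F i hF hFr _ => hσ.size F i hF hFr, by omega, by omega,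
    h5, ?_, ?_⟩
  · have hw := (Pool.Agent.H92.KT.win_all (C := C) h4).1
    rw [ha] at hw
    rcases hw with hw | hw
    · left
      have : (σ (C.τ + 2) : ℝ) = ((C.τ + 1 + 2 : ℕ) : ℝ) := by push_cast; linarith
      exact_mod_cast this
    · right
      have : (σ (C.τ + 2) : ℝ) = ((C.τ + 1 + 3 : ℕ) : ℝ) := by push_cast; linarith
      exact_mod_cast this
  · have hk : C.k = (σ (r - 1) : ℝ) - C.τ := by
      show C.a (C.m + 4) = _
      rw [ha, show C.τ + (C.m + 4) = r - 1 by omega]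
    have hv : C.v = (σ r : ℝ) - C.τ := by
      show C.a (C.m + 5) = _
      rw [ha, show C.τ + (C.m + 5) = r by omega]
    have W := (Pool.Agent.H92.KT.wd_all (C := C) h3 h4).1
    refine ⟨fun i => Pool.Agent.H92.KT.ev C (r - 1 - i), ?_, ?_, ?_⟩
    · simp only [Nat.sub_self]
      have h6 := Pool.Agent.H92.KT.two_lt_a W (i := C.m + 3) (by omega) (by omega)
      have h7 : (σ (r - 2) : ℝ) - ((C.τ + 1 : ℕ) : ℝ) - 1 = C.a (C.m + 3) - 2 := by
        rw [ha, show C.τ + (C.m + 3) = r - 2 by omega]; push_cast; ring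
      rw [h7]
      show (C.a (C.m + 3) - 2) * (C.a (C.m + 3) - 2)⁻¹ = 1
      exact mul_inv_cancel₀ (by linarith)
    · intro i hi1 hi2
      obtain ⟨l, hl⟩ : ∃ l, l = r - 2 - i := ⟨_, rfl⟩
      have hl1 : r - 1 - i = l + 1 := by omega
      have hl2 : r - 1 - (i + 1) = l := by omega
      simp only [hl1, hl2]
      have h6 := Pool.Agent.H92.KT.two_lt_a W (i := C.m + 2 - l) (by omega) (by omega)
      have h7 : (σ (i - 1) : ℝ) - ((C.τ + 1 : ℕ) : ℝ) - 1 = C.a (C.m + 2 - l) - 2 := by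
        rw [ha, show C.τ + (C.m + 2 - l) = i - 1 by omega]; push_cast; ring
      have h8 : (σ (r - 1) : ℝ) - σ (i - 1) = C.k - C.a (C.m + 2 - l) := by
        rw [hk, ha, show C.τ + (C.m + 2 - l) = i - 1 by omega]; ring
      have h9 : ((σ (r - 1) : ℝ) - σ i) / ((σ r : ℝ) - σ i) = C.rho (C.m + 3 - l) := by
        rw [Pool.Agent.H63.PD.rho, hk, hv, ha, show C.τ + (C.m + 3 - l) = i by omega]
        congr 1 <;> ring
      rw [h7, h8, mul_div_assoc, h9, Pool.Agent.H92.KT.ev]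
      rw [mul_div_cancel₀]
      linarith
    · have h6 := Pool.Agent.H92.KT.main_eq (C := C) h3 h4
      have h7 : (σ (r - 1) : ℝ) - ((C.τ + 1 : ℕ) : ℝ) - 1 = C.k - 2 := by
        rw [hk]; push_cast; ring
      have h9 : ((σ (r - 1) : ℝ) - σ (C.τ + 1 + 1)) / ((σ r : ℝ) - σ (C.τ + 1 + 1)) =
          C.rho 2 := by
        rw [Pool.Agent.H63.PD.rho, hk, hv, ha, show C.τ + 1 + 1 = C.τ + 2 by omega]
        congr 1 <;> ring
      rw [h7, mul_div_assoc, h9]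
      have h10 : r - 1 - (C.τ + 1 + 2) = C.m + 1 := by omega
      simp only [h10]
      exact h6

end Pool.Agent.H92.KT.Ex
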