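import Pool.Agent.H92.KT.Defs

/-!
# I.2: the exact step, proved
-/

open Set

namespace Pool.Agent.H92.KT

open Pool.Agent.H63 Pool.Agent.H63.PD Pool.Agent.H69.Pmd Pool.Agent.H92.PX

variable {α : Type*} [Fintype α] {C : PD α}

theorem dif6 (W : Wd C) {i : ℕ} (h2 : 2 ≤ i) (hi : i ≤ C.m + 4) : C.a i + 6 ≤ C.a (i + 1) := by
  induction i, h2 using Nat.le_induction with
  | base => exact W.gap
  | succ i h2 ih =>
    have h1 := ih (by omega)
    have h3 := dif_ge (C := C) (i := i) (by omega)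
    have h4 : 2 ≤ C.a 2 - 1 := by rcases W.l3 with h | h <;> rw [h] <;> norm_num
    have h5 := C.a_lt (show i < i + 1 by omega) (by omega)
    have h6 : 2 * (C.a (i + 1) - C.a i) ≤ (C.a 2 - 1) * (C.a (i + 1) - C.a i) :=
      mul_le_mul_of_nonneg_right h4 (by linarith)
    rw [show i + 1 + 1 = i + 2 from rfl]
    linarith

/-- a flat of rank at most `m + 3` with more than `a t` points has at least `a (t+1) - 5/2` -/
theorem lowb (W : Wd C) {i t : ℕ} (hi : i ≤ C.m + 3) (ht : t ≤ C.m + 2) {F : Set α}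
    (hF : C.IsF i F) (h : C.a t < C.b F) : C.a (t + 1) - 5 / 2 ≤ C.b F := by
  have h1 := mu_ge_of_lt hi hF ht h
  have h2 := kap_le hi hF
  have h3 : C.mu i F = C.b F + (C.k - C.b F) * C.rho i := rfl
  have h4 := W.hi
  linarith

theorem exs (W : Wd C) {i : ℕ} (h3 : 3 ≤ i) (hi : i ≤ C.m + 3) {E : Set α} (hE : C.IsF i E)
    (hb : C.b E = C.a (i - 1)) {y : α} (hy : y ∈ C.out E) : C.b (C.jn E y) = C.a i := by
  obtain ⟨t, rfl⟩ : ∃ t, i = t + 1 := ⟨i - 1, by omega⟩
  rw [Nat.add_sub_cancel] at hb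
  obtain ⟨hyB, hyE⟩ := mem_out.1 hy
  have hF := hE.jn hyE
  have hEF := sub_jn (C := C) E y
  have hlt : C.a t < C.b (C.jn E y) := by
    have := b_add_one_le hEF hyB (mem_jn E y) hyE
    linarith
  have hup := W.up (t + 1) (by omega) hi _ hF
  rcases hi.eq_or_lt with him | him
  · have hH : C.IsF (C.m + 4) (C.jn E y) := by
      have : t + 1 + 1 = C.m + 4 := by omega
      rwa [this] at hF
    exact le_antisymm hup (val_ge hH (by omega) hlt)
  refine le_antisymm hup ?_
  by_contra hcon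
  push Not at hcon
  have hFl := lowb W (by omega) (by omega) hF hlt
  have hd := dif6 W (show 2 ≤ t by omega) (by omega)
  have hd2 := dif6 W (show 2 ≤ t + 1 by omega) (by omega)
  have hall : ∀ H, C.IsF (C.m + 4) H → C.jn E y ⊆ H → C.a (t + 1 + 1) ≤ C.b H := by
    intro H hH hFH
    have hbH : C.a (t + 1) ≤ C.b H := val_ge hH (by omega) (hlt.trans_le (b_mono hFH))
    have hz : ∃ z, z ∈ C.B ∧ z ∈ H ∧ z ∉ C.jn E y := by
      by_contra hno
      push Not at hno
      have hsub : C.B ∩ H ⊆ C.B ∩ C.jn E y := fun z hz => ⟨hz.1, hno z hz.1 hz.2⟩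
      have h1 := Set.ncard_le_ncard hsub (Set.toFinite _)
      have h2 : C.b H ≤ C.b (C.jn E y) := by
        have h3 : ((C.B ∩ H).ncard : ℝ) ≤ (C.B ∩ C.jn E y).ncard := by exact_mod_cast h1
        simp only [PD.b]; linarith
      linarith
    obtain ⟨z, hzB, hzH, hzF⟩ := hz
    have hzE : z ∉ E := fun h => hzF (hEF h)
    have hG := hE.jn hzE
    have hEG := sub_jn (C := C) E z
    have hltG : C.a t < C.b (C.jn E z) := by
      have := b_add_one_le hEG hzB (mem_jn E z) hzE
      linarith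
    have hGl := lowb W (by omega) (by omega) hG hltG
    have hne : C.jn E y ≠ C.jn E z := fun h => hzF (h ▸ mem_jn E z)
    have hint := hE.inter_eq hF hG hEF hEG hne
    have hGH : C.jn E z ⊆ H := jn_subset hH (hEF.trans hFH) hzH
    have h1 := b_union_le (C := C) hFH hGH hint.subset
    exact val_ge hH (by omega) (by linarith)
  have h1 := le_mu (by omega) hF hall
  have h2 := kap_le (by omega : t + 1 + 1 ≤ C.m + 3) hF
  have h3 : C.mu (t + 1 + 1) (C.jn E y) =
    C.b (C.jn E y) + (C.k - C.b (C.jn E y)) * C.rho (t + 1 + 1) := rfl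
  have h4 := W.hi
  linarith

end Pool.Agent.H92.KT
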