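import Pool.Agent.H92.KT.Erec
import Pool.Agent.H92.PY.Asm

/-!
# I.1: the window (project MP_f8e529_KT, helper63)
-/

open Set

namespace Pool.Agent.H92.KT

open Pool.Agent.H63 Pool.Agent.H63.PD Pool.Agent.H69.Pmd Pool.Agent.H92.PX

variable {α : Type*} [Fintype α] {C : PD α}

theorem wd3 (hm : 1 ≤ C.m) (h : C.a 2 = 3) (hwin : (C.a 3 - 3) * C.k0 < C.a 3 - 1) : Wd C := by
  have hlow := low_one (C := C)
  have h3 := a_three (C := C)
  rw [h] at h3
  have key : 4 ≤ C.K 1 → 4 ≤ C.K 2 → Wd C := by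
    intro h1 h2
    have e1 : 9 ≤ C.a 3 := by linarith
    have hk : C.k0 ≤ 5 / 2 := by
      by_contra hc
      rw [not_le] at hc
      have h5 : (C.a 3 - 3) * (5 / 2) ≤ (C.a 3 - 3) * C.k0 :=
        mul_le_mul_of_nonneg_left hc.le (by linarith)
      linarith
    refine ⟨hm, Or.inl h, by rw [h]; linarith, hk, by rw [h]; linarith, ?_⟩
    intro i hi him G hG
    refine ngd_two (j := 2) (by norm_num) ?_ (Kge h2) (by rw [h]; linarith) hi (by omega) hG
    intro l hl hlm
    have h4 := mul_le_next (C := C) (by rw [h]; linarith) (i := l) (by omega) (by omega)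
    rw [h] at h4
    linarith
  rcases dv3 h with h1 | ⟨h1, h2⟩ | ⟨h1, h2⟩ | ⟨h1, h2⟩ | ⟨h1, h2⟩ | h1
  · obtain ⟨e, j, hF⟩ := floc h h1
    obtain ⟨G, hG, hb⟩ := fch hF
    exact (fbg hF hG hb).elim
  · have hk : C.k0 < 4 := by
      rw [h3, h1] at hwin
      linarith
    exact (ag3 h h1 h2 (j := 2) le_rfl (by omega) (by rw [h]; linarith) (by rw [h]; linarith)).elim
  · exact key (by linarith) (by linarith)
  · exact key (by linarith) (by linarith)
  · exact key (by linarith) (by linarith)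
  · exact key (by linarith) ((show (4 : ℝ) ≤ C.K 1 by linarith).trans
      (K_mono (by omega) (by omega)))

theorem wd4 (hm : 1 ≤ C.m) (h : C.a 2 = 4) (hwin : (C.a 3 - 4) * C.k0 < 2 * (C.a 3 - 1)) :
    Wd4 C := by
  have hlow := low_two (C := C) (by rw [h])
  have h3 := a_three (C := C)
  rw [h] at h3
  have hK1 := K_mono (C := C) (show 0 ≤ 1 by omega) (by omega)
  rw [K_zero, h] at hK1
  have hk : C.k0 < 5 := by
    have e1 : 13 ≤ C.a 3 := by linarith
    nlinarith
  have hn : ∀ i, 2 ≤ i → i + 1 ≤ C.m + 4 → ∀ G, C.IsF (i + 1) G → C.b G ≤ C.a i :=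
    fun i hi him G hG => ngd_four (j := 2) (by rw [h]) le_rfl (by rw [h]; linarith) hi him hG
  have key : (C.a 3 = 16 ∧ 16 ≤ C.K 2) ∨ (25 ≤ C.a 3 ∧ 9 ≤ C.K 2) → Wd4 C := by
    intro hc
    have e1 : 16 ≤ C.a 3 := by rcases hc with hc | hc <;> linarith [hc.1]
    have hk2 : C.k0 ≤ 5 / 2 := by
      by_contra hcc
      rw [not_le] at hcc
      have h5 : (C.a 3 - 4) * (5 / 2) ≤ (C.a 3 - 4) * C.k0 :=
        mul_le_mul_of_nonneg_left hcc.le (by linarith)
      linarith
    have h4 := K_mul (C := C) (i := 2) (by omega)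
    have h5 := K_mul (C := C) (i := 3) (by omega)
    have hK3 := K_mono (C := C) (show 2 ≤ 3 by omega) (by omega)
    norm_num at h4 h5
    rw [h] at h4
    have h6 : C.a 5 ≤ C.k := C.a_le (by omega) (by omega)
    have hbig : 1500 ≤ C.k := by
      refine le_trans ?_ h6
      rcases hc with ⟨c1, c2⟩ | ⟨c1, c2⟩
      · rw [c1] at h4 h5
        have h7 : 196 ≤ C.a 4 := by linarith
        have h8 : 16 * (C.a 4 - 16) ≤ C.K 3 * (C.a 4 - 16) :=
          mul_le_mul_of_nonneg_right (by linarith) (by linarith)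
        linarith
      · have h7 : 9 * (C.a 3 - 4) ≤ C.K 2 * (C.a 3 - 4) :=
          mul_le_mul_of_nonneg_right c2 (by linarith)
        have h8 : 9 * (C.a 4 - C.a 3) ≤ C.K 3 * (C.a 4 - C.a 3) :=
          mul_le_mul_of_nonneg_right (by linarith) (by linarith)
        linarith
    have hlo : C.a 2 - 2 < C.k0 := by
      rw [h]
      linarith
    have hgap : C.a 2 + 6 ≤ C.a 3 := by
      rw [h]
      linarith
    have hup : ∀ i, 2 ≤ i → i ≤ C.m + 3 → ∀ G, C.IsF (i + 1) G → C.b G ≤ C.a i :=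
      fun i hi him G hG => hn i hi (by omega) G hG
    refine ⟨⟨hm, Or.inr h, hlo, hk2, hgap, hup⟩, h, ?_, hwin, hbig⟩
    rcases hc with hc | hc
    · exact Or.inl hc.1
    · exact Or.inr hc.1
  rcases dv4 h with h1 | ⟨h1, h2⟩ | h1
  · obtain ⟨q, e, hq, g, e1, e2⟩ := geo_pg (C := C) (by rw [h]; norm_num) (by rw [h, h1])
    have hq3 : q = 3 := by
      rw [h] at hq
      have : (q : ℝ) = 3 := by linarith
      exact_mod_cast this
    exact (geo_mid g (by omega) (by omega) (j := 2) (by omega)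
      (loc_pg g (by omega) e2 le_rfl (by omega) (by rw [h]; linarith) (by rw [h]; linarith))
      (hn 2 le_rfl (by omega))).elim
  · obtain ⟨q, e, hq, g, e1, e2⟩ := geo_ag (C := C) (by rw [h]; norm_num)
      (by rw [h, h1]; norm_num) (by rw [h, h2]; norm_num)
    have hq4 : q = 4 := by
      rw [h] at hq
      exact_mod_cast hq
    exact (geo_mid g (by omega) (by omega) (j := 2) (by omega)
      (loc_ag g (by omega) e2 le_rfl (by omega) (by rw [h]; linarith) (by rw [h]; linarith)).1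
      (hn 2 le_rfl (by omega))).elim
  · apply key
    rcases h1 with ⟨a1, a2⟩ | ⟨a1, a2⟩ | a1
    · left
      exact ⟨by rw [h3, a1]; norm_num, a2⟩
    · right
      exact ⟨by rw [h3, a1]; norm_num, a2⟩
    · right
      exact ⟨by linarith, a1.trans (K_mono (by omega) (by omega))⟩

end Pool.Agent.H92.KT
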